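import Pool.Agent.H67.GT.Base

/-!
# Granville's refinement of Cramér's model: definitions (helper67, MP_028722_nt)
-/

set_option autoImplicit false

namespace Pool.Agent.H67.GT

open Finset

/-- `n` avoids the residue class `r p mod p` for all primes `p ≤ z` in `P`. -/
def Sifted (P : Set ℕ) (r : ℕ → ℤ) (z : ℕ) (n : ℤ) : Prop :=
  ∀ p ∈ prs P z, ¬ n ≡ r p [ZMOD p]

/-- The number of sifted integers in `(a, a + H]`. -/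
noncomputable def S (P : Set ℕ) (r : ℕ → ℤ) (z : ℕ) (a : ℤ) (H : ℕ) : ℕ := by
  classical exact ((Finset.Ioc a (a + H)).filter (Sifted P r z)).card

/-- Fundamental lemma of the sieve for intervals, one residue class per prime, any rate `A`. -/
def FL : Prop := ∀ A : ℝ, 1 ≤ A → ∃ (u0 : ℝ) (z0 : ℕ), 1 ≤ u0 ∧ 3 ≤ z0 ∧
  ∀ (P : Set ℕ) (r : ℕ → ℤ) (z : ℕ) (a : ℤ) (H : ℕ), z0 ≤ z →
    u0 * Real.log z ≤ Real.log H →
    |(S P r z a H : ℝ) - V P z * H| ≤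
      Real.exp (-A * (Real.log H / Real.log z - u0)) * (V P z * H)

/-- Two-sided first theorem of Mertens and the crude form of the third one. -/
def Mert : Prop := ∃ c : ℝ, 1 ≤ c ∧
  (∀ w z : ℝ, 1 ≤ w → w ≤ z →
    ∑ p ∈ (Finset.Icc 1 ⌊z⌋₊).filter (fun p : ℕ => p.Prime ∧ w < p), Real.log p / p
      ≤ Real.log (z / w) + c) ∧
  (∀ w z : ℝ, 1 ≤ w → w ≤ z →
    Real.log (z / w) - c ≤
      ∑ p ∈ (Finset.Icc 1 ⌊z⌋₊).filter (fun p : ℕ => p.Prime ∧ w < p), Real.log p / p) ∧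
  (∀ (P : Set ℕ) (w z : ℕ), 2 ≤ w → w ≤ z →
    V P w ≤ c * (Real.log z / Real.log w) * V P z) ∧
  (∀ (P : Set ℕ) (z : ℕ), 2 ≤ z → 1 / (c * Real.log z) ≤ V P z) ∧
  (∀ (z : ℕ), 2 ≤ z → V Set.univ z * Real.log z ≤ c)

/-- indicator of `z`-rough numbers minus its mean -/
noncomputable def cc (z n : ℕ) : ℝ :=
  (if n.Coprime (primorial z) then 1 else 0) - V Set.univ z

/-- The Euler factor product `∏_{p ≤ z} (1 - p^(-s))`. -/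
noncomputable def PiZ (z : ℕ) (s : ℂ) : ℂ := ∏ p ∈ prs Set.univ z, (1 - (p : ℂ) ^ (-s))

/-- The Dirichlet series of `cc z` in the half plane `Re s > 0`. -/
def DSer : Prop := ∃ C : ℝ, ∀ s : ℂ, 1 / 2 ≤ s.re → s.re < 1 → ‖s‖ ≤ 2 → ∃ c0 : ℂ,
  ‖c0 + 1 / (1 - s)‖ ≤ C ∧
  (s.im = 0 → c0.im = 0 ∧ -(1 / (1 - s.re)) ≤ c0.re ∧ c0.re ≤ 0) ∧
  ∀ z : ℕ, Filter.Tendsto (fun X : ℕ => ∑ n ∈ Finset.Icc 1 X, (cc z n : ℂ) * (n : ℂ) ^ (-s))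
    Filter.atTop (nhds (c0 * (PiZ z s - (V Set.univ z : ℂ))))

/-- Lower bound for the Euler product at `1 - (x + iπ) / log z`. -/
def ProdLB : Prop := ∀ x : ℝ, 1 ≤ x → ∃ z1 : ℕ, ∀ z : ℕ, z1 ≤ z →
  V Set.univ z * Real.exp (0.14 * Real.exp (3 * x / 4) - x * Real.exp (x / 2) - 6) ≤
    ‖PiZ z (1 - (x + Real.pi * Complex.I) / Real.log z)‖

/-- Intervals of length `H ≤ z^u` with few `z`-rough numbers. -/
def Deficit : Prop := ∀ u : ℝ, 1 ≤ u → ∃ κ : ℝ, 0 < κ ∧ κ < 1 ∧ ∃ z1 : ℕ, ∀ z : ℕ, z1 ≤ z →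
  ∀ H : ℕ, 1 ≤ H → (H : ℝ) ≤ (z : ℝ) ^ u → ∃ a : ℕ,
    (S Set.univ (fun _ => 0) z a H : ℝ) ≤ (1 - κ) * (V Set.univ z * H)

/-- The expected number of gap starts: `w_n ∏_{1 ≤ j ≤ C log² n} (1 - w_{n+j})`. -/
noncomputable def gapTerm (T : ℕ → ℕ) (C : ℝ) (n : ℕ) : ℝ :=
  wt T n * ∏ j ∈ Finset.Icc 1 ⌊C * Real.log n ^ 2⌋₊, (1 - wt T (n + j))

/-- Convergence: `C > 1` and level at most `(log n)^α`. -/
def UpperSide : Prop := ∀ C : ℝ, 1 < C → ∃ α : ℝ, 0 < α ∧ ∀ T : ℕ → ℕ, Monotone T →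
  (∀ᶠ n : ℕ in Filter.atTop, (T n : ℝ) ≤ (Real.log n) ^ α) → Summable (gapTerm T C)

/-- Divergence from intervals with few survivors. -/
def LowerSide : Prop := ∀ (T : ℕ → ℕ) (κ C : ℝ), Monotone T →
  Filter.Tendsto (fun n : ℕ => Real.log (T n) / Real.log n) Filter.atTop (nhds 0) →
  0 ≤ κ → κ < 1 → 0 < C → C * (1 - κ) < 1 →
  (∀ ε : ℝ, 0 < ε → ∃ᶠ N : ℕ in Filter.atTop, ∃ T0 a0 : ℕ, T0 ≤ T N ∧ (T0 : ℝ) ≤ ε * Real.log N ∧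
    (S Set.univ (fun _ => 0) T0 a0 (⌊C * Real.log (4 * N) ^ 2⌋₊ + 1) : ℝ) ≤
      (1 - κ) * (V Set.univ T0 * ((⌊C * Real.log (4 * N) ^ 2⌋₊ + 1 : ℕ) : ℝ))) →
  ¬ Summable (gapTerm T C)

end Pool.Agent.H67.GT
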