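import Mathlib
import Pool.Agent.H67.GT.Defs
import Pool.Agent.H93.DC.Smooth

/-!
# Two-sided Mertens bounds (module MERT of MP_028722_G)
-/

set_option autoImplicit false

namespace Pool.Agent.H67.GT.MERT

open Finset Nat
open Pool.Agent.H93.DC (MP MP_pos MP_le log_le_MP mertens_upper one_sub_inv_pos)

/-- partial sum of `log p / p` -/
noncomputable def F (n : ℕ) : ℝ := ∑ p ∈ (n + 1).primesBelow, Real.log p / p

lemma F_eq (n : ℕ) : F n = ∑ p ∈ (Icc 1 n).filter (fun p : ℕ => p.Prime), Real.log p / p := by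
  unfold F
  refine Finset.sum_congr ?_ (fun _ _ => rfl)
  ext p
  simp only [Nat.mem_primesBelow, mem_filter, mem_Icc]
  constructor
  · rintro ⟨h1, h2⟩; exact ⟨⟨h2.one_lt.le, by omega⟩, h2⟩
  · rintro ⟨⟨_, h1⟩, h2⟩; exact ⟨by omega, h2⟩

/-- telescoping step -/
lemma tele {m : ℕ} (hm : 2 ≤ m) :
    Real.log m / ((m : ℝ) * (m - 1)) ≤
      (Real.log ((m - 1 : ℕ) : ℝ) + 2) / ((m - 1 : ℕ) : ℝ) - (Real.log m + 2) / m := by
  have hm2 : (2 : ℝ) ≤ m := by exact_mod_cast hm
  have hm1 : ((m - 1 : ℕ) : ℝ) = (m : ℝ) - 1 := by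
    rw [Nat.cast_sub (by omega)]; simp
  rw [hm1]
  have hpos : (0 : ℝ) < (m : ℝ) - 1 := by linarith
  have hpos2 : (0 : ℝ) < (m : ℝ) := by linarith
  have hlog : Real.log m - Real.log ((m : ℝ) - 1) ≤ 1 / ((m : ℝ) - 1) := by
    rw [← Real.log_div hpos2.ne' hpos.ne']
    have := Real.log_le_sub_one_of_pos (show 0 < (m : ℝ) / (m - 1) by positivity)
    have h2 : (m : ℝ) / (m - 1) - 1 = 1 / ((m : ℝ) - 1) := by field_simp; ring
    linarith
  have hm' : (m : ℝ) * (1 / ((m : ℝ) - 1)) ≤ 2 := by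
    rw [mul_one_div, div_le_iff₀ hpos]; linarith
  have key : Real.log m ≤ (Real.log ((m : ℝ) - 1) + 2) * m - (Real.log m + 2) * (m - 1) := by
    nlinarith [mul_le_mul_of_nonneg_left hlog hpos2.le]
  have e : (Real.log ((m : ℝ) - 1) + 2) / ((m : ℝ) - 1) - (Real.log m + 2) / m =
      ((Real.log ((m : ℝ) - 1) + 2) * m - (Real.log m + 2) * (m - 1)) / ((m : ℝ) * (m - 1)) := by
    field_simp
  rw [e]
  gcongr

lemma tele_sum (n : ℕ) (hn : 1 ≤ n) :
    ∑ m ∈ Icc 2 n, Real.log m / ((m : ℝ) * (m - 1)) ≤ 2 - (Real.log n + 2) / n := by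
  induction n, hn using Nat.le_induction with
  | base => simp
  | succ n hn ih =>
    rw [Finset.sum_Icc_succ_top (by omega)]
    have := tele (m := n + 1) (by omega)
    simp only [Nat.add_sub_cancel] at this
    linarith

lemma sum_log_sq (n : ℕ) :
    ∑ p ∈ (n + 1).primesBelow, Real.log p / ((p : ℝ) * (p - 1)) ≤ 2 := by
  rcases Nat.eq_zero_or_pos n with rfl | hn
  · have : (0 + 1).primesBelow = ∅ := by
      ext p; simp only [Nat.mem_primesBelow, Finset.notMem_empty, iff_false]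
      rintro ⟨h1, h2⟩; have := h2.two_le; omega
    rw [this]; simp
  have h1 := tele_sum n hn
  have h2 : 0 ≤ (Real.log n + 2) / (n : ℝ) := by
    have : 0 ≤ Real.log n := Real.log_nonneg (by exact_mod_cast hn)
    positivity
  have h3 : ∑ p ∈ (n + 1).primesBelow, Real.log p / ((p : ℝ) * (p - 1)) ≤
      ∑ m ∈ Icc 2 n, Real.log m / ((m : ℝ) * (m - 1)) := by
    apply Finset.sum_le_sum_of_subset_of_nonneg
    · intro p hp
      rw [Nat.mem_primesBelow] at hp
      rw [mem_Icc]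
      exact ⟨hp.2.two_le, by omega⟩
    · intro m hm _
      rw [mem_Icc] at hm
      have hm2 : (2 : ℝ) ≤ m := by exact_mod_cast hm.1
      have : 0 ≤ Real.log m := Real.log_nonneg (by linarith)
      have h4 : (0:ℝ) ≤ (m : ℝ) - 1 := by linarith
      positivity
  linarith

lemma val_factorial_le {n p : ℕ} (hp : p.Prime) :
    (((n !).factorization p : ℕ) : ℝ) ≤ n / ((p : ℝ) - 1) := by
  have hp1 : (0 : ℝ) < (p : ℝ) - 1 := by
    have : (2 : ℝ) ≤ p := by exact_mod_cast hp.two_le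
    linarith
  rw [le_div_iff₀ hp1]
  have := Fact.mk hp
  have h := sub_one_mul_padicValNat_factorial (p := p) n
  rw [Nat.factorization_def _ hp]
  have h1 : (p - 1) * padicValNat p (n !) ≤ n := by rw [h]; exact Nat.sub_le _ _
  have h2 : (((p - 1) * padicValNat p (n !) : ℕ) : ℝ) ≤ n := by exact_mod_cast h1
  rw [Nat.cast_mul, Nat.cast_sub hp.one_lt.le] at h2
  push_cast at h2
  linarith

lemma mertens_lower {n : ℕ} (hn : 1 ≤ n) : Real.log n - 3 ≤ F n := by
  have hn0 : (0 : ℝ) < n := by exact_mod_cast hn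
  have hlog : Real.log (n ! : ℕ) = ∑ p ∈ (n + 1).primesBelow, ((n !).factorization p : ℝ) * Real.log p := by
    rw [Real.log_nat_eq_sum_factorization, Finsupp.sum]
    apply Finset.sum_subset
    · intro p hp
      rw [Nat.support_factorization, Nat.mem_primeFactors] at hp
      rw [Nat.mem_primesBelow]
      refine ⟨?_, hp.1⟩
      have := (Nat.Prime.dvd_factorial hp.1).mp hp.2.1
      omega
    · intro p _ hp
      rw [Finsupp.notMem_support_iff.mp hp]; simp
  have hup : Real.log (n ! : ℕ) ≤ n * (F n + 2) := by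
    rw [hlog]
    have h1 : ∀ p ∈ (n + 1).primesBelow, ((n !).factorization p : ℝ) * Real.log p ≤
        n * (Real.log p / p + Real.log p / ((p : ℝ) * (p - 1))) := by
      intro p hp
      have hpp := Nat.prime_of_mem_primesBelow hp
      have hp2 : (2 : ℝ) ≤ p := by exact_mod_cast hpp.two_le
      have hp1 : (0 : ℝ) < (p : ℝ) - 1 := by linarith
      have h2 := val_factorial_le (n := n) hpp
      have h3 : 0 ≤ Real.log p := Real.log_nonneg (by linarith)
      calc ((n !).factorization p : ℝ) * Real.log p ≤ (n / ((p : ℝ) - 1)) * Real.log p := by gcongr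
        _ = _ := by field_simp; ring
    refine (Finset.sum_le_sum h1).trans ?_
    rw [← Finset.mul_sum, Finset.sum_add_distrib]
    have := sum_log_sq n
    unfold F
    gcongr
  have hlow : n * Real.log n - n ≤ Real.log (n ! : ℕ) := by
    have h1 := Real.pow_div_factorial_le_exp (n : ℝ) hn0.le n
    have h2 : (0 : ℝ) < (n ! : ℕ) := by exact_mod_cast Nat.factorial_pos n
    have h3 := Real.log_le_log (by positivity) h1
    rw [Real.log_exp, Real.log_div (by positivity) h2.ne', Real.log_pow] at h3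
    linarith
  have h4 : (n : ℝ) * (Real.log n - 3) ≤ n * F n := by nlinarith
  exact le_of_mul_le_mul_left h4 hn0

lemma F_upper {n : ℕ} (hn : 1 ≤ n) : F n ≤ Real.log n + 2 := mertens_upper hn

lemma sum_eq {w z : ℝ} (hw : 1 ≤ w) (hwz : w ≤ z) :
    ∑ p ∈ (Finset.Icc 1 ⌊z⌋₊).filter (fun p : ℕ => p.Prime ∧ w < p), Real.log p / p
      = F ⌊z⌋₊ - F ⌊w⌋₊ := by
  have h0 : ⌊w⌋₊ ≤ ⌊z⌋₊ := Nat.floor_le_floor hwz
  have hlt : ∀ p : ℕ, w < p ↔ ⌊w⌋₊ < p := fun p => (Nat.floor_lt (by linarith)).symm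
  rw [F_eq, F_eq, eq_sub_iff_add_eq, ← Finset.sum_union]
  · refine Finset.sum_congr ?_ (fun _ _ => rfl)
    ext p
    simp only [mem_union, mem_filter, mem_Icc, hlt]
    constructor
    · rintro (⟨⟨h1, h2⟩, h3, h4⟩ | ⟨⟨h1, h2⟩, h3⟩)
      · exact ⟨⟨h1, h2⟩, h3⟩
      · exact ⟨⟨h1, by omega⟩, h3⟩
    · rintro ⟨⟨h1, h2⟩, h3⟩
      by_cases h : ⌊w⌋₊ < p
      · exact Or.inl ⟨⟨h1, h2⟩, h3, h⟩
      · exact Or.inr ⟨⟨h1, by omega⟩, h3⟩
  · rw [Finset.disjoint_left]
    intro p hp hp'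
    simp only [mem_filter, mem_Icc, hlt] at hp hp'
    omega

lemma log_floor {w : ℝ} (hw : 1 ≤ w) :
    Real.log w - 1 ≤ Real.log (⌊w⌋₊ : ℝ) ∧ Real.log (⌊w⌋₊ : ℝ) ≤ Real.log w ∧ 1 ≤ ⌊w⌋₊ := by
  have h1 : 1 ≤ ⌊w⌋₊ := Nat.le_floor (by exact_mod_cast hw)
  have h1' : (1 : ℝ) ≤ ⌊w⌋₊ := by exact_mod_cast h1
  have h2 : (⌊w⌋₊ : ℝ) ≤ w := Nat.floor_le (by linarith)
  have h3 : w < ⌊w⌋₊ + 1 := Nat.lt_floor_add_one w
  refine ⟨?_, Real.log_le_log (by linarith) h2, h1⟩
  have h4 : Real.log w ≤ Real.log (2 * (⌊w⌋₊ : ℝ)) := Real.log_le_log (by linarith) (by linarith)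
  rw [Real.log_mul (by norm_num) (by linarith)] at h4
  have := Real.log_two_lt_d9
  linarith

lemma V_univ (z : ℕ) : V Set.univ z = (MP (z + 1))⁻¹ := by
  unfold V MP prs
  rw [← Finset.prod_inv_distrib]
  refine Finset.prod_congr ?_ ?_
  · ext p
    simp only [mem_filter, mem_Icc, Set.mem_univ, and_true, Nat.mem_primesBelow]
    constructor
    · rintro ⟨⟨_, h1⟩, h2⟩; exact ⟨by omega, h2⟩
    · rintro ⟨h1, h2⟩; exact ⟨⟨h2.one_lt.le, by omega⟩, h2⟩
  · intro p _
    rw [inv_inv, one_div]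

lemma mem_prs {P : Set ℕ} {z p : ℕ} : p ∈ prs P z ↔ p ≤ z ∧ p.Prime ∧ p ∈ P := by
  unfold prs
  simp only [mem_filter, mem_Icc]
  constructor
  · rintro ⟨⟨_, h1⟩, h2⟩; exact ⟨h1, h2⟩
  · rintro ⟨h1, h2⟩; exact ⟨⟨h2.1.one_lt.le, h1⟩, h2⟩

lemma factor_pos {p : ℕ} (hp : p.Prime) : (0 : ℝ) < 1 - 1 / (p : ℝ) := by
  rw [one_div]; exact one_sub_inv_pos hp

lemma V_pos (P : Set ℕ) (z : ℕ) : 0 < V P z := by
  apply Finset.prod_pos
  intro p hp
  exact factor_pos (mem_prs.mp hp).2.1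

/-- comparison with the full product -/
lemma V_ratio (P : Set ℕ) {w z : ℕ} (hwz : w ≤ z) :
    V P w * V Set.univ z ≤ V Set.univ w * V P z := by
  classical
  -- `V P z = V P w * ∏_{w < p ≤ z, p ∈ P}`
  have split : ∀ Q : Set ℕ, V Q z = V Q w * ∏ p ∈ prs Q z \ prs Q w, (1 - 1 / (p : ℝ)) := by
    intro Q
    unfold V
    rw [mul_comm, Finset.prod_sdiff]
    intro p hp
    rw [mem_prs] at hp ⊢
    exact ⟨by omega, hp.2⟩
  rw [split Set.univ, split P]
  have hle : ∏ p ∈ prs Set.univ z \ prs Set.univ w, (1 - 1 / (p : ℝ)) ≤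
      ∏ p ∈ prs P z \ prs P w, (1 - 1 / (p : ℝ)) := by
    have hsub : prs P z \ prs P w ⊆ prs Set.univ z \ prs Set.univ w := by
      intro p hp
      rw [mem_sdiff, mem_prs, mem_prs] at hp
      rw [mem_sdiff, mem_prs, mem_prs]
      refine ⟨⟨hp.1.1, hp.1.2.1, trivial⟩, ?_⟩
      rintro ⟨h1, h2, -⟩
      exact hp.2 ⟨h1, h2, hp.1.2.2⟩
    rw [← Finset.prod_sdiff hsub]
    apply mul_le_of_le_one_left
    · apply Finset.prod_nonneg
      intro p hp
      rw [mem_sdiff, mem_prs] at hp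
      exact (factor_pos hp.1.2.1).le
    · apply Finset.prod_le_one
      · intro p hp
        rw [mem_sdiff, mem_sdiff, mem_prs] at hp
        exact (factor_pos hp.1.1.2.1).le
      · intro p hp
        have : (0:ℝ) ≤ 1 / (p : ℝ) := by positivity
        linarith
  have h1 := V_pos P w
  have h2 := V_pos Set.univ w
  calc V P w * (V Set.univ w * ∏ p ∈ prs Set.univ z \ prs Set.univ w, (1 - 1 / (p : ℝ)))
      ≤ V P w * (V Set.univ w * ∏ p ∈ prs P z \ prs P w, (1 - 1 / (p : ℝ))) := by gcongr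
    _ = _ := by ring

lemma V_le_one (P : Set ℕ) (z : ℕ) : V P z ≤ 1 := by
  apply Finset.prod_le_one
  · intro p hp
    exact (factor_pos (mem_prs.mp hp).2.1).le
  · intro p hp
    have : (0:ℝ) ≤ 1 / (p : ℝ) := by positivity
    linarith

lemma log_succ_le {z : ℕ} (hz : 2 ≤ z) : Real.log ((z + 1 : ℕ) : ℝ) ≤ 2 * Real.log z := by
  have hz2 : (2 : ℝ) ≤ z := by exact_mod_cast hz
  rw [← Nat.cast_two, ← Real.log_pow]
  apply Real.log_le_log
  · positivity
  · push_cast; nlinarith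

/-- module MERT -/
theorem mert : Mert := by
  have he : (7 : ℝ) ≤ Real.exp 6 := by
    have := Real.add_one_le_exp (6 : ℝ); linarith
  refine ⟨4 * Real.exp 6, by linarith, ?_, ?_, ?_, ?_, ?_⟩
  · intro w z hw hwz
    rw [sum_eq hw hwz]
    obtain ⟨a1, a2, a3⟩ := log_floor hw
    obtain ⟨b1, b2, b3⟩ := log_floor (hw.trans hwz)
    have h1 := F_upper b3
    have h2 := mertens_lower a3
    rw [Real.log_div (by linarith) (by linarith)]
    linarith
  · intro w z hw hwz
    rw [sum_eq hw hwz]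
    obtain ⟨a1, a2, a3⟩ := log_floor hw
    obtain ⟨b1, b2, b3⟩ := log_floor (hw.trans hwz)
    have h1 := F_upper a3
    have h2 := mertens_lower b3
    rw [Real.log_div (by linarith) (by linarith)]
    linarith
  · intro P w z hw hwz
    have h1 := V_ratio P hwz
    have hw2 : (2 : ℝ) ≤ w := by exact_mod_cast hw
    have hz2 : (2 : ℝ) ≤ z := by exact_mod_cast hw.trans hwz
    have hlw : 0 < Real.log w := Real.log_pos (by linarith)
    have hlz : 0 < Real.log z := Real.log_pos (by linarith)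
    have hVz := V_pos P z
    have hVuz := V_pos Set.univ z
    have h2 : V Set.univ w ≤ 4 * Real.exp 6 * (Real.log z / Real.log w) * V Set.univ z := by
      rw [V_univ, V_univ]
      have hM1 := MP_pos (w + 1)
      have hM2 := MP_pos (z + 1)
      have h3 := MP_le (Y := z + 1) (by omega)
      have h4 := log_le_MP (Y := w + 1) (by omega)
      have h5 := log_succ_le (hw.trans hwz)
      have h6 : Real.log w ≤ Real.log ((w + 1 : ℕ) : ℝ) := by
        apply Real.log_le_log (by linarith)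
        push_cast; linarith
      have h7 : MP (z + 1) ≤ 4 * Real.exp 6 * Real.log z := by
        have : 2 * Real.exp 6 * Real.log ((z + 1 : ℕ) : ℝ) ≤ 2 * Real.exp 6 * (2 * Real.log z) := by
          gcongr
        linarith
      have h8 : Real.log w ≤ MP (w + 1) := h6.trans h4
      calc (MP (w + 1))⁻¹ ≤ (Real.log w)⁻¹ := inv_anti₀ hlw h8
        _ = (MP (z + 1)) * (Real.log w)⁻¹ * (MP (z + 1))⁻¹ := by field_simp
        _ ≤ (4 * Real.exp 6 * Real.log z) * (Real.log w)⁻¹ * (MP (z + 1))⁻¹ := by gcongr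
        _ = _ := by ring
    have h3 : V P w * V Set.univ z ≤ (4 * Real.exp 6 * (Real.log z / Real.log w) * V P z) * V Set.univ z := by
      calc V P w * V Set.univ z ≤ V Set.univ w * V P z := h1
        _ ≤ (4 * Real.exp 6 * (Real.log z / Real.log w) * V Set.univ z) * V P z := by gcongr
        _ = _ := by ring
    exact le_of_mul_le_mul_right h3 hVuz
  · intro P z hz
    have hz2 : (2 : ℝ) ≤ z := by exact_mod_cast hz
    have hlz : 0 < Real.log z := Real.log_pos (by linarith)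
    have h1 := V_ratio P (w := 0) (z := z) (Nat.zero_le _)
    have h0 : ∀ Q : Set ℕ, V Q 0 = 1 := by
      intro Q
      unfold V
      apply Finset.prod_eq_one
      intro p hp
      have := mem_prs.mp hp
      exact absurd this.1 (by have := this.2.1.pos; omega)
    rw [h0, h0, one_mul, one_mul, V_univ] at h1
    have h3 := MP_le (Y := z + 1) (by omega)
    have h5 := log_succ_le hz
    have h7 : MP (z + 1) ≤ 4 * Real.exp 6 * Real.log z := by
      have : 2 * Real.exp 6 * Real.log ((z + 1 : ℕ) : ℝ) ≤ 2 * Real.exp 6 * (2 * Real.log z) := by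
        gcongr
      linarith
    rw [one_div]
    exact (inv_anti₀ (MP_pos _) h7).trans h1
  · intro z hz
    have hz2 : (2 : ℝ) ≤ z := by exact_mod_cast hz
    have hlz : 0 < Real.log z := Real.log_pos (by linarith)
    rw [V_univ]
    have h4 := log_le_MP (Y := z + 1) (by omega)
    have h6 : Real.log z ≤ Real.log ((z + 1 : ℕ) : ℝ) := by
      apply Real.log_le_log (by linarith)
      push_cast; linarith
    have hM := MP_pos (z + 1)
    have : (MP (z + 1))⁻¹ * Real.log z ≤ 1 := by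
      rw [inv_mul_le_iff₀ hM]; linarith
    linarith

end Pool.Agent.H67.GT.MERT
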