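import Mathlib

/-!
# Granville's refinement of Cramér's model (MP_028722_nt): definitions of the statement
-/

set_option autoImplicit false

namespace Pool.Agent.H67.GT

open MeasureTheory Filter ProbabilityTheory

/-- The primes `p ≤ z` lying in `P`. -/
noncomputable def prs (P : Set ℕ) (z : ℕ) : Finset ℕ := by
  classical exact (Finset.Icc 1 z).filter (fun p => p.Prime ∧ p ∈ P)

/-- The sieve product `∏_{p ≤ z, p ∈ P} (1 - 1/p)`. -/
noncomputable def V (P : Set ℕ) (z : ℕ) : ℝ := ∏ p ∈ prs P z, (1 - 1 / (p : ℝ))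

/-- `n` has no prime factor `≤ t`. -/
def Rough (t n : ℕ) : Prop := ∀ p : ℕ, p.Prime → p ≤ t → ¬ p ∣ n

/-- The probability with which `n` is selected in Granville's model with sieving level `T`:
`1 / (V(T n) log n)` if `n` has no prime factor `≤ T n`, where `V(z) = ∏_{p ≤ z} (1 - 1/p)`,
and `0` otherwise. -/
noncomputable def wt (T : ℕ → ℕ) (n : ℕ) : ℝ := by
  classical exact if Rough (T n) n then 1 / (V Set.univ (T n) * Real.log n) else 0

/-- `GModel T μ A`: the events `A n` (`n` is selected) are independent and, for all large `n`,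
`A n` has probability `wt T n`. -/
structure GModel (T : ℕ → ℕ) {Ω : Type*} [MeasurableSpace Ω] (μ : Measure Ω) (A : ℕ → Set Ω) :
    Prop where
  meas : ∀ n, MeasurableSet (A n)
  indep : iIndepSet A μ
  prob : ∀ᶠ n in atTop, μ (A n) = ENNReal.ofReal (wt T n)

/-- The random set of selected integers. -/
def rset {Ω : Type*} (A : ℕ → Set Ω) (ω : Ω) : Set ℕ := {n | 3 ≤ n ∧ ω ∈ A n}

/-- The normalised gap `(s_{j+1} - s_j) / (log s_j)^2` between consecutive elements of `S`. -/
noncomputable def gapRatio (S : Set ℕ) (j : ℕ) : ℝ :=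
  ((Nat.nth (· ∈ S) (j + 1) : ℝ) - (Nat.nth (· ∈ S) j : ℝ)) / (Real.log (Nat.nth (· ∈ S) j)) ^ 2

/-- `limsup (s_{j+1} - s_j) / (log s_j)^2`. -/
noncomputable def limsupRatio (S : Set ℕ) : EReal :=
  limsup (fun j : ℕ => ((gapRatio S j : ℝ) : EReal)) atTop

/-- `T(n) = n^{o(1)}`, that is `log T(n) = o(log n)`. -/
def SubPoly (T : ℕ → ℕ) : Prop :=
  Tendsto (fun n : ℕ => Real.log (T n) / Real.log n) atTop (nhds 0)

/-- `T(n) = (log n)^{o(1)}`, that is `log T(n) = o(log log n)`. -/
def SubLog (T : ℕ → ℕ) : Prop :=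
  Tendsto (fun n : ℕ => Real.log (T n) / Real.log (Real.log n)) atTop (nhds 0)

end Pool.Agent.H67.GT
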