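import Mathlib
import Pool.Agent.H67.GT.Defs

/-!
# Elementary lemmas for the module `DEF` (helper60)
-/

set_option autoImplicit false

namespace Pool.Agent.H67.GT.DEF

open Finset

/-! ### sums of powers -/

lemma sum_rpow_le {t : ℝ} (ht : 0 < t) (ht1 : t ≤ 1) (N : ℕ) :
    ∑ n ∈ Icc 1 N, (n : ℝ) ^ (t - 1) ≤ (N : ℝ) ^ t / t := by
  induction N with
  | zero => simp [Real.zero_rpow ht.ne']
  | succ N ih =>
    rw [Finset.sum_Icc_succ_top (by omega)]
    have hN : (0 : ℝ) < (N : ℝ) + 1 := by positivity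
    have h1 : (N : ℝ) ^ t ≤ ((N : ℝ) + 1) ^ t * (1 - t / ((N : ℝ) + 1)) := by
      have e1 : (N : ℝ) = ((N : ℝ) + 1) * (1 + (-(1 / ((N : ℝ) + 1)))) := by field_simp; ring
      have e2 : 0 ≤ 1 + (-(1 / ((N : ℝ) + 1))) := by
        have : 1 / ((N : ℝ) + 1) ≤ 1 := by
          rw [div_le_one hN]; linarith [Nat.cast_nonneg (α := ℝ) N]
        linarith
      have e3 : (1 + (-(1 / ((N : ℝ) + 1)))) ^ t ≤ 1 + t * (-(1 / ((N : ℝ) + 1))) :=
        rpow_one_add_le_one_add_mul_self (by linarith) ht.le ht1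
      calc (N : ℝ) ^ t = (((N : ℝ) + 1) * (1 + (-(1 / ((N : ℝ) + 1))))) ^ t := by rw [← e1]
        _ = ((N : ℝ) + 1) ^ t * (1 + (-(1 / ((N : ℝ) + 1)))) ^ t := by
            rw [Real.mul_rpow hN.le e2]
        _ ≤ ((N : ℝ) + 1) ^ t * (1 + t * (-(1 / ((N : ℝ) + 1)))) := by
            gcongr
        _ = _ := by ring
    have h2 : ((N : ℝ) + 1) ^ t * (t / ((N : ℝ) + 1)) = t * ((N : ℝ) + 1) ^ (t - 1) := by
      rw [Real.rpow_sub_one hN.ne']; ring
    have h3 : ((N : ℝ) + 1) ^ (t - 1) ≤ (((N : ℝ) + 1) ^ t - (N : ℝ) ^ t) / t := by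
      rw [le_div_iff₀ ht]; nlinarith
    push_cast
    have h4 : (((N : ℝ) + 1) ^ t - (N : ℝ) ^ t) / t = ((N : ℝ) + 1) ^ t / t - (N : ℝ) ^ t / t := by
      ring
    linarith

lemma sum_rpow_tail {η : ℝ} (hη : 0 < η) (N M : ℕ) (hN : 1 ≤ N) (hNM : N ≤ M) :
    ∑ n ∈ Ioc N M, (n : ℝ) ^ (-1 - η) ≤ (N : ℝ) ^ (-η) / η - (M : ℝ) ^ (-η) / η := by
  induction M, hNM using Nat.le_induction with
  | base => simp
  | succ M hM ih =>
    rw [← Finset.insert_Ioc_right_eq_Ioc_add_one hM, Finset.sum_insert (by simp)]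
    have hM0 : (0 : ℝ) < M := by exact_mod_cast (by omega : 0 < M)
    have hM1 : (0 : ℝ) < (M : ℝ) + 1 := by positivity
    have h1 : ((M : ℝ) + 1) ^ (-η) * (1 + η / ((M : ℝ) + 1)) ≤ (M : ℝ) ^ (-η) := by
      have e1 : (M : ℝ) = ((M : ℝ) + 1) * (1 - 1 / ((M : ℝ) + 1)) := by field_simp; ring
      have e2 : 0 < 1 - 1 / ((M : ℝ) + 1) := by
        have : 1 / ((M : ℝ) + 1) < 1 := by
          rw [div_lt_one hM1]; linarith
        linarith
      have e3 : 1 + η / ((M : ℝ) + 1) ≤ (1 - 1 / ((M : ℝ) + 1)) ^ (-η) := by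
        rw [Real.rpow_def_of_pos e2]
        have e4 : Real.log (1 - 1 / ((M : ℝ) + 1)) ≤ - (1 / ((M : ℝ) + 1)) := by
          have := Real.log_le_sub_one_of_pos e2
          linarith
        have e5 := Real.add_one_le_exp (Real.log (1 - 1 / ((M : ℝ) + 1)) * -η)
        have e6 : η / ((M : ℝ) + 1) ≤ Real.log (1 - 1 / ((M : ℝ) + 1)) * -η := by
          have : η / ((M : ℝ) + 1) = (- (1 / ((M : ℝ) + 1))) * (-η) := by ring
          rw [this]
          exact mul_le_mul_of_nonpos_right e4 (by linarith)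
        linarith
      calc ((M : ℝ) + 1) ^ (-η) * (1 + η / ((M : ℝ) + 1))
          ≤ ((M : ℝ) + 1) ^ (-η) * (1 - 1 / ((M : ℝ) + 1)) ^ (-η) := by gcongr
        _ = (((M : ℝ) + 1) * (1 - 1 / ((M : ℝ) + 1))) ^ (-η) := by
            rw [Real.mul_rpow hM1.le e2.le]
        _ = _ := by rw [← e1]
    have h2 : ((M : ℝ) + 1) ^ (-η) * (η / ((M : ℝ) + 1)) = η * ((M : ℝ) + 1) ^ (-1 - η) := by
      have : (-1 - η) = -η - 1 := by ring
      rw [this, Real.rpow_sub_one hM1.ne']; ring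
    have h3 : ((M : ℝ) + 1) ^ (-1 - η) ≤ ((M : ℝ) ^ (-η) - ((M : ℝ) + 1) ^ (-η)) / η := by
      rw [le_div_iff₀ hη]; nlinarith
    push_cast
    have h4 : ((M : ℝ) ^ (-η) - ((M : ℝ) + 1) ^ (-η)) / η
        = (M : ℝ) ^ (-η) / η - ((M : ℝ) + 1) ^ (-η) / η := by ring
    linarith

/-! ### Abel summation -/

lemma abel (c h : ℕ → ℝ) (N X : ℕ) (hNX : N ≤ X) :
    ∑ n ∈ Icc 1 X, c n * h n = ∑ n ∈ Icc 1 N, c n * h n
      + (∑ n ∈ Icc 1 X, c n) * h (X + 1) - (∑ n ∈ Icc 1 N, c n) * h (N + 1)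
      + ∑ n ∈ Ioc N X, (∑ m ∈ Icc 1 n, c m) * (h n - h (n + 1)) := by
  induction X, hNX using Nat.le_induction with
  | base => simp
  | succ X hX ih =>
    rw [← Finset.insert_Ioc_right_eq_Ioc_add_one hX, Finset.sum_insert (by simp),
      Finset.sum_Icc_succ_top (by omega), Finset.sum_Icc_succ_top (by omega), ih]
    ring

/-! ### the test function -/

/-- The test function. -/
noncomputable def hf (σ τ φ t : ℝ) : ℝ := t ^ (-σ) * (1 + Real.cos (τ * Real.log t + φ))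

lemma hf_nonneg (σ τ φ t : ℝ) (ht : 0 ≤ t) : 0 ≤ hf σ τ φ t := by
  unfold hf
  have := Real.neg_one_le_cos (τ * Real.log t + φ)
  exact mul_nonneg (Real.rpow_nonneg ht _) (by linarith)

lemma hf_le (σ τ φ t : ℝ) (ht : 0 ≤ t) : hf σ τ φ t ≤ 2 * t ^ (-σ) := by
  unfold hf
  have := Real.cos_le_one (τ * Real.log t + φ)
  have h0 := Real.rpow_nonneg ht (-σ)
  nlinarith

lemma hasDerivAt_hf (σ τ φ t : ℝ) (ht : 0 < t) :
    HasDerivAt (hf σ τ φ) (-(t ^ (-σ - 1) * (σ * (1 + Real.cos (τ * Real.log t + φ))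
      + τ * Real.sin (τ * Real.log t + φ)))) t := by
  unfold hf
  have h1 : HasDerivAt (fun t : ℝ => t ^ (-σ)) (-σ * t ^ (-σ - 1)) t :=
    Real.hasDerivAt_rpow_const (Or.inl ht.ne')
  have h2 : HasDerivAt (fun t : ℝ => τ * Real.log t + φ) (τ * t⁻¹) t :=
    ((Real.hasDerivAt_log ht.ne').const_mul τ).add_const φ
  have h3 := (h2.cos.const_add 1)
  have h4 := h1.mul h3
  refine h4.congr_deriv ?_
  have h5 : t ^ (-σ) = t ^ (-σ - 1) * t := by
    rw [Real.rpow_sub_one ht.ne']; field_simp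
  rw [h5]
  field_simp
  ring

lemma hf_diff (σ τ φ : ℝ) (hσ : 0 ≤ σ) (hσ1 : σ ≤ 1) (hτ : 0 ≤ τ) (hτ1 : τ ≤ 1) (n : ℕ)
    (hn : 1 ≤ n) :
    -τ * (n : ℝ) ^ (-σ - 1) ≤ hf σ τ φ n - hf σ τ φ ((n + 1 : ℕ) : ℝ) ∧
      hf σ τ φ n - hf σ τ φ ((n + 1 : ℕ) : ℝ) ≤ 3 * (n : ℝ) ^ (-σ - 1) := by
  have hn0 : (0 : ℝ) < n := by exact_mod_cast hn
  have hlt : (n : ℝ) < ((n + 1 : ℕ) : ℝ) := by push_cast; linarith
  obtain ⟨ξ, hξ, hξ'⟩ := exists_hasDerivAt_eq_slope (hf σ τ φ)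
    (fun t => -(t ^ (-σ - 1) * (σ * (1 + Real.cos (τ * Real.log t + φ))
      + τ * Real.sin (τ * Real.log t + φ)))) hlt
    (fun t ht => (hasDerivAt_hf σ τ φ t (hn0.trans_le ht.1)).continuousAt.continuousWithinAt)
    (fun t ht => hasDerivAt_hf σ τ φ t (hn0.trans ht.1))
  have e1 : ((n + 1 : ℕ) : ℝ) - n = 1 := by push_cast; ring
  rw [e1, div_one] at hξ'
  have e2 : hf σ τ φ n - hf σ τ φ ((n + 1 : ℕ) : ℝ)
      = ξ ^ (-σ - 1) * (σ * (1 + Real.cos (τ * Real.log ξ + φ))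
      + τ * Real.sin (τ * Real.log ξ + φ)) := by
    linarith
  rw [e2]
  have hξ0 : 0 < ξ := hn0.trans hξ.1
  have p0 : 0 < ξ ^ (-σ - 1) := Real.rpow_pos_of_pos hξ0 _
  have p1 : ξ ^ (-σ - 1) ≤ (n : ℝ) ^ (-σ - 1) :=
    Real.rpow_le_rpow_of_nonpos hn0 hξ.1.le (by linarith)
  have c1 := Real.cos_le_one (τ * Real.log ξ + φ)
  have c2 := Real.neg_one_le_cos (τ * Real.log ξ + φ)
  have s1 := Real.sin_le_one (τ * Real.log ξ + φ)
  have s2 := Real.neg_one_le_sin (τ * Real.log ξ + φ)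
  have b1 : -τ ≤ σ * (1 + Real.cos (τ * Real.log ξ + φ)) + τ * Real.sin (τ * Real.log ξ + φ) := by
    nlinarith [mul_nonneg hσ (by linarith : 0 ≤ 1 + Real.cos (τ * Real.log ξ + φ)),
      mul_nonneg hτ (by linarith : 0 ≤ 1 + Real.sin (τ * Real.log ξ + φ))]
  have b2 : σ * (1 + Real.cos (τ * Real.log ξ + φ)) + τ * Real.sin (τ * Real.log ξ + φ) ≤ 3 := by
    nlinarith [mul_nonneg hσ (by linarith : 0 ≤ 1 - Real.cos (τ * Real.log ξ + φ)),
      mul_nonneg hτ (by linarith : 0 ≤ 1 - Real.sin (τ * Real.log ξ + φ))]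
  constructor
  · calc -τ * (n : ℝ) ^ (-σ - 1) ≤ -τ * ξ ^ (-σ - 1) :=
        mul_le_mul_of_nonpos_left p1 (by linarith)
      _ = ξ ^ (-σ - 1) * (-τ) := by ring
      _ ≤ _ := mul_le_mul_of_nonneg_left b1 p0.le
  · calc _ ≤ ξ ^ (-σ - 1) * 3 := mul_le_mul_of_nonneg_left b2 p0.le
      _ ≤ (n : ℝ) ^ (-σ - 1) * 3 := by gcongr
      _ = _ := by ring

/-! ### sifted sets -/

lemma mem_prs (P : Set ℕ) (z p : ℕ) : p ∈ prs P z ↔ (1 ≤ p ∧ p ≤ z) ∧ p.Prime ∧ p ∈ P := by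
  simp [prs]

lemma mem_prs_univ (z p : ℕ) : p ∈ prs Set.univ z ↔ p.Prime ∧ p ≤ z := by
  rw [mem_prs]
  constructor
  · rintro ⟨⟨_, h⟩, h2, _⟩; exact ⟨h2, h⟩
  · rintro ⟨h1, h2⟩; exact ⟨⟨h1.one_lt.le, h2⟩, h1, trivial⟩

lemma sifted_iff (z m : ℕ) :
    Sifted Set.univ (fun _ => 0) z (m : ℤ) ↔ m.Coprime (primorial z) := by
  unfold Sifted primorial
  rw [Nat.coprime_prod_right_iff]
  constructor
  · intro h p hp
    rw [Finset.mem_filter, Finset.mem_range] at hp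
    have h1 := h p ((mem_prs_univ z p).2 ⟨hp.2, by omega⟩)
    rw [Nat.coprime_comm, Nat.Prime.coprime_iff_not_dvd hp.2]
    intro hd
    exact h1 ((Int.modEq_zero_iff_dvd).2 (by exact_mod_cast hd))
  · intro h p hp hd
    rw [mem_prs_univ] at hp
    have h1 := h p (by rw [Finset.mem_filter, Finset.mem_range]; exact ⟨by omega, hp.1⟩)
    rw [Nat.coprime_comm, Nat.Prime.coprime_iff_not_dvd hp.1] at h1
    exact h1 (by exact_mod_cast (Int.modEq_zero_iff_dvd).1 hd)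

lemma S_eq (P : Set ℕ) (r : ℕ → ℤ) (z : ℕ) (a : ℤ) (H : ℕ) [DecidablePred (Sifted P r z)] :
    S P r z a H = ((Finset.Ioc a (a + H)).filter (Sifted P r z)).card := by
  unfold S
  congr

lemma S_add (P : Set ℕ) (r : ℕ → ℤ) (z : ℕ) (a : ℤ) (H K : ℕ) :
    S P r z a (H + K) = S P r z a H + S P r z (a + H) K := by
  classical
  rw [S_eq, S_eq, S_eq, ← Finset.card_union_of_disjoint]
  · congr 1
    rw [← Finset.filter_union]
    congr 1
    rw [Finset.Ioc_union_Ioc_eq_Ioc (by omega) (by omega)]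
    congr 1
    push_cast; ring
  · refine Finset.disjoint_filter_filter ?_
    rw [Finset.disjoint_left]
    intro x hx hx'
    rw [Finset.mem_Ioc] at hx hx'
    omega

lemma S_zero_right (P : Set ℕ) (r : ℕ → ℤ) (z : ℕ) (a : ℤ) : S P r z a 0 = 0 := by
  classical
  rw [S_eq]; simp

lemma S_mono (P : Set ℕ) (r : ℕ → ℤ) (z' z : ℕ) (h : z' ≤ z) (a : ℤ) (H : ℕ) :
    S P r z a H ≤ S P r z' a H := by
  classical
  rw [S_eq, S_eq]
  apply Finset.card_le_card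
  intro n hn
  rw [Finset.mem_filter] at hn ⊢
  refine ⟨hn.1, fun p hp => hn.2 p ?_⟩
  rw [mem_prs] at hp ⊢
  exact ⟨⟨hp.1.1, hp.1.2.trans h⟩, hp.2⟩

lemma S_sum (z n : ℕ) :
    (S Set.univ (fun _ => 0) z 0 n : ℝ)
      = ∑ m ∈ Icc 1 n, if m.Coprime (primorial z) then (1 : ℝ) else 0 := by
  classical
  induction n with
  | zero => rw [S_zero_right]; simp
  | succ n ih =>
    rw [S_add, Finset.sum_Icc_succ_top (by omega)]
    push_cast
    rw [ih]
    congr 1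
    rw [S_eq]
    have h1 : Finset.Ioc (0 + (n : ℤ)) (0 + (n : ℤ) + ((1 : ℕ) : ℤ)) = {((n + 1 : ℕ) : ℤ)} := by
      ext x
      rw [Finset.mem_Ioc, Finset.mem_singleton]
      push_cast
      omega
    rw [h1, Finset.filter_singleton]
    have h2 := sifted_iff z (n + 1)
    by_cases h : (n + 1).Coprime (primorial z)
    · rw [if_pos h, if_pos (h2.2 h)]; simp
    · rw [if_neg h, if_neg (fun h' => h (h2.1 h'))]; simp

lemma sum_cc (z n : ℕ) :
    ∑ m ∈ Icc 1 n, cc z m = (S Set.univ (fun _ => 0) z 0 n : ℝ) - V Set.univ z * n := by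
  unfold cc
  rw [Finset.sum_sub_distrib, S_sum]
  simp [mul_comm]

lemma V_pos (P : Set ℕ) (z : ℕ) : 0 < V P z := by
  unfold V
  apply Finset.prod_pos
  intro p hp
  rw [mem_prs] at hp
  have h1 : (1 : ℝ) < p := by exact_mod_cast hp.2.1.one_lt
  have : 1 / (p : ℝ) < 1 := by rw [div_lt_one (by linarith)]; exact h1
  linarith

/-- lower bound for `S` from the lower bound in blocks -/
lemma block (z H : ℕ) (hH : 1 ≤ H) (κ : ℝ) (hκ : 0 ≤ κ)
    (hb : ∀ a : ℕ, (1 - κ) * (V Set.univ z * H) ≤ (S Set.univ (fun _ => 0) z a H : ℝ)) (n : ℕ) :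
    (1 - κ) * (V Set.univ z * n) - V Set.univ z * H ≤ (S Set.univ (fun _ => 0) z 0 n : ℝ) := by
  have hV := V_pos Set.univ z
  have hH0 : (0 : ℝ) < H := by exact_mod_cast hH
  have key : ∀ q : ℕ, (q : ℝ) * ((1 - κ) * (V Set.univ z * H))
      ≤ (S Set.univ (fun _ => 0) z 0 (q * H) : ℝ) := by
    intro q
    induction q with
    | zero => simp
    | succ q ih =>
      have e : (q + 1) * H = q * H + H := by ring
      rw [e, S_add]
      have h1 := hb (q * H)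
      push_cast at h1 ⊢
      rw [zero_add]
      nlinarith
  have h1 := key (n / H)
  have h2 : S Set.univ (fun _ => 0) z 0 ((n / H) * H) ≤ S Set.univ (fun _ => 0) z 0 n := by
    have e : n = (n / H) * H + n % H := by
      have := Nat.div_add_mod n H
      rw [mul_comm] at this; omega
    conv_rhs => rw [e]
    rw [S_add]; omega
  have h3 : (S Set.univ (fun _ => 0) z 0 ((n / H) * H) : ℝ) ≤ S Set.univ (fun _ => 0) z 0 n := by
    exact_mod_cast h2
  have h4 : (n : ℝ) ≤ ((n / H : ℕ) : ℝ) * H + H := by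
    have : n ≤ n / H * H + H := by
      have e := Nat.div_add_mod n H
      have e2 := Nat.mod_lt n hH
      rw [mul_comm] at e; omega
    exact_mod_cast this
  have h5 : ((n / H : ℕ) : ℝ) * H ≤ n := by
    exact_mod_cast Nat.div_mul_le_self n H
  rcases le_or_gt κ 1 with hκ1 | hκ1
  · have h6 : (1 - κ) * (V Set.univ z * n) ≤ (1 - κ) * (V Set.univ z * (((n / H : ℕ) : ℝ) * H + H)) := by
      apply mul_le_mul_of_nonneg_left _ (by linarith)
      apply mul_le_mul_of_nonneg_left h4 hV.le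
    have h7 : (1 - κ) * (V Set.univ z * (((n / H : ℕ) : ℝ) * H + H))
        = ((n / H : ℕ) : ℝ) * ((1 - κ) * (V Set.univ z * H)) + (1 - κ) * (V Set.univ z * H) := by
      ring
    have h8 : 0 ≤ κ * (V Set.univ z * H) := by positivity
    nlinarith
  · have h6 : (1 - κ) * (V Set.univ z * n) ≤ 0 := by
      have : 0 ≤ V Set.univ z * n := by positivity
      nlinarith
    have h7 : (0 : ℝ) ≤ S Set.univ (fun _ => 0) z 0 n := Nat.cast_nonneg _
    have h8 : 0 < V Set.univ z * H := by positivity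
    linarith

end Pool.Agent.H67.GT.DEF
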