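import Mathlib
import Pool.Agent.H67.GT.DEF1

/-!
# Analytic lemmas for the module `DEF` (helper60)
-/

set_option autoImplicit false

namespace Pool.Agent.H67.GT.DEF

open Finset

/-- Upper bound for the number of rough numbers in `[1, n]`. -/
lemma upper (M : Mert) (F : FL) : ∃ C4 : ℝ, 1 ≤ C4 ∧ ∃ L0 : ℝ, ∀ z : ℕ, 2 ≤ z →
    L0 ≤ Real.log z → ∀ n : ℕ, 2 * Real.log z ≤ Real.log n →
      (S Set.univ (fun _ => 0) z 0 n : ℝ) - V Set.univ z * n ≤ C4 * (V Set.univ z * n) := by
  obtain ⟨c, hc, -, -, hV, -, -⟩ := M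
  obtain ⟨ub, zb, hub, hzb, hF⟩ := F 1 le_rfl
  refine ⟨2 * c * ub, by nlinarith, ub * Real.log zb + ub, ?_⟩
  intro z hz hL n hn
  have hub0 : 0 < ub := by linarith
  have hzb0 : (0 : ℝ) < zb := by exact_mod_cast (by omega : 0 < zb)
  have hz0 : (0 : ℝ) < z := by exact_mod_cast (by omega : 0 < z)
  have hlzb : 0 ≤ Real.log zb := Real.log_natCast_nonneg zb
  have hLb : Real.log zb ≤ Real.log z := by nlinarith
  have hzbz : zb ≤ z := by
    exact_mod_cast (Real.log_le_log_iff hzb0 hz0).1 hLb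
  have hL1 : ub ≤ Real.log z := by nlinarith
  have hL0 : 0 < Real.log z := by linarith
  have hVp := V_pos Set.univ z
  have hn0 : (0 : ℝ) < n := by
    by_contra h
    have : (n : ℝ) = 0 := le_antisymm (not_lt.1 h) (Nat.cast_nonneg n)
    rw [this, Real.log_zero] at hn
    linarith
  have hVn : 0 ≤ V Set.univ z * n := by positivity
  have hcu : 1 ≤ c * ub := by nlinarith
  rcases le_or_gt (ub * Real.log z) (Real.log n) with h1 | h1
  · have h2 := hF Set.univ (fun _ => 0) z 0 n hzbz h1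
    have h3 : Real.exp (-1 * (Real.log n / Real.log z - ub)) ≤ 1 := by
      rw [Real.exp_le_one_iff]
      have : ub ≤ Real.log n / Real.log z := by rw [le_div_iff₀ hL0]; exact h1
      linarith
    have h4 := (abs_le.1 h2).2
    have h5 : Real.exp (-1 * (Real.log n / Real.log z - ub)) * (V Set.univ z * n)
        ≤ 1 * (V Set.univ z * n) := mul_le_mul_of_nonneg_right h3 hVn
    have h6 : 1 * (V Set.univ z * n) ≤ 2 * c * ub * (V Set.univ z * n) :=
      mul_le_mul_of_nonneg_right (by linarith) hVn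
    linarith
  · set y : ℝ := Real.exp (Real.log n / ub) with hy
    set z' : ℕ := ⌊y⌋₊ with hz'
    have hy0 : 0 < y := Real.exp_pos _
    have hyz : y < z := by
      rw [hy, ← Real.exp_log hz0]
      apply Real.exp_lt_exp.2
      rw [div_lt_iff₀ hub0]; linarith
    have hLub : 1 ≤ Real.log z / ub := by rw [le_div_iff₀ hub0]; linarith
    have hln : 2 * (Real.log z / ub) ≤ Real.log n / ub := by
      rw [← mul_div_assoc]
      exact div_le_div_of_nonneg_right hn hub0.le
    have hy2 : 2 ≤ y := by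
      have := Real.add_one_le_exp (Real.log n / ub)
      rw [hy]; linarith
    have hz'y : (z' : ℝ) ≤ y := Nat.floor_le hy0.le
    have hyz' : y < z' + 1 := Nat.lt_floor_add_one y
    have hz'2 : 2 ≤ z' := Nat.le_floor (by exact_mod_cast hy2)
    have hz'0 : (0 : ℝ) < z' := by exact_mod_cast (by omega : 0 < z')
    have hz'z : z' ≤ z := by
      have : (z' : ℝ) ≤ z := by linarith
      exact_mod_cast this
    have hlz' : Real.log z' ≤ Real.log n / ub := by
      have := Real.log_le_log hz'0 hz'y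
      rwa [hy, Real.log_exp] at this
    have hlz'2 : Real.log z / ub ≤ Real.log z' := by
      have h5 : y / 2 ≤ z' := by linarith
      have h6 := Real.log_le_log (by linarith : 0 < y / 2) h5
      rw [Real.log_div hy0.ne' (by norm_num), hy, Real.log_exp] at h6
      have := Real.log_two_lt_d9
      linarith
    have hzbz' : zb ≤ z' := by
      have : Real.log zb ≤ Real.log z' := by
        refine le_trans ?_ hlz'2
        rw [le_div_iff₀ hub0]
        linarith [mul_comm ub (Real.log zb)]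
      exact_mod_cast (Real.log_le_log_iff hzb0 hz'0).1 this
    have hlz'0 : 0 < Real.log z' := by linarith
    have h2 := hF Set.univ (fun _ => 0) z' 0 n hzbz' (by
      rw [le_div_iff₀ hub0] at hlz'; linarith [mul_comm ub (Real.log z')])
    have h3 : Real.exp (-1 * (Real.log n / Real.log z' - ub)) ≤ 1 := by
      rw [Real.exp_le_one_iff]
      have : ub ≤ Real.log n / Real.log z' := by
        rw [le_div_iff₀ hlz'0]
        rw [le_div_iff₀ hub0] at hlz'; linarith [mul_comm ub (Real.log z')]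
      linarith
    have hVp' := V_pos Set.univ z'
    have h5 : Real.exp (-1 * (Real.log n / Real.log z' - ub)) * (V Set.univ z' * n)
        ≤ 1 * (V Set.univ z' * n) := mul_le_mul_of_nonneg_right h3 (by positivity)
    have h4 := (abs_le.1 h2).2
    have h6 := S_mono Set.univ (fun _ => 0) z' z hz'z 0 n
    have h6' : (S Set.univ (fun _ => 0) z 0 n : ℝ) ≤ S Set.univ (fun _ => 0) z' 0 n := by
      exact_mod_cast h6
    have h7 := hV Set.univ z' z hz'2 hz'z
    have h8 : Real.log z / Real.log z' ≤ ub := by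
      rw [div_le_iff₀ hlz'0]
      rw [div_le_iff₀ hub0] at hlz'2
      linarith [mul_comm ub (Real.log z')]
    have h9 : V Set.univ z' ≤ c * ub * V Set.univ z := by
      refine h7.trans ?_
      apply mul_le_mul_of_nonneg_right _ hVp.le
      exact mul_le_mul_of_nonneg_left h8 (by linarith)
    have h10 : V Set.univ z' * n ≤ c * ub * V Set.univ z * n :=
      mul_le_mul_of_nonneg_right h9 hn0.le
    nlinarith

/-- existence of the parameter `x` -/
lemma exists_x (u1 : ℝ) (hu : 2 ≤ u1) : ∃ x : ℝ, 1 ≤ x ∧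
    1 / x + 4 * Real.exp (x * u1) / x + 5 <
      (Real.exp (0.14 * Real.exp (3 * x / 4) - x * Real.exp (x / 2) - 6) - 1)
        / (2 * (x + Real.pi)) := by
  set x : ℝ := 230 * (u1 + 14) with hx
  have hx1 : 1 ≤ x := by rw [hx]; linarith
  have hx0 : 0 < x := by linarith
  refine ⟨x, hx1, ?_⟩
  -- exponent bound
  have e1 : x ^ 2 / 32 ≤ Real.exp (x / 4) := by
    have := Real.quadratic_le_exp_of_nonneg (by linarith : 0 ≤ x / 4)
    nlinarith
  have e2 : (u1 + 2) * x + 12 ≤ 0.14 * Real.exp (x / 4) := by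
    have h1 : (u1 + 2) * x + 12 ≤ (u1 + 14) * x := by nlinarith
    have h2 : (u1 + 14) = x / 230 := by rw [hx]; ring
    rw [h2] at h1
    nlinarith
  have e3 : Real.exp (3 * x / 4) = Real.exp (x / 2) * Real.exp (x / 4) := by
    rw [← Real.exp_add]; congr 1; ring
  have e4 : 1 ≤ Real.exp (x / 2) := Real.one_le_exp (by linarith)
  have e5 : (u1 + 1) * x + 6 ≤ 0.14 * Real.exp (3 * x / 4) - x * Real.exp (x / 2) - 6 := by
    rw [e3]
    have h1 : Real.exp (x / 2) * ((u1 + 2) * x + 12) ≤ Real.exp (x / 2) * (0.14 * Real.exp (x / 4)) :=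
      mul_le_mul_of_nonneg_left e2 (by linarith)
    have h2 : (u1 + 1) * x + 12 ≤ Real.exp (x / 2) * ((u1 + 1) * x + 12) := by
      have : 0 ≤ (u1 + 1) * x + 12 := by nlinarith
      nlinarith
    nlinarith
  have e6 : Real.exp ((u1 + 1) * x + 6)
      ≤ Real.exp (0.14 * Real.exp (3 * x / 4) - x * Real.exp (x / 2) - 6) :=
    Real.exp_le_exp.2 e5
  have e7 : Real.exp ((u1 + 1) * x + 6) = Real.exp (x * u1) * Real.exp x * Real.exp 6 := by
    rw [← Real.exp_add, ← Real.exp_add]; congr 1; ring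
  have e8 : x + 1 ≤ Real.exp x := Real.add_one_le_exp x
  have e9 : (400 : ℝ) ≤ Real.exp 6 := by
    have h1 : (2.718 : ℝ) ≤ Real.exp 1 := by have := Real.exp_one_gt_d9; linarith
    have h2 : Real.exp 6 = Real.exp 1 ^ 6 := by rw [← Real.exp_nat_mul]; norm_num
    rw [h2]
    calc (400 : ℝ) ≤ 2.718 ^ 6 := by norm_num
      _ ≤ _ := pow_le_pow_left₀ (by norm_num) h1 6
  have e10 : 400 * (x * Real.exp (x * u1)) ≤ Real.exp ((u1 + 1) * x + 6) := by
    rw [e7]
    have hE : 0 < Real.exp (x * u1) := Real.exp_pos _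
    have h1 : x * 400 ≤ Real.exp x * Real.exp 6 := by
      apply mul_le_mul (by linarith) e9 (by norm_num) (Real.exp_pos _).le
    calc 400 * (x * Real.exp (x * u1)) = Real.exp (x * u1) * (x * 400) := by ring
      _ ≤ Real.exp (x * u1) * (Real.exp x * Real.exp 6) := by gcongr
      _ = _ := by ring
  have hE1 : 1 ≤ Real.exp (x * u1) := Real.one_le_exp (by nlinarith)
  have hpi := Real.pi_lt_four
  have hpi0 := Real.pi_pos
  have hden : 2 * (x + Real.pi) ≤ 10 * x := by linarith
  have hden0 : 0 < 2 * (x + Real.pi) := by positivity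
  rw [lt_div_iff₀ hden0]
  have hl : 1 / x + 4 * Real.exp (x * u1) / x + 5 ≤ 10 * Real.exp (x * u1) := by
    have h1 : 1 / x ≤ 1 := by rw [div_le_one hx0]; exact hx1
    have h2 : 4 * Real.exp (x * u1) / x ≤ 4 * Real.exp (x * u1) := by
      rw [div_le_iff₀ hx0]; nlinarith
    linarith
  have hl0 : 0 ≤ 1 / x + 4 * Real.exp (x * u1) / x + 5 := by positivity
  calc (1 / x + 4 * Real.exp (x * u1) / x + 5) * (2 * (x + Real.pi))
      ≤ (10 * Real.exp (x * u1)) * (10 * x) := by
        apply mul_le_mul hl hden hden0.le (by positivity)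
    _ < 400 * (x * Real.exp (x * u1)) - 1 := by nlinarith
    _ ≤ _ := by linarith

/-- The sums of the test function in terms of the Dirichlet series. -/
lemma hf_eq (σ τ φ : ℝ) (n : ℕ) (hn : 1 ≤ n) (a : ℝ) :
    a * hf σ τ φ n = ((a : ℂ) * (n : ℂ) ^ (-(σ : ℂ))).re
      + (Complex.exp (φ * Complex.I) * ((a : ℂ) * (n : ℂ) ^ (-((σ : ℂ) - τ * Complex.I)))).re := by
  have hn0 : (0 : ℝ) < n := by exact_mod_cast hn
  have hnc : (n : ℂ) ≠ 0 := by exact_mod_cast hn0.ne'
  have h1 : (n : ℂ) ^ (-(σ : ℂ)) = (((n : ℝ) ^ (-σ) : ℝ) : ℂ) := by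
    rw [Complex.ofReal_cpow hn0.le]; push_cast; rfl
  have h2 : (n : ℂ) ^ (-((σ : ℂ) - τ * Complex.I))
      = (((n : ℝ) ^ (-σ) : ℝ) : ℂ) * Complex.exp (((τ * Real.log n : ℝ) : ℂ) * Complex.I) := by
    rw [← h1, Complex.cpow_def_of_ne_zero hnc, Complex.cpow_def_of_ne_zero hnc, ← Complex.exp_add,
      ← Complex.natCast_log]
    congr 1
    push_cast
    ring
  rw [h1, h2]
  have h3 : Complex.exp (φ * Complex.I) * ((a : ℂ) * ((((n : ℝ) ^ (-σ) : ℝ) : ℂ)
      * Complex.exp (((τ * Real.log n : ℝ) : ℂ) * Complex.I)))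
      = ((a * (n : ℝ) ^ (-σ) : ℝ) : ℂ)
        * Complex.exp (((τ * Real.log n + φ : ℝ) : ℂ) * Complex.I) := by
    have : Complex.exp (((τ * Real.log n + φ : ℝ) : ℂ) * Complex.I)
        = Complex.exp (φ * Complex.I)
          * Complex.exp (((τ * Real.log n : ℝ) : ℂ) * Complex.I) := by
      rw [← Complex.exp_add]; congr 1; push_cast; ring
    rw [this]; push_cast; ring
  rw [h3, ← Complex.ofReal_mul, Complex.ofReal_re, Complex.re_ofReal_mul,
    Complex.exp_ofReal_mul_I_re]
  unfold hf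
  ring

lemma tendsto_hf (σ τ φ : ℝ) (c : ℕ → ℝ) (d1 d2 : ℂ)
    (h1 : Filter.Tendsto (fun X : ℕ => ∑ n ∈ Icc 1 X, (c n : ℂ) * (n : ℂ) ^ (-(σ : ℂ)))
      Filter.atTop (nhds d1))
    (h2 : Filter.Tendsto (fun X : ℕ => ∑ n ∈ Icc 1 X,
      (c n : ℂ) * (n : ℂ) ^ (-((σ : ℂ) - τ * Complex.I))) Filter.atTop (nhds d2)) :
    Filter.Tendsto (fun X : ℕ => ∑ n ∈ Icc 1 X, c n * hf σ τ φ n)
      Filter.atTop (nhds (d1.re + (Complex.exp (φ * Complex.I) * d2).re)) := by
  have e1 := (Complex.continuous_re.tendsto d1).comp h1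
  have e2 := (Complex.continuous_re.tendsto _).comp (h2.const_mul (Complex.exp (φ * Complex.I)))
  refine (e1.add e2).congr fun X => ?_
  simp only [Function.comp]
  rw [Complex.re_sum, Finset.mul_sum, Complex.re_sum, ← Finset.sum_add_distrib]
  refine Finset.sum_congr rfl fun n hn => ?_
  rw [Finset.mem_Icc] at hn
  exact (hf_eq σ τ φ n hn.1 (c n)).symm

/-- choice of the phase -/
lemma exists_phase (d : ℂ) : ∃ φ : ℝ, (Complex.exp (φ * Complex.I) * d).re = -‖d‖ := by
  refine ⟨Real.pi - d.arg, ?_⟩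
  have h1 : d = ‖d‖ * Complex.exp (d.arg * Complex.I) := (Complex.norm_mul_exp_arg_mul_I d).symm
  have h2 : Complex.exp (((Real.pi - d.arg : ℝ) : ℂ) * Complex.I) * d = ((-‖d‖ : ℝ) : ℂ) := by
    refine (congrArg (fun w => Complex.exp (((Real.pi - d.arg : ℝ) : ℂ) * Complex.I) * w) h1).trans ?_
    have : Complex.exp (((Real.pi - d.arg : ℝ) : ℂ) * Complex.I)
        * (‖d‖ * Complex.exp (d.arg * Complex.I))
        = ‖d‖ * (Complex.exp (((Real.pi - d.arg : ℝ) : ℂ) * Complex.I)
          * Complex.exp (d.arg * Complex.I)) := by ring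
    rw [this, ← Complex.exp_add]
    have e : ((Real.pi - d.arg : ℝ) : ℂ) * Complex.I + d.arg * Complex.I
        = Real.pi * Complex.I := by push_cast; ring
    rw [e, Complex.exp_pi_mul_I]
    push_cast; ring
  rw [h2, Complex.ofReal_re]

end Pool.Agent.H67.GT.DEF
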