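import Mathlib
import Pool.Agent.H67.GT.DEF2

/-!
# The lower bound for the smoothed sum (helper60)
-/

set_option autoImplicit false

namespace Pool.Agent.H67.GT.DEF

open Finset

lemma core (z H : ℕ) (L x u1 uA v κ C4 W φ : ℝ)
    (hL : L = Real.log z) (hW : W = V Set.univ z) (hx : 1 ≤ x) (hu1 : 2 ≤ u1)
    (huA : 1 ≤ uA) (hv : v = (x + 1) * uA + uA + u1 + 4)
    (hκ : κ = Real.exp (-(x * v)) / 6) (hC4 : 1 ≤ C4)
    (hH : (H : ℝ) ≤ Real.exp ((u1 - 1) * L))
    (hL1 : 4 * x ≤ L) (hL2 : 4 * C4 * Real.exp (x * u1) ≤ L)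
    (hL3 : (3 + 4 * C4) * Real.exp (x * v) ≤ L) (hL4 : 2 * Real.exp ((x + 1) * uA) ≤ L)
    (hA : ∀ n : ℕ, uA * L ≤ Real.log n →
      |∑ m ∈ Icc 1 n, cc z m| ≤ Real.exp (-(x + 1) * (Real.log n / L - uA)) * (W * n))
    (hB : ∀ n : ℕ, 2 * L ≤ Real.log n → ∑ m ∈ Icc 1 n, cc z m ≤ C4 * (W * n))
    (hlow : ∀ n : ℕ, -(κ * W * n) - W * H ≤ ∑ m ∈ Icc 1 n, cc z m)
    (X : ℕ) (hX : ⌊Real.exp (v * L)⌋₊ ≤ X) :
    -(W * L * (4 * Real.exp (x * u1) / x + 5))
      ≤ ∑ n ∈ Icc 1 X, cc z n * hf (1 - x / L) (Real.pi / L) φ n := by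
  have hx0 : 0 < x := by linarith
  have hL0 : 0 < L := by linarith
  have hL4' : 4 ≤ L := by linarith
  have hW0 : 0 < W := by rw [hW]; exact V_pos _ _
  have hpi := Real.pi_lt_four
  have hpi0 := Real.pi_pos
  set σ : ℝ := 1 - x / L with hσ
  set τ : ℝ := Real.pi / L with hτ
  set t : ℝ := x / L with ht
  have ht0 : 0 < t := div_pos hx0 hL0
  have ht4 : t ≤ 1 / 4 := by rw [ht, div_le_iff₀ hL0]; linarith
  have hσ0 : 0 ≤ σ := by rw [hσ]; linarith
  have hσ1 : σ ≤ 1 := by rw [hσ]; linarith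
  have hτ0 : 0 ≤ τ := by rw [hτ]; positivity
  have hτ1 : τ ≤ 1 := by rw [hτ, div_le_one hL0]; linarith
  have hz1 : (1 : ℝ) < z := by
    by_contra h
    have : Real.log z ≤ 0 := Real.log_nonpos (Nat.cast_nonneg z) (not_lt.1 h)
    linarith
  set h : ℕ → ℝ := fun n => hf σ τ φ n with hh
  set Am : ℕ → ℝ := fun n => ∑ m ∈ Icc 1 n, cc z m with hAm
  have h_nn : ∀ n : ℕ, 0 ≤ h n := fun n => hf_nonneg σ τ φ n (Nat.cast_nonneg n)
  have h_le : ∀ n : ℕ, h n ≤ 2 * (n : ℝ) ^ (t - 1) := by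
    intro n
    have := hf_le σ τ φ n (Nat.cast_nonneg n)
    have e : -σ = t - 1 := by rw [hσ]; ring
    rwa [e] at this
  -- the cut points
  set N1 : ℕ := ⌈Real.exp (u1 * L)⌉₊ with hN1
  set N2 : ℕ := ⌊Real.exp (v * L)⌋₊ with hN2
  have hN1a : Real.exp (u1 * L) ≤ N1 := Nat.le_ceil _
  have hu0 : 0 < u1 := by linarith
  have hu1L : 2 * L ≤ u1 * L := mul_le_mul_of_nonneg_right hu1 hL0.le
  have hE1 : 1 ≤ Real.exp (u1 * L) := Real.one_le_exp (by positivity)
  have hN1b : (N1 : ℝ) ≤ 2 * Real.exp (u1 * L) := by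
    have := (Nat.ceil_lt_add_one (Real.exp_pos (u1 * L)).le).le
    linarith
  have hN1r : (1 : ℝ) ≤ N1 := hE1.trans hN1a
  have hN1_1 : 1 ≤ N1 := by exact_mod_cast hN1r
  have hN1_0 : (0 : ℝ) < N1 := by linarith
  have hxuA : 0 ≤ (x + 1) * uA := by positivity
  have hvu : u1 + 1 ≤ v := by rw [hv]; linarith
  have hvA : uA ≤ v := by rw [hv]; linarith
  have hvuL : (u1 + 1) * L ≤ v * L := mul_le_mul_of_nonneg_right hvu hL0.le
  have hvAL : uA * L ≤ v * L := mul_le_mul_of_nonneg_right hvA hL0.le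
  have hN12r : (N1 : ℝ) ≤ Real.exp (v * L) := by
    refine hN1b.trans ?_
    have e1 : Real.exp (L + u1 * L) ≤ Real.exp (v * L) := Real.exp_le_exp.2 (by linarith)
    rw [Real.exp_add] at e1
    have e2 : 2 ≤ Real.exp L := by have := Real.add_one_le_exp L; linarith
    exact (mul_le_mul_of_nonneg_right e2 (Real.exp_pos _).le).trans e1
  have hN12 : N1 ≤ N2 := Nat.le_floor hN12r
  have hN2a : (N2 : ℝ) ≤ Real.exp (v * L) := Nat.floor_le (Real.exp_pos _).le
  have hN2b : Real.exp (v * L) < N2 + 1 := Nat.lt_floor_add_one _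
  have hN2_1 : 1 ≤ N2 := hN1_1.trans hN12
  have hN2_0 : (0 : ℝ) < N2 := by exact_mod_cast hN2_1
  have hlogN1 : ∀ n : ℕ, N1 ≤ n → u1 * L ≤ Real.log n := by
    intro n hn
    have h1 : Real.exp (u1 * L) ≤ n := hN1a.trans (by exact_mod_cast hn)
    rw [← Real.log_exp (u1 * L)]
    exact Real.log_le_log (Real.exp_pos _) h1
  have hlogN2 : ∀ n : ℕ, N2 < n → v * L ≤ Real.log n := by
    intro n hn
    have h1 : Real.exp (v * L) ≤ n := by
      have : ((N2 + 1 : ℕ) : ℝ) ≤ n := by exact_mod_cast hn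
      push_cast at this
      linarith
    rw [← Real.log_exp (v * L)]
    exact Real.log_le_log (Real.exp_pos _) h1
  -- powers
  have hN1t : (N1 : ℝ) ^ t ≤ 2 * Real.exp (x * u1) := by
    calc (N1 : ℝ) ^ t ≤ (2 * Real.exp (u1 * L)) ^ t :=
          Real.rpow_le_rpow hN1_0.le hN1b ht0.le
      _ = (2 : ℝ) ^ t * Real.exp (x * u1) := by
          rw [Real.mul_rpow (by norm_num) (Real.exp_pos _).le, ← Real.exp_mul]
          congr 2
          rw [ht]; field_simp
      _ ≤ 2 * Real.exp (x * u1) := by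
          gcongr
          calc (2 : ℝ) ^ t ≤ (2 : ℝ) ^ (1 : ℝ) :=
                Real.rpow_le_rpow_of_exponent_le (by norm_num) (by linarith)
            _ = 2 := Real.rpow_one 2
  have hN2t : (N2 : ℝ) ^ t ≤ Real.exp (x * v) := by
    calc (N2 : ℝ) ^ t ≤ (Real.exp (v * L)) ^ t :=
          Real.rpow_le_rpow hN2_0.le hN2a ht0.le
      _ = Real.exp (x * v) := by
          rw [← Real.exp_mul]
          congr 1
          rw [ht]; field_simp
  have hN2i : (N2 : ℝ) ^ (-(1 / L)) ≤ 2 * Real.exp (-v) := by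
    have e1 : Real.exp (v * L) / 2 ≤ N2 := by
      have : (1 : ℝ) ≤ N2 := by exact_mod_cast hN2_1
      linarith
    have e0 : 0 < Real.exp (v * L) / 2 := by positivity
    have hneg : -(1 / L) ≤ 0 := by
      have : 0 < 1 / L := by positivity
      linarith
    calc (N2 : ℝ) ^ (-(1 / L)) ≤ (Real.exp (v * L) / 2) ^ (-(1 / L)) :=
          Real.rpow_le_rpow_of_nonpos e0 e1 hneg
      _ = Real.exp (v * L) ^ (-(1 / L)) * (2 : ℝ) ^ (1 / L) := by
          have e2 : (2 : ℝ) ^ (-(1 / L)) = ((2 : ℝ) ^ (1 / L))⁻¹ := Real.rpow_neg (by norm_num) _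
          rw [Real.div_rpow (Real.exp_pos _).le (by norm_num), e2, div_inv_eq_mul]
      _ = Real.exp (-v) * (2 : ℝ) ^ (1 / L) := by
          rw [← Real.exp_mul]
          congr 2
          field_simp
      _ ≤ Real.exp (-v) * 2 := by
          gcongr
          calc (2 : ℝ) ^ (1 / L) ≤ (2 : ℝ) ^ (1 : ℝ) := by
                apply Real.rpow_le_rpow_of_exponent_le (by norm_num)
                rw [div_le_one hL0]; linarith
            _ = 2 := Real.rpow_one 2
      _ = _ := by ring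
  -- Abel summation
  have hab := abel (fun n => cc z n) h N2 X hX
  have hab1 := abel (fun n => cc z n) h N1 N2 hN12
  have hab' : ∑ n ∈ Icc 1 X, cc z n * h n = ∑ n ∈ Icc 1 N1, cc z n * h n
      + Am X * h (X + 1) - Am N1 * h (N1 + 1)
      + ∑ n ∈ Ioc N1 N2, Am n * (h n - h (n + 1))
      + ∑ n ∈ Ioc N2 X, Am n * (h n - h (n + 1)) := by
    rw [hab, hab1]; ring
  -- (P1)
  have hccV : ∀ n : ℕ, -W ≤ cc z n := by
    intro n
    unfold cc
    rw [← hW]
    split_ifs <;> linarith
  have P1 : -(2 * W * ((N1 : ℝ) ^ t / t)) ≤ ∑ n ∈ Icc 1 N1, cc z n * h n := by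
    have e1 := sum_rpow_le ht0 (by linarith : t ≤ 1) N1
    calc -(2 * W * ((N1 : ℝ) ^ t / t)) ≤ -(2 * W * ∑ n ∈ Icc 1 N1, (n : ℝ) ^ (t - 1)) := by
          have := mul_le_mul_of_nonneg_left e1 (by positivity : 0 ≤ 2 * W)
          linarith
      _ = ∑ n ∈ Icc 1 N1, -(2 * W * (n : ℝ) ^ (t - 1)) := by
          rw [Finset.sum_neg_distrib, Finset.mul_sum]
      _ ≤ _ := by
          refine Finset.sum_le_sum fun n _ => ?_
          have h1 := mul_le_mul_of_nonneg_right (hccV n) (h_nn n)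
          have h2 := mul_le_mul_of_nonneg_left (h_le n) hW0.le
          linarith
  -- (P2)
  have P2 : -(2 * C4 * W * (N1 : ℝ) ^ t) ≤ -(Am N1 * h (N1 + 1)) := by
    have e1 : Am N1 ≤ C4 * (W * N1) := hB N1 (by
      have := hlogN1 N1 le_rfl
      linarith)
    have e2 : h (N1 + 1) ≤ 2 * (N1 : ℝ) ^ (t - 1) := by
      refine (h_le (N1 + 1)).trans ?_
      have : (((N1 + 1 : ℕ) : ℝ)) ^ (t - 1) ≤ (N1 : ℝ) ^ (t - 1) := by
        apply Real.rpow_le_rpow_of_nonpos hN1_0 _ (by linarith)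
        push_cast; linarith
      linarith
    have e3 : Am N1 * h (N1 + 1) ≤ C4 * (W * N1) * (2 * (N1 : ℝ) ^ (t - 1)) := by
      calc Am N1 * h (N1 + 1) ≤ C4 * (W * N1) * h (N1 + 1) :=
            mul_le_mul_of_nonneg_right e1 (h_nn _)
        _ ≤ _ := mul_le_mul_of_nonneg_left e2 (by positivity)
    have e4 : C4 * (W * N1) * (2 * (N1 : ℝ) ^ (t - 1)) = 2 * C4 * W * (N1 : ℝ) ^ t := by
      rw [Real.rpow_sub_one hN1_0.ne']; field_simp
    linarith
  -- decay of the error
  have hdec : ∀ n : ℕ, N2 < n → |Am n| ≤ Real.exp ((x + 1) * uA) * W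
      * (n : ℝ) ^ (1 - (x + 1) / L) := by
    intro n hn
    have hn0 : (0 : ℝ) < n := by exact_mod_cast (by omega : 0 < n)
    have e1 := hA n (by
      have := hlogN2 n hn
      linarith)
    refine e1.trans (le_of_eq ?_)
    have e2 : Real.exp (-(x + 1) * (Real.log n / L - uA))
        = Real.exp ((x + 1) * uA) * (n : ℝ) ^ (-((x + 1) / L)) := by
      rw [Real.rpow_def_of_pos hn0, ← Real.exp_add]
      congr 1
      field_simp
      ring
    have e3 : (n : ℝ) ^ (1 - (x + 1) / L) = n * (n : ℝ) ^ (-((x + 1) / L)) := by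
      rw [sub_eq_add_neg, Real.rpow_add hn0, Real.rpow_one]
    rw [e2, e3]
    ring
  -- (P3)
  have P3 : -(2 * Real.exp ((x + 1) * uA) * W) ≤ Am X * h (X + 1) := by
    rcases hX.eq_or_lt with hXe | hXl
    · -- X = N2
      have hXe' : X = N2 := hXe.symm
      have hN2' : Real.log X / L ≥ 0 := div_nonneg (Real.log_natCast_nonneg X) hL0.le
      have e1 : -(κ * W * X) - W * H ≤ Am X := hlow X
      have hX0 : (0 : ℝ) < X := by rw [hXe']; exact hN2_0
      have e2 : h (X + 1) ≤ 2 * (X : ℝ) ^ (t - 1) := by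
        refine (h_le (X + 1)).trans ?_
        have : (((X + 1 : ℕ) : ℝ)) ^ (t - 1) ≤ (X : ℝ) ^ (t - 1) := by
          apply Real.rpow_le_rpow_of_nonpos hX0 _ (by linarith)
          push_cast; linarith
        linarith
      have e3 : (H : ℝ) ≤ X := by
        refine hH.trans (le_trans (Real.exp_le_exp.2 ?_) (hN1a.trans ?_))
        · linarith
        · rw [hXe']; exact_mod_cast hN12
      have hκ0 : 0 < κ := by rw [hκ]; positivity
      have hκ1 : κ * Real.exp (x * v) = 1 / 6 := by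
        rw [hκ, Real.exp_neg]; field_simp
      have e5 : -((κ * W * X) + W * H) * h (X + 1) ≤ Am X * h (X + 1) :=
        mul_le_mul_of_nonneg_right (by linarith) (h_nn _)
      have e6 : ((κ * W * X) + W * H) * h (X + 1)
          ≤ ((κ * W * X) + W * H) * (2 * (X : ℝ) ^ (t - 1)) :=
        mul_le_mul_of_nonneg_left e2 (by positivity)
      have e7 : ((κ * W * X) + W * H) * (2 * (X : ℝ) ^ (t - 1))
          = 2 * W * (κ * (X : ℝ) ^ t + H / X * (X : ℝ) ^ t) := by
        rw [Real.rpow_sub_one hX0.ne']; field_simp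
      have e8 : κ * (X : ℝ) ^ t ≤ 1 / 6 := by
        rw [← hκ1, hXe']
        exact mul_le_mul_of_nonneg_left hN2t hκ0.le
      have e9 : (H : ℝ) / X * (X : ℝ) ^ t ≤ 1 := by
        -- H X^(t-1) <= exp((u1-1)L) * X^{t-1}, X >= exp(u1 L)
        have f1 : Real.exp (u1 * L) ≤ X := by
          rw [hXe']; exact hN1a.trans (by exact_mod_cast hN12)
        have f2 : (X : ℝ) ^ (t - 1) ≤ (Real.exp (u1 * L)) ^ (t - 1) :=
          Real.rpow_le_rpow_of_nonpos (Real.exp_pos _) f1 (by linarith)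
        have f3 : (H : ℝ) / X * (X : ℝ) ^ t = H * (X : ℝ) ^ (t - 1) := by
          rw [Real.rpow_sub_one hX0.ne']; field_simp
        rw [f3]
        have f4 : (Real.exp (u1 * L)) ^ (t - 1) = Real.exp (x * u1) * Real.exp (-(u1 * L)) := by
          rw [← Real.exp_mul, ← Real.exp_add]
          congr 1
          rw [ht]; field_simp
          ring
        have f5 : Real.exp (x * u1) ≤ L := by
          have : 1 * Real.exp (x * u1) ≤ 4 * C4 * Real.exp (x * u1) :=
            mul_le_mul_of_nonneg_right (by linarith) (Real.exp_pos _).le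
          linarith
        have f6 : L ≤ Real.exp L := by have := Real.add_one_le_exp L; linarith
        calc (H : ℝ) * (X : ℝ) ^ (t - 1)
            ≤ Real.exp ((u1 - 1) * L) * (Real.exp (x * u1) * Real.exp (-(u1 * L))) := by
              rw [← f4]
              exact mul_le_mul hH f2 (Real.rpow_nonneg hX0.le _) (Real.exp_pos _).le
          _ = Real.exp (x * u1) * Real.exp (-L) := by
              have : Real.exp ((u1 - 1) * L) * Real.exp (-(u1 * L)) = Real.exp (-L) := by
                rw [← Real.exp_add]; congr 1; ring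
              rw [← this]; ring
          _ ≤ Real.exp L * Real.exp (-L) :=
              mul_le_mul_of_nonneg_right (f5.trans f6) (Real.exp_pos _).le
          _ = 1 := by rw [← Real.exp_add]; simp
      have hE : 1 ≤ Real.exp ((x + 1) * uA) := Real.one_le_exp (by positivity)
      have hE2 : (2 : ℝ) ≤ Real.exp ((x + 1) * uA) := by
        have := Real.add_one_le_exp ((x + 1) * uA)
        have h1 : 1 * 1 ≤ (x + 1) * uA := mul_le_mul (by linarith) huA (by norm_num) (by linarith)
        linarith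
      have e10 : 2 * W * (κ * (X : ℝ) ^ t + H / X * (X : ℝ) ^ t) ≤ 2 * W * 2 := by
        apply mul_le_mul_of_nonneg_left (by linarith) (by positivity)
      have e11 : 2 * W * 2 ≤ 2 * Real.exp ((x + 1) * uA) * W := by
        have := mul_le_mul_of_nonneg_left hE2 (by positivity : 0 ≤ 2 * W)
        linarith
      linarith
    · have hX0 : (0 : ℝ) < X := by exact_mod_cast (by omega : 0 < X)
      have e1 := hdec X hXl
      have e2 : h (X + 1) ≤ 2 * (X : ℝ) ^ (t - 1) := by
        refine (h_le (X + 1)).trans ?_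
        have : (((X + 1 : ℕ) : ℝ)) ^ (t - 1) ≤ (X : ℝ) ^ (t - 1) := by
          apply Real.rpow_le_rpow_of_nonpos hX0 _ (by linarith)
          push_cast; linarith
        linarith
      have e3 : |Am X| * h (X + 1) ≤ Real.exp ((x + 1) * uA) * W
          * (X : ℝ) ^ (1 - (x + 1) / L) * (2 * (X : ℝ) ^ (t - 1)) :=
        mul_le_mul e1 e2 (h_nn _) (by positivity)
      have e4 : Real.exp ((x + 1) * uA) * W
          * (X : ℝ) ^ (1 - (x + 1) / L) * (2 * (X : ℝ) ^ (t - 1))
          = 2 * Real.exp ((x + 1) * uA) * W * (X : ℝ) ^ (-(1 / L)) := by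
        have : (X : ℝ) ^ (1 - (x + 1) / L) * (X : ℝ) ^ (t - 1) = (X : ℝ) ^ (-(1 / L)) := by
          rw [← Real.rpow_add hX0]
          congr 1
          rw [ht]; field_simp
          ring
        rw [← this]; ring
      have e5 : (X : ℝ) ^ (-(1 / L)) ≤ 1 := by
        apply Real.rpow_le_one_of_one_le_of_nonpos
        · exact_mod_cast (by omega : 1 ≤ X)
        · have : 0 < 1 / L := by positivity
          linarith
      have e6 : 2 * Real.exp ((x + 1) * uA) * W * (X : ℝ) ^ (-(1 / L))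
          ≤ 2 * Real.exp ((x + 1) * uA) * W * 1 :=
        mul_le_mul_of_nonneg_left e5 (by positivity)
      have e7 : -(|Am X| * h (X + 1)) ≤ Am X * h (X + 1) := by
        have := mul_le_mul_of_nonneg_right (neg_abs_le (Am X)) (h_nn (X + 1))
        linarith
      linarith
  -- differences of h
  have hd : ∀ n : ℕ, 1 ≤ n → -τ * (n : ℝ) ^ (t - 2) ≤ h n - h (n + 1) ∧
      h n - h (n + 1) ≤ 3 * (n : ℝ) ^ (t - 2) := by
    intro n hn
    have := hf_diff σ τ φ hσ0 hσ1 hτ0 hτ1 n hn
    have e : -σ - 1 = t - 2 := by rw [hσ]; ring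
    rwa [e] at this
  -- (P4)
  have P4 : -((3 * κ + 3 * Real.exp (-L) + C4 * τ) * W * ((N2 : ℝ) ^ t / t))
      ≤ ∑ n ∈ Ioc N1 N2, Am n * (h n - h (n + 1)) := by
    have hκ0 : 0 < κ := by rw [hκ]; positivity
    set K : ℝ := (3 * κ + 3 * Real.exp (-L) + C4 * τ) * W with hK
    have hK0 : 0 ≤ K := by positivity
    have e1 := sum_rpow_le ht0 (by linarith : t ≤ 1) N2
    have e2 : ∑ n ∈ Ioc N1 N2, (n : ℝ) ^ (t - 1) ≤ ∑ n ∈ Icc 1 N2, (n : ℝ) ^ (t - 1) := by
      apply Finset.sum_le_sum_of_subset_of_nonneg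
      · intro n hn
        rw [Finset.mem_Ioc] at hn
        rw [Finset.mem_Icc]
        omega
      · intro n _ _; positivity
    calc -(K * ((N2 : ℝ) ^ t / t)) ≤ -(K * ∑ n ∈ Ioc N1 N2, (n : ℝ) ^ (t - 1)) := by
          have := mul_le_mul_of_nonneg_left (e2.trans e1) hK0
          linarith
      _ = ∑ n ∈ Ioc N1 N2, -(K * (n : ℝ) ^ (t - 1)) := by
          rw [Finset.sum_neg_distrib, Finset.mul_sum]
      _ ≤ _ := by
          refine Finset.sum_le_sum fun n hn => ?_
          rw [Finset.mem_Ioc] at hn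
          have hn1 : 1 ≤ n := by omega
          have hn0 : (0 : ℝ) < n := by exact_mod_cast hn1
          have hlg := hlogN1 n hn.1.le
          obtain ⟨d1, d2⟩ := hd n hn1
          have b1 : Am n ≤ C4 * (W * n) := hB n (by linarith)
          have b2 : -(κ * W * n) - W * H ≤ Am n := hlow n
          have b3 : (H : ℝ) ≤ Real.exp (-L) * n := by
            have f1 : Real.exp (u1 * L) ≤ n := hN1a.trans (by exact_mod_cast hn.1.le)
            calc (H : ℝ) ≤ Real.exp ((u1 - 1) * L) := hH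
              _ = Real.exp (-L) * Real.exp (u1 * L) := by
                  rw [← Real.exp_add]; congr 1; ring
              _ ≤ _ := mul_le_mul_of_nonneg_left f1 (Real.exp_pos _).le
          have hp : 0 < (n : ℝ) ^ (t - 2) := Real.rpow_pos_of_pos hn0 _
          have hpp : (n : ℝ) ^ (t - 1) = n * (n : ℝ) ^ (t - 2) := by
            have : t - 1 = 1 + (t - 2) := by ring
            rw [this, Real.rpow_add hn0, Real.rpow_one]
          rcases le_or_gt 0 (Am n) with hs | hs
          · have f1 : Am n * (-τ * (n : ℝ) ^ (t - 2)) ≤ Am n * (h n - h (n + 1)) :=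
              mul_le_mul_of_nonneg_left d1 hs
            have f2 : Am n * (τ * (n : ℝ) ^ (t - 2)) ≤ C4 * (W * n) * (τ * (n : ℝ) ^ (t - 2)) :=
              mul_le_mul_of_nonneg_right b1 (by positivity)
            have f3 : K * (n : ℝ) ^ (t - 1) = C4 * (W * n) * (τ * (n : ℝ) ^ (t - 2))
                + (3 * κ + 3 * Real.exp (-L)) * W * (n : ℝ) ^ (t - 1) := by
              rw [hK, hpp]; ring
            have f4 : 0 ≤ (3 * κ + 3 * Real.exp (-L)) * W * (n : ℝ) ^ (t - 1) := by positivity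
            linarith
          · have f1 : Am n * (3 * (n : ℝ) ^ (t - 2)) ≤ Am n * (h n - h (n + 1)) :=
              mul_le_mul_of_nonpos_left d2 hs.le
            have f2 : (-(κ * W * n) - W * H) * (3 * (n : ℝ) ^ (t - 2))
                ≤ Am n * (3 * (n : ℝ) ^ (t - 2)) :=
              mul_le_mul_of_nonneg_right b2 (by positivity)
            have f3 : W * H * (3 * (n : ℝ) ^ (t - 2))
                ≤ W * (Real.exp (-L) * n) * (3 * (n : ℝ) ^ (t - 2)) := by
              gcongr
            have f4 : K * (n : ℝ) ^ (t - 1) = κ * W * n * (3 * (n : ℝ) ^ (t - 2))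
                + W * (Real.exp (-L) * n) * (3 * (n : ℝ) ^ (t - 2))
                + C4 * τ * W * (n : ℝ) ^ (t - 1) := by
              rw [hK, hpp]; ring
            have f5 : 0 ≤ C4 * τ * W * (n : ℝ) ^ (t - 1) := by positivity
            linarith
  -- (P5)
  have P5 : -(3 * Real.exp ((x + 1) * uA) * W * (L * (N2 : ℝ) ^ (-(1 / L))))
      ≤ ∑ n ∈ Ioc N2 X, Am n * (h n - h (n + 1)) := by
    set K : ℝ := 3 * Real.exp ((x + 1) * uA) * W with hK
    have hK0 : 0 ≤ K := by positivity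
    have hη : 0 < 1 / L := by positivity
    have e1 := sum_rpow_tail hη N2 X hN2_1 hX
    have e2 : (N2 : ℝ) ^ (-(1 / L)) / (1 / L) - (X : ℝ) ^ (-(1 / L)) / (1 / L)
        ≤ L * (N2 : ℝ) ^ (-(1 / L)) := by
      have : 0 ≤ (X : ℝ) ^ (-(1 / L)) / (1 / L) := by positivity
      have e : (N2 : ℝ) ^ (-(1 / L)) / (1 / L) = L * (N2 : ℝ) ^ (-(1 / L)) := by
        field_simp
      linarith
    calc -(K * (L * (N2 : ℝ) ^ (-(1 / L))))
        ≤ -(K * ∑ n ∈ Ioc N2 X, (n : ℝ) ^ (-1 - 1 / L)) := by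
          have := mul_le_mul_of_nonneg_left (e1.trans e2) hK0
          linarith
      _ = ∑ n ∈ Ioc N2 X, -(K * (n : ℝ) ^ (-1 - 1 / L)) := by
          rw [Finset.sum_neg_distrib, Finset.mul_sum]
      _ ≤ _ := by
          refine Finset.sum_le_sum fun n hn => ?_
          rw [Finset.mem_Ioc] at hn
          have hn1 : 1 ≤ n := by omega
          have hn0 : (0 : ℝ) < n := by exact_mod_cast hn1
          obtain ⟨d1, d2⟩ := hd n hn1
          have hp : 0 < (n : ℝ) ^ (t - 2) := Real.rpow_pos_of_pos hn0 _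
          have d3 : |h n - h (n + 1)| ≤ 3 * (n : ℝ) ^ (t - 2) := by
            rw [abs_le]
            refine ⟨?_, d2⟩
            have : τ * (n : ℝ) ^ (t - 2) ≤ 3 * (n : ℝ) ^ (t - 2) :=
              mul_le_mul_of_nonneg_right (by linarith) hp.le
            linarith
          have b1 := hdec n hn.1
          have b2 : |Am n * (h n - h (n + 1))| ≤ Real.exp ((x + 1) * uA) * W
              * (n : ℝ) ^ (1 - (x + 1) / L) * (3 * (n : ℝ) ^ (t - 2)) := by
            rw [abs_mul]
            exact mul_le_mul b1 d3 (abs_nonneg _) (by positivity)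
          have b3 : (n : ℝ) ^ (1 - (x + 1) / L) * (n : ℝ) ^ (t - 2) = (n : ℝ) ^ (-1 - 1 / L) := by
            rw [← Real.rpow_add hn0]
            congr 1
            rw [ht]; field_simp
            ring
          have b4 := neg_abs_le (Am n * (h n - h (n + 1)))
          have b5 : K * (n : ℝ) ^ (-1 - 1 / L) = Real.exp ((x + 1) * uA) * W
              * (n : ℝ) ^ (1 - (x + 1) / L) * (3 * (n : ℝ) ^ (t - 2)) := by
            rw [← b3, hK]; ring
          linarith
  -- numerical bounds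
  have Q1 : 2 * W * ((N1 : ℝ) ^ t / t) ≤ W * L * (4 * Real.exp (x * u1) / x) := by
    have e : W * L * (4 * Real.exp (x * u1) / x) = 2 * W * (2 * Real.exp (x * u1) / t) := by
      rw [ht]; field_simp; ring
    rw [e]
    gcongr
  have Q2 : 2 * C4 * W * (N1 : ℝ) ^ t ≤ W * L * 1 := by
    have e1 : 2 * C4 * W * (N1 : ℝ) ^ t ≤ 2 * C4 * W * (2 * Real.exp (x * u1)) := by gcongr
    have e2 : 2 * C4 * W * (2 * Real.exp (x * u1)) = W * (4 * C4 * Real.exp (x * u1)) := by ring
    have e3 := mul_le_mul_of_nonneg_left hL2 hW0.le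
    linarith
  have Q3 : 2 * Real.exp ((x + 1) * uA) * W ≤ W * L * 1 := by
    have e3 := mul_le_mul_of_nonneg_left hL4 hW0.le
    linarith
  have Q4 : (3 * κ + 3 * Real.exp (-L) + C4 * τ) * W * ((N2 : ℝ) ^ t / t) ≤ W * L * (3 / 2) := by
    have hκ1 : κ * Real.exp (x * v) = 1 / 6 := by
      rw [hκ, Real.exp_neg]; field_simp
    have hκ0 : 0 < κ := by rw [hκ]; positivity
    have e0 : Real.exp (-L) ≤ 1 / L := by
      rw [Real.exp_neg, ← one_div]
      apply one_div_le_one_div_of_le hL0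
      have := Real.add_one_le_exp L
      linarith
    have e1 : (N2 : ℝ) ^ t / t ≤ Real.exp (x * v) * L := by
      rw [div_le_iff₀ ht0]
      have : Real.exp (x * v) * L * t = Real.exp (x * v) * x := by
        rw [ht]; field_simp
      rw [this]
      have f1 := mul_le_mul_of_nonneg_left hx (Real.exp_pos (x * v)).le
      linarith
    have e2 : 3 * κ + 3 * Real.exp (-L) + C4 * τ ≤ 3 * κ + (3 + 4 * C4) / L := by
      have : C4 * τ ≤ 4 * C4 / L := by
        rw [hτ, mul_div_assoc']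
        apply div_le_div_of_nonneg_right _ hL0.le
        have := mul_le_mul_of_nonneg_left hpi.le (by linarith : 0 ≤ C4)
        linarith
      have e3 : (3 + 4 * C4) / L = 3 * (1 / L) + 4 * C4 / L := by ring
      linarith
    have e4 : (3 * κ + (3 + 4 * C4) / L) * Real.exp (x * v) ≤ 3 / 2 := by
      have f1 : (3 + 4 * C4) / L * Real.exp (x * v) ≤ 1 := by
        rw [div_mul_eq_mul_div, div_le_one hL0]; exact hL3
      have f2 : (3 * κ + (3 + 4 * C4) / L) * Real.exp (x * v)
          = 3 * (κ * Real.exp (x * v)) + (3 + 4 * C4) / L * Real.exp (x * v) := by ring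
      rw [f2, hκ1]
      linarith
    calc (3 * κ + 3 * Real.exp (-L) + C4 * τ) * W * ((N2 : ℝ) ^ t / t)
        ≤ (3 * κ + (3 + 4 * C4) / L) * W * (Real.exp (x * v) * L) := by
          apply mul_le_mul _ e1 (by positivity) (by positivity)
          exact mul_le_mul_of_nonneg_right e2 hW0.le
      _ = W * L * ((3 * κ + (3 + 4 * C4) / L) * Real.exp (x * v)) := by ring
      _ ≤ _ := mul_le_mul_of_nonneg_left e4 (by positivity)
  have Q5 : 3 * Real.exp ((x + 1) * uA) * W * (L * (N2 : ℝ) ^ (-(1 / L))) ≤ W * L * (3 / 2) := by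
    have e1 : Real.exp ((x + 1) * uA) * Real.exp (-v) ≤ 1 / 4 := by
      rw [← Real.exp_add]
      have e2 : (x + 1) * uA + -v ≤ -4 := by rw [hv]; linarith
      have e3 := Real.exp_le_exp.2 e2
      have e4 : Real.exp (-4) ≤ 1 / 4 := by
        rw [Real.exp_neg, ← one_div]
        apply one_div_le_one_div_of_le (by norm_num)
        have := Real.add_one_le_exp (4 : ℝ)
        linarith
      linarith
    calc 3 * Real.exp ((x + 1) * uA) * W * (L * (N2 : ℝ) ^ (-(1 / L)))
        ≤ 3 * Real.exp ((x + 1) * uA) * W * (L * (2 * Real.exp (-v))) := by gcongr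
      _ = W * L * (6 * (Real.exp ((x + 1) * uA) * Real.exp (-v))) := by ring
      _ ≤ W * L * (3 / 2) := by
          apply mul_le_mul_of_nonneg_left (by linarith) (by positivity)
  have hfin : ∑ n ∈ Icc 1 X, cc z n * hf σ τ φ n = ∑ n ∈ Icc 1 X, cc z n * h n := rfl
  rw [hfin, hab']
  have : W * L * (4 * Real.exp (x * u1) / x + 5)
      = W * L * (4 * Real.exp (x * u1) / x) + W * L * 1 + W * L * 1 + W * L * (3 / 2)
        + W * L * (3 / 2) := by ring
  linarith

end Pool.Agent.H67.GT.DEF
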