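import Mathlib
import Pool.Agent.H67.GT.DEF3

/-!
# Intervals with few rough numbers (module `DEF`, helper60)
-/

set_option autoImplicit false

namespace Pool.Agent.H67.GT.DEF

open Finset

lemma PiZ_real (z : ℕ) (σ : ℝ) (hσ : 0 ≤ σ) (hσ1 : σ ≤ 1) :
    ∃ R : ℝ, PiZ z (σ : ℂ) = (R : ℂ) ∧ 0 ≤ R ∧ R ≤ V Set.univ z := by
  refine ⟨∏ p ∈ prs Set.univ z, (1 - (p : ℝ) ^ (-σ)), ?_, ?_, ?_⟩
  · unfold PiZ
    rw [Complex.ofReal_prod]
    refine Finset.prod_congr rfl fun p _ => ?_
    rw [Complex.ofReal_sub, Complex.ofReal_cpow (Nat.cast_nonneg p)]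
    push_cast; rfl
  · refine Finset.prod_nonneg fun p hp => ?_
    rw [mem_prs_univ] at hp
    have h1 : (1 : ℝ) ≤ p := by exact_mod_cast hp.1.one_lt.le
    have := Real.rpow_le_one_of_one_le_of_nonpos h1 (by linarith : -σ ≤ 0)
    linarith
  · unfold V
    refine Finset.prod_le_prod (fun p hp => ?_) (fun p hp => ?_)
    · rw [mem_prs_univ] at hp
      have h1 : (1 : ℝ) ≤ p := by exact_mod_cast hp.1.one_lt.le
      have := Real.rpow_le_one_of_one_le_of_nonpos h1 (by linarith : -σ ≤ 0)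
      linarith
    · rw [mem_prs_univ] at hp
      have h1 : (1 : ℝ) ≤ p := by exact_mod_cast hp.1.one_lt.le
      have h2 : (p : ℝ) ^ (-1 : ℝ) ≤ (p : ℝ) ^ (-σ) :=
        Real.rpow_le_rpow_of_exponent_le h1 (by linarith)
      rw [Real.rpow_neg_one, ← one_div] at h2
      linarith

theorem deficit (M : Mert) (F : FL) (D : DSer) (E : ProdLB) : Deficit := by
  intro u hu
  obtain ⟨C4, hC4, L0, hup⟩ := upper M F
  obtain ⟨C, hD⟩ := D
  obtain ⟨x, hx, hG⟩ := exists_x (u + 1) (by linarith)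
  obtain ⟨zP, hP⟩ := E x hx
  obtain ⟨uA, zA, huA, hzA, hFA⟩ := F (x + 1) (by linarith)
  have hpi := Real.pi_lt_four
  have hpi0 := Real.pi_pos
  set v : ℝ := (x + 1) * uA + uA + (u + 1) + 4 with hv
  have hv0 : 0 < v := by rw [hv]; positivity
  set κ : ℝ := Real.exp (-(x * v)) / 6 with hκ
  have hκ0 : 0 < κ := by rw [hκ]; positivity
  have hκ1 : κ < 1 := by
    have : Real.exp (-(x * v)) ≤ 1 := by
      rw [Real.exp_le_one_iff]
      have : 0 < x * v := by positivity
      linarith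
    rw [hκ]; linarith
  set K : ℝ := 4 * x + 4 * C4 * Real.exp (x * (u + 1)) + (3 + 4 * C4) * Real.exp (x * v)
    + 2 * Real.exp ((x + 1) * uA) + |L0| + 2 * (x + Real.pi) * |C| + 1 with hK
  have t1 : 0 < 4 * x := by linarith
  have t2 : 0 < 4 * C4 * Real.exp (x * (u + 1)) := by positivity
  have t3 : 0 < (3 + 4 * C4) * Real.exp (x * v) := by positivity
  have t4 : 0 < 2 * Real.exp ((x + 1) * uA) := by positivity
  have t5 : 0 ≤ |L0| := abs_nonneg _
  have t6 : 0 ≤ 2 * (x + Real.pi) * |C| := by positivity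
  obtain ⟨z1, hz1⟩ : ∃ z1 : ℕ, ∀ z : ℕ, z1 ≤ z → K ≤ Real.log z := by
    have h1 : Filter.Tendsto (fun z : ℕ => Real.log z) Filter.atTop Filter.atTop :=
      Real.tendsto_log_atTop.comp tendsto_natCast_atTop_atTop
    exact Filter.eventually_atTop.1 (h1.eventually_ge_atTop K)
  refine ⟨κ, hκ0, hκ1, max z1 (max zP (max zA 3)), ?_⟩
  intro z hz H hH1 hHu
  have hzz1 : z1 ≤ z := le_trans (le_max_left _ _) hz
  have hz' : max zP (max zA 3) ≤ z := le_trans (le_max_right _ _) hz
  have hzP : zP ≤ z := le_trans (le_max_left _ _) hz'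
  have hz'' : max zA 3 ≤ z := le_trans (le_max_right _ _) hz'
  have hzA' : zA ≤ z := le_trans (le_max_left _ _) hz''
  have hz3 : 3 ≤ z := le_trans (le_max_right _ _) hz''
  by_contra hcon
  push Not at hcon
  set L : ℝ := Real.log z with hL
  set W : ℝ := V Set.univ z with hW
  have hW0 : 0 < W := V_pos _ _
  have hKL : K ≤ L := hz1 z hzz1
  have hLp : 0 < L := by linarith
  have hL4 : 4 * x ≤ L := by linarith
  have hz0 : (0 : ℝ) < z := by exact_mod_cast (by omega : 0 < z)
  set σ : ℝ := 1 - x / L with hσ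
  set τ : ℝ := Real.pi / L with hτ
  have hxL : x / L ≤ 1 / 4 := by rw [div_le_iff₀ hLp]; linarith
  have hxL0 : 0 < x / L := by positivity
  have hσa : 3 / 4 ≤ σ := by rw [hσ]; linarith
  have hσb : σ < 1 := by rw [hσ]; linarith
  have hτ0 : 0 < τ := by rw [hτ]; positivity
  have hτ1 : τ ≤ 1 := by rw [hτ, div_le_one hLp]; linarith
  -- the properties of the summatory function
  have hlow : ∀ n : ℕ, -(κ * W * n) - W * H ≤ ∑ m ∈ Icc 1 n, cc z m := by
    intro n
    have := block z H hH1 κ hκ0.le (fun a => (hcon a).le) n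
    rw [sum_cc, ← hW]
    rw [← hW] at this
    linarith
  have hA : ∀ n : ℕ, uA * L ≤ Real.log n →
      |∑ m ∈ Icc 1 n, cc z m| ≤ Real.exp (-(x + 1) * (Real.log n / L - uA)) * (W * n) := by
    intro n hn
    rw [sum_cc]
    exact hFA Set.univ (fun _ => 0) z 0 n hzA' hn
  have hB : ∀ n : ℕ, 2 * L ≤ Real.log n → ∑ m ∈ Icc 1 n, cc z m ≤ C4 * (W * n) := by
    intro n hn
    rw [sum_cc]
    refine hup z (by omega) ?_ n hn
    have := le_abs_self L0
    linarith
  have hHe : (H : ℝ) ≤ Real.exp (((u + 1) - 1) * L) := by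
    rw [Real.rpow_def_of_pos hz0] at hHu
    have : ((u + 1) - 1) * L = Real.log z * u := by rw [hL]; ring
    rw [this]; exact hHu
  -- the Dirichlet series
  obtain ⟨c1, -, hc1r, hlim1⟩ := hD (σ : ℂ) (by rw [Complex.ofReal_re]; linarith)
    (by rw [Complex.ofReal_re]; exact hσb)
    (by rw [Complex.norm_real, Real.norm_eq_abs, abs_of_nonneg (by linarith)]; linarith)
  obtain ⟨hc1i, hc1a, hc1b⟩ := hc1r (Complex.ofReal_im σ)
  rw [Complex.ofReal_re] at hc1a
  have hs2re : ((σ : ℂ) - τ * Complex.I).re = σ := by simp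
  obtain ⟨c2, hc2, -, hlim2⟩ := hD ((σ : ℂ) - τ * Complex.I) (by rw [hs2re]; linarith)
    (by rw [hs2re]; exact hσb)
    (by
      refine (norm_sub_le _ _).trans ?_
      rw [Complex.norm_real, norm_mul, Complex.norm_I, mul_one, Complex.norm_real,
        Real.norm_eq_abs, Real.norm_eq_abs, abs_of_nonneg (by linarith), abs_of_pos hτ0]
      linarith)
  set d1 : ℂ := c1 * (PiZ z (σ : ℂ) - (V Set.univ z : ℂ)) with hd1
  set d2 : ℂ := c2 * (PiZ z ((σ : ℂ) - τ * Complex.I) - (V Set.univ z : ℂ)) with hd2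
  obtain ⟨φ, hφ⟩ := exists_phase d2
  have hlim := tendsto_hf σ τ φ (fun n => cc z n) d1 d2 (hlim1 z) (hlim2 z)
  rw [hφ] at hlim
  have hge : -(W * L * (4 * Real.exp (x * (u + 1)) / x + 5)) ≤ d1.re + -‖d2‖ := by
    refine ge_of_tendsto hlim ?_
    filter_upwards [Filter.eventually_ge_atTop ⌊Real.exp (v * L)⌋₊] with X hX
    exact core z H L x (u + 1) uA v κ C4 W φ hL hW hx (by linarith) huA hv hκ hC4 hHe hL4
      (by linarith) (by linarith) (by linarith) hA hB hlow X hX
  -- upper bound for d1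
  have hd1' : d1.re ≤ W * L * (1 / x) := by
    obtain ⟨R, hR, hR0, hRV⟩ := PiZ_real z σ (by linarith) hσb.le
    have e1 : d1.re = (-c1.re) * (W - R) := by
      rw [hd1, hR, ← Complex.ofReal_sub, Complex.re_mul_ofReal, ← hW]; ring
    have e2 : -c1.re ≤ L / x := by
      have : 1 / (1 - σ) = L / x := by
        have h1 : 1 - σ = x / L := by rw [hσ]; ring
        rw [h1, one_div_div]
      linarith
    rw [e1]
    have e3 : 0 ≤ L / x := by positivity
    calc (-c1.re) * (W - R) ≤ (L / x) * (W - R) :=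
          mul_le_mul_of_nonneg_right e2 (by rw [hW]; linarith)
      _ ≤ (L / x) * W := mul_le_mul_of_nonneg_left (by linarith) e3
      _ = _ := by ring
  -- lower bound for d2
  have hxp : 0 < x + Real.pi := by positivity
  set Ex : ℝ := Real.exp (0.14 * Real.exp (3 * x / 4) - x * Real.exp (x / 2) - 6) with hEx
  have hEx1 : 0 < (Ex - 1) / (2 * (x + Real.pi)) := by
    have : 0 < 1 / x + 4 * Real.exp (x * (u + 1)) / x + 5 := by positivity
    linarith
  have hEx2 : 0 < Ex - 1 := by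
    by_contra h
    have : (Ex - 1) / (2 * (x + Real.pi)) ≤ 0 :=
      div_nonpos_of_nonpos_of_nonneg (by linarith) (by positivity)
    linarith
  have hPi2 : W * Ex ≤ ‖PiZ z ((σ : ℂ) - τ * Complex.I)‖ := by
    have h1 := hP z hzP
    have h2 : (1 : ℂ) - (x + Real.pi * Complex.I) / Real.log z = (σ : ℂ) - τ * Complex.I := by
      rw [hσ, hτ, ← hL]
      push_cast
      ring
    rw [h2] at h1
    exact h1
  have hc2n : L / (2 * (x + Real.pi)) ≤ ‖c2‖ := by
    have e1 : (1 : ℂ) - ((σ : ℂ) - τ * Complex.I) = ((x / L : ℝ) : ℂ) + τ * Complex.I := by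
      rw [hσ]; push_cast; ring
    rw [e1] at hc2
    set w : ℂ := ((x / L : ℝ) : ℂ) + τ * Complex.I with hw
    have e2 : ‖w‖ ≤ (x + Real.pi) / L := by
      refine (norm_add_le _ _).trans (le_of_eq ?_)
      rw [Complex.norm_real, norm_mul, Complex.norm_I, mul_one, Complex.norm_real,
        Real.norm_eq_abs, Real.norm_eq_abs, abs_of_pos hxL0, abs_of_pos hτ0, hτ]
      ring
    have e3 : 0 < ‖w‖ := by
      rw [norm_pos_iff]
      intro h
      have := congrArg Complex.re h
      rw [hw] at this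
      simp at this
      rcases this with h | h <;> linarith
    have e4 : L / (x + Real.pi) ≤ ‖1 / w‖ := by
      rw [norm_div, norm_one, div_le_div_iff₀ hxp e3]
      rw [le_div_iff₀ hLp] at e2
      linarith [mul_comm L ‖w‖]
    have e5 : ‖1 / w‖ ≤ ‖c2‖ + C := by
      calc ‖1 / w‖ = ‖(c2 + 1 / w) - c2‖ := by congr 1; ring
        _ ≤ ‖c2 + 1 / w‖ + ‖c2‖ := norm_sub_le _ _
        _ ≤ ‖c2‖ + C := by linarith
    have e6 : C ≤ L / (2 * (x + Real.pi)) := by
      rw [le_div_iff₀ (by positivity)]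
      have h1 := le_abs_self C
      have h2 : C * (2 * (x + Real.pi)) ≤ |C| * (2 * (x + Real.pi)) :=
        mul_le_mul_of_nonneg_right h1 (by positivity)
      linarith [mul_comm |C| (2 * (x + Real.pi))]
    have e7 : L / (x + Real.pi) = L / (2 * (x + Real.pi)) + L / (2 * (x + Real.pi)) := by
      field_simp; ring
    linarith
  have hd2' : W * L * ((Ex - 1) / (2 * (x + Real.pi))) ≤ ‖d2‖ := by
    rw [hd2, norm_mul]
    have e1 : W * (Ex - 1) ≤ ‖PiZ z ((σ : ℂ) - τ * Complex.I) - (V Set.univ z : ℂ)‖ := by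
      have h1 := norm_sub_norm_le (PiZ z ((σ : ℂ) - τ * Complex.I)) ((V Set.univ z : ℝ) : ℂ)
      rw [Complex.norm_real, Real.norm_eq_abs, abs_of_pos hW0] at h1
      have h2 : W * (Ex - 1) = W * Ex - W := by ring
      linarith
    calc W * L * ((Ex - 1) / (2 * (x + Real.pi)))
        = L / (2 * (x + Real.pi)) * (W * (Ex - 1)) := by ring
      _ ≤ ‖c2‖ * ‖PiZ z ((σ : ℂ) - τ * Complex.I) - (V Set.univ z : ℂ)‖ := by
          apply mul_le_mul hc2n e1 (by positivity) (norm_nonneg _)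
  -- contradiction
  have hWL : 0 < W * L := by positivity
  have hG' := mul_lt_mul_of_pos_left hG hWL
  have e1 : W * L * (1 / x + 4 * Real.exp (x * (u + 1)) / x + 5)
      = W * L * (1 / x) + W * L * (4 * Real.exp (x * (u + 1)) / x + 5) := by ring
  linarith

end Pool.Agent.H67.GT.DEF
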