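import Mathlib
import Pool.Agent.H67.GT.Defs

/-! Module DSER: the Dirichlet series of the `z`-rough numbers minus their mean. -/

set_option autoImplicit false

namespace Pool.Agent.H67.GT.DSER

open Finset Filter Topology

/-- derivative of a power on the positive half line -/
theorem hasDeriv_pow (w : ℂ) {t : ℝ} (ht : 0 < t) :
    HasDerivAt (fun t : ℝ => (t : ℂ) ^ w) (w * (t : ℂ) ^ (w - 1)) t := by
  have h1 : HasDerivAt (fun z : ℂ => z ^ w) (w * (t : ℂ) ^ (w - 1) * 1) (t : ℂ) :=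
    (hasDerivAt_id (t : ℂ)).cpow_const (by simpa using Complex.ofReal_mem_slitPlane.2 ht)
  rw [mul_one] at h1
  exact h1.comp_ofReal

theorem pow_sub_le (w : ℂ) (hw : w.re ≤ 1) {a b : ℝ} (ha : 0 < a) (hab : a ≤ b) :
    ‖(b : ℂ) ^ w - (a : ℂ) ^ w‖ ≤ ‖w‖ * a ^ (w.re - 1) * (b - a) := by
  have h := (convex_Icc a b).norm_image_sub_le_of_norm_hasDerivWithin_le (𝕜 := ℝ)
    (f := fun t : ℝ => (t : ℂ) ^ w) (f' := fun t => w * (t : ℂ) ^ (w - 1))
    (C := ‖w‖ * a ^ (w.re - 1))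
    (fun t ht => (hasDeriv_pow w (ha.trans_le ht.1)).hasDerivWithinAt) (by
      intro t ht
      have ht0 : 0 < t := ha.trans_le ht.1
      rw [norm_mul, Complex.norm_cpow_eq_rpow_re_of_pos ht0]
      have : (w - 1).re = w.re - 1 := by simp
      rw [this]
      exact mul_le_mul_of_nonneg_left
        (Real.rpow_le_rpow_of_nonpos ha ht.1 (by linarith)) (norm_nonneg _))
    (Set.left_mem_Icc.2 hab) (Set.right_mem_Icc.2 hab)
  rw [Real.norm_of_nonneg (by linarith)] at h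
  exact h

/-- the increment -/
theorem incr_le (s : ℂ) (hs0 : -1 ≤ s.re) (hs1 : s ≠ 1) {a : ℝ} (ha : 0 < a) :
    ‖((a + 1 : ℝ) : ℂ) ^ (-s) -
      (((a + 1 : ℝ) : ℂ) ^ (1 - s) - (a : ℂ) ^ (1 - s)) / (1 - s)‖ ≤
      ‖s‖ * a ^ (-s.re - 1) := by
  have h1s : (1 : ℂ) - s ≠ 0 := sub_ne_zero.2 (Ne.symm hs1)
  have h := (convex_Icc a (a + 1)).norm_image_sub_le_of_norm_hasDerivWithin_le (𝕜 := ℝ)
    (f := fun t : ℝ => (t : ℂ) ^ (1 - s) / (1 - s) - (t : ℂ) * ((a + 1 : ℝ) : ℂ) ^ (-s))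
    (f' := fun t => (t : ℂ) ^ (-s) - ((a + 1 : ℝ) : ℂ) ^ (-s))
    (C := ‖s‖ * a ^ (-s.re - 1))
    (fun t ht => by
      have ht0 : 0 < t := ha.trans_le ht.1
      have e1 := (hasDeriv_pow (1 - s) ht0).div_const (1 - s)
      have e2 : HasDerivAt (fun t : ℝ => (t : ℂ) * ((a + 1 : ℝ) : ℂ) ^ (-s))
          (((a + 1 : ℝ) : ℂ) ^ (-s)) t := by
        simpa using ((hasDerivAt_id t).ofReal_comp).mul_const (((a + 1 : ℝ) : ℂ) ^ (-s))
      have e3 : (1 - s) * (t : ℂ) ^ (1 - s - 1) / (1 - s) = (t : ℂ) ^ (-s) := by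
        rw [mul_div_cancel_left₀ _ h1s]; congr 1; ring
      rw [e3] at e1
      exact (e1.sub e2).hasDerivWithinAt) (by
      intro t ht
      have ht0 : 0 < t := ha.trans_le ht.1
      have e := pow_sub_le (-s) (by simp; linarith) ht0 ht.2
      rw [norm_sub_rev]
      refine e.trans ?_
      have hre : (-s).re - 1 = -s.re - 1 := by simp
      rw [norm_neg, hre]
      have e4 : t ^ (-s.re - 1) ≤ a ^ (-s.re - 1) :=
        Real.rpow_le_rpow_of_nonpos ha ht.1 (by linarith)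
      have e5 : a + 1 - t ≤ 1 := by have := ht.1; linarith
      have e6 : 0 ≤ a + 1 - t := by have := ht.2; linarith
      have e7 : 0 ≤ ‖s‖ * a ^ (-s.re - 1) := by positivity
      calc ‖s‖ * t ^ (-s.re - 1) * (a + 1 - t) ≤ ‖s‖ * a ^ (-s.re - 1) * (a + 1 - t) := by
            gcongr
        _ ≤ ‖s‖ * a ^ (-s.re - 1) * 1 := by gcongr
        _ = _ := mul_one _)
    (Set.left_mem_Icc.2 (by linarith)) (Set.right_mem_Icc.2 (by linarith))
  have e8 : ‖a + 1 - a‖ = (1 : ℝ) := by simp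
  rw [e8, mul_one, norm_sub_rev] at h
  refine le_trans (le_of_eq ?_) h
  congr 1
  push_cast
  ring

/-- the partial sums of the zeta function, regularised -/
noncomputable def ff (s : ℂ) (M : ℕ) : ℂ :=
  ∑ n ∈ Icc 1 M, (n : ℂ) ^ (-s) - (M : ℂ) ^ (1 - s) / (1 - s)

theorem ff_one (s : ℂ) : ff s 1 = 1 - 1 / (1 - s) := by
  unfold ff; simp

theorem ff_succ (s : ℂ) (hs0 : 1 / 2 ≤ s.re) (hs1 : s ≠ 1) (hs2 : ‖s‖ ≤ 2) (M : ℕ) :
    ‖ff s (M + 1 + 1) - ff s (M + 1)‖ ≤ 2 * ((M + 1 : ℕ) : ℝ) ^ (-(3 / 2) : ℝ) := by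
  have e1 : ff s (M + 1 + 1) - ff s (M + 1) = ((((M + 1 : ℕ) : ℝ) + 1 : ℝ) : ℂ) ^ (-s) -
      (((((M + 1 : ℕ) : ℝ) + 1 : ℝ) : ℂ) ^ (1 - s) - (((M + 1 : ℕ) : ℝ) : ℂ) ^ (1 - s)) /
        (1 - s) := by
    unfold ff
    rw [← Finset.insert_Icc_right_eq_Icc_add_one (by omega), sum_insert (by simp)]
    push_cast
    ring
  have hM : (0 : ℝ) < ((M + 1 : ℕ) : ℝ) := by positivity
  have hM1 : (1 : ℝ) ≤ ((M + 1 : ℕ) : ℝ) := by exact_mod_cast Nat.succ_pos M
  rw [e1]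
  refine (incr_le s (by linarith) hs1 hM).trans ?_
  refine mul_le_mul hs2 ?_ (by positivity) (by norm_num)
  exact Real.rpow_le_rpow_of_exponent_le hM1 (by linarith)

theorem summ : Summable (fun M : ℕ => 2 * ((M + 1 : ℕ) : ℝ) ^ (-(3 / 2) : ℝ)) := by
  refine Summable.mul_left 2 ?_
  exact (summable_nat_add_iff 1).2 (Real.summable_nat_rpow.2 (by norm_num))

/-- convergence of `ff` -/
theorem ff_tendsto (s : ℂ) (hs0 : 1 / 2 ≤ s.re) (hs1 : s ≠ 1) (hs2 : ‖s‖ ≤ 2) :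
    ∃ c0 : ℂ, ‖c0 + 1 / (1 - s)‖ ≤ 1 + ∑' M : ℕ, 2 * ((M + 1 : ℕ) : ℝ) ^ (-(3 / 2) : ℝ) ∧
      Tendsto (ff s) atTop (𝓝 c0) := by
  have hsum : Summable (fun M : ℕ => ff s (M + 1 + 1) - ff s (M + 1)) :=
    Summable.of_norm_bounded summ (ff_succ s hs0 hs1 hs2)
  refine ⟨ff s 1 + ∑' M : ℕ, (ff s (M + 1 + 1) - ff s (M + 1)), ?_, ?_⟩
  · rw [ff_one]
    have e : 1 - 1 / (1 - s) + ∑' M : ℕ, (ff s (M + 1 + 1) - ff s (M + 1)) + 1 / (1 - s) =
        1 + ∑' M : ℕ, (ff s (M + 1 + 1) - ff s (M + 1)) := by ring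
    rw [e]
    refine (norm_add_le _ _).trans ?_
    rw [norm_one]
    refine add_le_add le_rfl ?_
    exact tsum_of_norm_bounded summ.hasSum (ff_succ s hs0 hs1 hs2)
  · rw [← tendsto_add_atTop_iff_nat 1]
    have h := hsum.hasSum.tendsto_sum_nat
    have h2 : (fun N : ℕ => ff s (N + 1)) =
        fun N : ℕ => ff s 1 + ∑ M ∈ range N, (ff s (M + 1 + 1) - ff s (M + 1)) := by
      funext N
      have := Finset.sum_range_sub (fun M => ff s (M + 1)) N
      rw [this]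
      simp
    rw [h2]
    exact h.const_add _

/-! ### real `s` -/

theorem real_up {q : ℝ} (hq0 : 0 < q) (hq1 : q ≤ 1) {m : ℕ} (hm : 1 ≤ m) :
    q * (m : ℝ) ^ (q - 1) ≤ (m : ℝ) ^ q - ((m - 1 : ℕ) : ℝ) ^ q := by
  have hm0 : (0 : ℝ) < m := by exact_mod_cast hm
  have h := rpow_one_add_le_one_add_mul_self (s := -(1 / (m : ℝ)))
    (by rw [neg_le_neg_iff, div_le_one hm0]; exact_mod_cast hm) hq0.le hq1
  have e1 : ((m - 1 : ℕ) : ℝ) = m * (1 + -(1 / (m : ℝ))) := by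
    rw [Nat.cast_sub hm]; push_cast; field_simp; ring
  have h1m : (0 : ℝ) ≤ 1 + -(1 / (m : ℝ)) := by
    have : 1 / (m : ℝ) ≤ 1 := by rw [div_le_one hm0]; exact_mod_cast hm
    linarith
  rw [e1, Real.mul_rpow hm0.le h1m]
  have e2 : (m : ℝ) ^ (q - 1) = (m : ℝ) ^ q / m := Real.rpow_sub_one hm0.ne' q
  rw [e2]
  have e3 : (0 : ℝ) ≤ (m : ℝ) ^ q := by positivity
  calc q * ((m : ℝ) ^ q / m) = (m : ℝ) ^ q - (m : ℝ) ^ q * (1 + q * -(1 / (m : ℝ))) := by
        field_simp; ring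
    _ ≤ (m : ℝ) ^ q - (m : ℝ) ^ q * (1 + -(1 / (m : ℝ))) ^ q := by gcongr

theorem real_dn {q : ℝ} (hq0 : 0 < q) (hq1 : q ≤ 1) {m : ℕ} (hm : 1 ≤ m) :
    ((m + 1 : ℕ) : ℝ) ^ q - (m : ℝ) ^ q ≤ q * (m : ℝ) ^ (q - 1) := by
  have hm0 : (0 : ℝ) < m := by exact_mod_cast hm
  have h := rpow_one_add_le_one_add_mul_self (s := 1 / (m : ℝ))
    (by have : (0 : ℝ) ≤ 1 / (m : ℝ) := by positivity
        linarith) hq0.le hq1
  have e1 : ((m + 1 : ℕ) : ℝ) = m * (1 + 1 / (m : ℝ)) := by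
    push_cast; field_simp
  rw [e1, Real.mul_rpow hm0.le (by positivity)]
  have e2 : (m : ℝ) ^ (q - 1) = (m : ℝ) ^ q / m := Real.rpow_sub_one hm0.ne' q
  rw [e2]
  have e3 : (0 : ℝ) ≤ (m : ℝ) ^ q := by positivity
  calc (m : ℝ) ^ q * (1 + 1 / (m : ℝ)) ^ q - (m : ℝ) ^ q
      ≤ (m : ℝ) ^ q * (1 + q * (1 / (m : ℝ))) - (m : ℝ) ^ q := by gcongr
    _ = q * ((m : ℝ) ^ q / m) := by field_simp; ring

/-- the real version of `ff` -/
noncomputable def fr (t : ℝ) (M : ℕ) : ℝ :=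
  ∑ n ∈ Icc 1 M, (n : ℝ) ^ (-t) - (M : ℝ) ^ (1 - t) / (1 - t)

theorem ff_eq_fr (s : ℂ) (hs : s.im = 0) (M : ℕ) : ff s M = (fr s.re M : ℂ) := by
  have e : s = (s.re : ℂ) := by
    apply Complex.ext <;> simp [hs]
  unfold ff fr
  push_cast
  rw [e]
  simp only [Complex.ofReal_re]
  congr 1
  · refine sum_congr rfl fun n _ => ?_
    rw [Complex.ofReal_cpow (Nat.cast_nonneg n)]
    push_cast
    rfl
  · rw [Complex.ofReal_cpow (Nat.cast_nonneg M)]
    push_cast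
    rfl

theorem fr_le (t : ℝ) (h0 : 0 ≤ t) (h1 : t < 1) (M : ℕ) : fr t M ≤ 0 := by
  induction M with
  | zero =>
    unfold fr
    have : (1 : ℝ) - t ≠ 0 := by linarith
    simp [Real.zero_rpow this]
  | succ M ih =>
    refine le_trans ?_ ih
    have e : fr t (M + 1) - fr t M = ((M + 1 : ℕ) : ℝ) ^ (-t) -
        (((M + 1 : ℕ) : ℝ) ^ (1 - t) - (M : ℝ) ^ (1 - t)) / (1 - t) := by
      unfold fr
      rw [← Finset.insert_Icc_right_eq_Icc_add_one (by omega), sum_insert (by simp)]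
      ring
    have h := real_up (q := 1 - t) (by linarith) (by linarith) (m := M + 1) (by omega)
    rw [Nat.add_sub_cancel] at h
    have e2 : 1 - t - 1 = -t := by ring
    rw [e2] at h
    have h2 : ((M + 1 : ℕ) : ℝ) ^ (-t) ≤
        (((M + 1 : ℕ) : ℝ) ^ (1 - t) - (M : ℝ) ^ (1 - t)) / (1 - t) := by
      rw [le_div_iff₀ (by linarith), mul_comm]
      exact h
    linarith

theorem le_fr (t : ℝ) (h0 : 0 ≤ t) (h1 : t < 1) (M : ℕ) : -(1 / (1 - t)) ≤ fr t M := by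
  have key : ∀ M : ℕ, (((M + 1 : ℕ) : ℝ) ^ (1 - t) - 1) / (1 - t) ≤
      ∑ n ∈ Icc 1 M, (n : ℝ) ^ (-t) := by
    intro M
    induction M with
    | zero => simp
    | succ M ih =>
      rw [← Finset.insert_Icc_right_eq_Icc_add_one (by omega), sum_insert (by simp)]
      have h := real_dn (q := 1 - t) (by linarith) (by linarith) (m := M + 1) (by omega)
      have e2 : 1 - t - 1 = -t := by ring
      rw [e2] at h
      have h2 : (((M + 1 + 1 : ℕ) : ℝ) ^ (1 - t) - ((M + 1 : ℕ) : ℝ) ^ (1 - t)) / (1 - t) ≤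
          ((M + 1 : ℕ) : ℝ) ^ (-t) := by
        rw [div_le_iff₀ (by linarith), mul_comm]
        exact h
      have e3 : (((M + 1 + 1 : ℕ) : ℝ) ^ (1 - t) - 1) / (1 - t) =
          (((M + 1 + 1 : ℕ) : ℝ) ^ (1 - t) - ((M + 1 : ℕ) : ℝ) ^ (1 - t)) / (1 - t) +
          (((M + 1 : ℕ) : ℝ) ^ (1 - t) - 1) / (1 - t) := by ring
      rw [e3]
      exact add_le_add h2 ih
  have h := key M
  unfold fr
  have h3 : (M : ℝ) ^ (1 - t) ≤ ((M + 1 : ℕ) : ℝ) ^ (1 - t) := by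
    refine Real.rpow_le_rpow (Nat.cast_nonneg _) ?_ (by linarith)
    exact_mod_cast Nat.le_succ M
  have h4 : (M : ℝ) ^ (1 - t) / (1 - t) ≤ ((M + 1 : ℕ) : ℝ) ^ (1 - t) / (1 - t) := by
    have : 0 < 1 - t := by linarith
    gcongr
  have h5 : (((M + 1 : ℕ) : ℝ) ^ (1 - t) - 1) / (1 - t) =
      ((M + 1 : ℕ) : ℝ) ^ (1 - t) / (1 - t) - 1 / (1 - t) := by ring
  linarith

/-! ### rough numbers -/

theorem prs_zero : prs Set.univ 0 = ∅ := by
  unfold prs; simp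

theorem prs_succ_not {z : ℕ} (h : ¬ (z + 1).Prime) : prs Set.univ (z + 1) = prs Set.univ z := by
  classical
  unfold prs
  rw [← Finset.insert_Icc_right_eq_Icc_add_one (by omega), filter_insert, if_neg]
  tauto

theorem prs_succ {z : ℕ} (h : (z + 1).Prime) :
    prs Set.univ (z + 1) = insert (z + 1) (prs Set.univ z) := by
  classical
  unfold prs
  rw [← Finset.insert_Icc_right_eq_Icc_add_one (by omega), filter_insert, if_pos]
  exact ⟨h, Set.mem_univ _⟩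

theorem not_mem_prs (z : ℕ) : z + 1 ∉ prs Set.univ z := by
  unfold prs
  simp

theorem primorial_succ_not {z : ℕ} (h : ¬ (z + 1).Prime) : primorial (z + 1) = primorial z := by
  unfold primorial
  rw [range_add_one, filter_insert, if_neg h]

theorem primorial_succ_prime {z : ℕ} (h : (z + 1).Prime) :
    primorial (z + 1) = (z + 1) * primorial z := by
  unfold primorial
  rw [range_add_one, filter_insert, if_pos h, prod_insert (by simp)]

/-- sum over rough numbers -/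
noncomputable def GG (s : ℂ) (z X : ℕ) : ℂ :=
  ∑ n ∈ (Icc 1 X).filter (fun n => n.Coprime (primorial z)), (n : ℂ) ^ (-s)

theorem GG_succ (s : ℂ) {z : ℕ} (h : (z + 1).Prime) (X : ℕ) :
    GG s (z + 1) X = GG s z X - ((z + 1 : ℕ) : ℂ) ^ (-s) * GG s z (X / (z + 1)) := by
  have hcop : (z + 1).Coprime (primorial z) := by
    rw [Nat.Prime.coprime_iff_not_dvd h, h.dvd_primorial_iff]
    omega
  have hp0 : 0 < z + 1 := by omega
  have e1 : GG s z X = GG s (z + 1) X + ∑ n ∈ (Icc 1 X).filter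
      (fun n => n.Coprime (primorial z) ∧ (z + 1) ∣ n), (n : ℂ) ^ (-s) := by
    unfold GG
    rw [← Finset.sum_filter_add_sum_filter_not _ (fun n => ¬ (z + 1) ∣ n), filter_filter,
      filter_filter]
    congr 1
    · refine sum_congr (filter_congr fun n _ => ?_) fun _ _ => rfl
      rw [primorial_succ_prime h, Nat.coprime_mul_iff_right, and_comm]
      refine and_congr_left fun _ => ?_
      rw [Nat.coprime_comm, Nat.Prime.coprime_iff_not_dvd h]
    · refine sum_congr (filter_congr fun n _ => ?_) fun _ _ => rfl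
      rw [not_not]
  have e2 : ∑ n ∈ (Icc 1 X).filter (fun n => n.Coprime (primorial z) ∧ (z + 1) ∣ n),
      (n : ℂ) ^ (-s) = ((z + 1 : ℕ) : ℂ) ^ (-s) * GG s z (X / (z + 1)) := by
    unfold GG
    rw [mul_sum]
    symm
    refine sum_bij (fun m _ => (z + 1) * m) ?_ ?_ ?_ ?_
    · intro m hm
      obtain ⟨hm1, hm2⟩ := mem_filter.1 hm
      rw [mem_Icc] at hm1
      refine mem_filter.2 ⟨?_, ?_, dvd_mul_right _ _⟩
      · rw [mem_Icc]
        refine ⟨Nat.mul_pos hp0 hm1.1, ?_⟩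
        rw [mul_comm]
        exact (Nat.le_div_iff_mul_le hp0).1 hm1.2
      · exact Nat.Coprime.mul_left hcop hm2
    · intro a _ b _ hab
      exact Nat.eq_of_mul_eq_mul_left hp0 hab
    · intro n hn
      obtain ⟨hn1, hn2, m, rfl⟩ := mem_filter.1 hn
      rw [mem_Icc] at hn1
      refine ⟨m, mem_filter.2 ⟨?_, Nat.Coprime.coprime_mul_left hn2⟩, rfl⟩
      rw [mem_Icc]
      refine ⟨?_, ?_⟩
      · rcases Nat.eq_zero_or_pos m with h0 | h0
        · subst h0; simp at hn1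
        · exact h0
      · rw [Nat.le_div_iff_mul_le hp0, mul_comm]; exact hn1.2
    · intro m _
      rw [Nat.cast_mul, Complex.natCast_mul_natCast_cpow]
  rw [e1, e2]
  ring

/-- the floor does not matter -/
theorem floor_tendsto (s : ℂ) (hs0 : 0 < s.re) (hs1 : s.re < 1) (p : ℕ) (hp : 0 < p) :
    Tendsto (fun X : ℕ => ((X : ℂ) ^ (1 - s) / p - (p : ℂ) ^ (-s) * ((X / p : ℕ) : ℂ) ^ (1 - s)))
      atTop (𝓝 0) := by
  have hp0 : (0 : ℝ) < p := by exact_mod_cast hp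
  have e1 : ∀ X : ℕ, (X : ℂ) ^ (1 - s) / p = (p : ℂ) ^ (-s) * (((X : ℝ) / p : ℝ) : ℂ) ^ (1 - s) := by
    intro X
    have a1 : (X : ℂ) = ((p : ℝ) : ℂ) * (((X : ℝ) / p : ℝ) : ℂ) := by
      rw [← Complex.ofReal_mul, mul_div_cancel₀ _ hp0.ne']
      simp
    have a2 : (X : ℂ) ^ (1 - s) =
        ((p : ℝ) : ℂ) ^ (1 - s) * (((X : ℝ) / p : ℝ) : ℂ) ^ (1 - s) := by
      rw [a1, Complex.mul_cpow_ofReal_nonneg hp0.le (by positivity)]
    have hpc : (p : ℂ) ≠ 0 := by exact_mod_cast hp.ne'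
    have a3 : ((p : ℝ) : ℂ) ^ (1 - s) = (p : ℂ) * (p : ℂ) ^ (-s) := by
      rw [sub_eq_add_neg, Complex.ofReal_natCast, Complex.cpow_add _ _ hpc, Complex.cpow_one]
    rw [a2, a3]
    field_simp
  have hlim : Tendsto (fun X : ℕ => ‖(p : ℂ) ^ (-s)‖ * (‖1 - s‖ * ((X / p : ℕ) : ℝ) ^ (-s.re)))
      atTop (𝓝 0) := by
    have h1 : Tendsto (fun X : ℕ => X / p) atTop atTop :=
      Nat.tendsto_div_const_atTop hp.ne'
    have h2 : Tendsto (fun X : ℕ => ((X / p : ℕ) : ℝ)) atTop atTop :=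
      tendsto_natCast_atTop_atTop.comp h1
    have h3 := (tendsto_rpow_neg_atTop hs0).comp h2
    simpa using (h3.const_mul ‖1 - s‖).const_mul ‖(p : ℂ) ^ (-s)‖
  refine squeeze_zero_norm' ?_ hlim
  filter_upwards [eventually_ge_atTop p] with X hX
  rw [e1, ← mul_sub, norm_mul]
  refine mul_le_mul_of_nonneg_left ?_ (norm_nonneg _)
  have hk : 1 ≤ X / p := (Nat.one_le_div_iff hp).2 hX
  have hk0 : (0 : ℝ) < ((X / p : ℕ) : ℝ) := by exact_mod_cast hk
  have hle : ((X / p : ℕ) : ℝ) ≤ (X : ℝ) / p := Nat.cast_div_le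
  have hlt : (X : ℝ) / p - ((X / p : ℕ) : ℝ) ≤ 1 := by
    have : (X : ℝ) / p < ((X / p : ℕ) : ℝ) + 1 := by
      rw [div_lt_iff₀ hp0]
      exact_mod_cast (Nat.div_lt_iff_lt_mul hp).1 (Nat.lt_succ_self (X / p))
    linarith
  have h := pow_sub_le (1 - s) (by simp; linarith) hk0 hle
  have e5 : (((X / p : ℕ) : ℝ) : ℂ) = ((X / p : ℕ) : ℂ) := by simp
  rw [e5] at h
  refine h.trans ?_
  have e6 : (1 - s).re - 1 = -s.re := by simp
  rw [e6]
  calc ‖1 - s‖ * ((X / p : ℕ) : ℝ) ^ (-s.re) * ((X : ℝ) / p - ((X / p : ℕ) : ℝ))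
      ≤ ‖1 - s‖ * ((X / p : ℕ) : ℝ) ^ (-s.re) * 1 := by gcongr
    _ = _ := mul_one _

theorem GG_tendsto (s : ℂ) (hs0 : 0 < s.re) (hs1 : s.re < 1) (c0 : ℂ)
    (hc : Tendsto (ff s) atTop (𝓝 c0)) (z : ℕ) :
    Tendsto (fun X : ℕ => GG s z X - (V Set.univ z : ℂ) * ((X : ℂ) ^ (1 - s) / (1 - s))) atTop
      (𝓝 (c0 * PiZ z s)) := by
  have hs1' : (1 : ℂ) - s ≠ 0 := by
    intro h
    have := congrArg Complex.re h
    simp at this
    linarith
  induction z with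
  | zero =>
    have e : (fun X : ℕ => GG s 0 X - (V Set.univ 0 : ℂ) * ((X : ℂ) ^ (1 - s) / (1 - s))) =
        ff s := by
      funext X
      unfold GG V ff
      rw [prs_zero]
      simp
    rw [e]
    unfold PiZ
    rw [prs_zero, prod_empty, mul_one]
    exact hc
  | succ z ih =>
    by_cases hz : (z + 1).Prime
    · have hV : (V Set.univ (z + 1) : ℂ) =
          (V Set.univ z : ℂ) * (1 - 1 / ((z + 1 : ℕ) : ℂ)) := by
        unfold V
        rw [prs_succ hz, prod_insert (not_mem_prs z)]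
        push_cast
        ring
      have hPi : PiZ (z + 1) s = PiZ z s * (1 - ((z + 1 : ℕ) : ℂ) ^ (-s)) := by
        unfold PiZ
        rw [prs_succ hz, prod_insert (not_mem_prs z)]
        ring
      have h1 : Tendsto (fun X : ℕ => X / (z + 1)) atTop atTop :=
        Nat.tendsto_div_const_atTop (by omega)
      have h2 := (ih.comp h1).const_mul (((z + 1 : ℕ) : ℂ) ^ (-s))
      have h3 := (floor_tendsto s hs0 hs1 (z + 1) (by omega)).const_mul
        ((V Set.univ z : ℂ) / (1 - s))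
      have h4 := (ih.sub h2).add h3
      have e : (fun X : ℕ => GG s (z + 1) X -
          (V Set.univ (z + 1) : ℂ) * ((X : ℂ) ^ (1 - s) / (1 - s))) =
          fun X : ℕ => (GG s z X - (V Set.univ z : ℂ) * ((X : ℂ) ^ (1 - s) / (1 - s)) -
            ((z + 1 : ℕ) : ℂ) ^ (-s) * (GG s z (X / (z + 1)) - (V Set.univ z : ℂ) *
              (((X / (z + 1) : ℕ) : ℂ) ^ (1 - s) / (1 - s)))) +
            (V Set.univ z : ℂ) / (1 - s) * ((X : ℂ) ^ (1 - s) / ((z + 1 : ℕ) : ℂ) -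
              ((z + 1 : ℕ) : ℂ) ^ (-s) * ((X / (z + 1) : ℕ) : ℂ) ^ (1 - s)) := by
        funext X
        rw [GG_succ s hz, hV]
        ring
      rw [e, hPi]
      have e2 : c0 * (PiZ z s * (1 - ((z + 1 : ℕ) : ℂ) ^ (-s))) =
          c0 * PiZ z s - ((z + 1 : ℕ) : ℂ) ^ (-s) * (c0 * PiZ z s) +
            (V Set.univ z : ℂ) / (1 - s) * 0 := by ring
      rw [e2]
      exact h4
    · have e1 : GG s (z + 1) = GG s z := by
        funext X
        unfold GG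
        rw [primorial_succ_not hz]
      have e2 : V Set.univ (z + 1) = V Set.univ z := by
        unfold V; rw [prs_succ_not hz]
      have e3 : PiZ (z + 1) s = PiZ z s := by
        unfold PiZ; rw [prs_succ_not hz]
      rw [e1, e2, e3]
      exact ih

theorem dser : DSer := by
  refine ⟨1 + ∑' M : ℕ, 2 * ((M + 1 : ℕ) : ℝ) ^ (-(3 / 2) : ℝ), ?_⟩
  intro s hs0 hs1 hs2
  have hne : s ≠ 1 := by
    rintro rfl
    simp at hs1
  obtain ⟨c0, hb, hc⟩ := ff_tendsto s hs0 hne hs2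
  refine ⟨c0, hb, ?_, ?_⟩
  · intro him
    have e : ff s = fun M => (fr s.re M : ℂ) := by
      funext M; exact ff_eq_fr s him M
    rw [e] at hc
    have hre : Tendsto (fun M => fr s.re M) atTop (𝓝 c0.re) := by
      have := (Complex.continuous_re.tendsto c0).comp hc
      simpa [Function.comp_def] using this
    have him' : Tendsto (fun _ : ℕ => (0 : ℝ)) atTop (𝓝 c0.im) := by
      have := (Complex.continuous_im.tendsto c0).comp hc
      simpa [Function.comp_def] using this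
    refine ⟨(tendsto_nhds_unique him' tendsto_const_nhds), ?_, ?_⟩
    · exact ge_of_tendsto' hre (fun M => le_fr s.re (by linarith) hs1 M)
    · exact le_of_tendsto' hre (fun M => fr_le s.re (by linarith) hs1 M)
  · intro z
    have h1 := GG_tendsto s (by linarith) hs1 c0 hc z
    have h2 := h1.sub (hc.const_mul (V Set.univ z : ℂ))
    have e1 : c0 * (PiZ z s - (V Set.univ z : ℂ)) = c0 * PiZ z s - (V Set.univ z : ℂ) * c0 := by
      ring
    rw [e1]
    refine h2.congr fun X => ?_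
    have e2 : ∑ n ∈ Icc 1 X, (cc z n : ℂ) * (n : ℂ) ^ (-s) =
        GG s z X - (V Set.univ z : ℂ) * ∑ n ∈ Icc 1 X, (n : ℂ) ^ (-s) := by
      unfold GG cc
      rw [sum_filter, mul_sum, ← sum_sub_distrib]
      refine sum_congr rfl fun n _ => ?_
      split_ifs <;> push_cast <;> ring
    rw [e2]
    unfold ff
    ring

end Pool.Agent.H67.GT.DSER
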