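import Pool.Agent.H67.GT.Model
import Pool.Agent.H67.GT.MERT

/-! Existence of Granville's model (helper67). -/

set_option autoImplicit false

namespace Pool.Agent.H67.GT.Exist

open MeasureTheory Filter ProbabilityTheory Pool.Agent.H67.GT
open scoped ENNReal

/-- a biased coin -/
noncomputable def coin (w : ℝ) : Measure Bool :=
  ENNReal.ofReal (max 0 (min 1 w)) • Measure.dirac true +
    ENNReal.ofReal (1 - max 0 (min 1 w)) • Measure.dirac false

instance (w : ℝ) : IsProbabilityMeasure (coin w) := by
  constructor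
  unfold coin
  have h0 : 0 ≤ max 0 (min 1 w) := le_max_left _ _
  have h1 : max 0 (min 1 w) ≤ 1 := max_le (by norm_num) (min_le_left _ _)
  rw [Measure.add_apply, Measure.smul_apply, Measure.smul_apply, measure_univ, measure_univ,
    smul_eq_mul, smul_eq_mul, mul_one, mul_one, ← ENNReal.ofReal_add h0 (by linarith)]
  rw [add_sub_cancel, ENNReal.ofReal_one]

lemma coin_true {w : ℝ} (h0 : 0 ≤ w) (h1 : w ≤ 1) : coin w {true} = ENNReal.ofReal w := by
  unfold coin
  rw [Measure.add_apply, Measure.smul_apply, Measure.smul_apply]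
  simp [min_eq_right h1, max_eq_right h0]

/-- Independent events with prescribed probabilities. -/
theorem exists_indep (w : ℕ → ℝ) : ∃ (Ω : Type) (_ : MeasurableSpace Ω) (μ : Measure Ω)
    (_ : IsProbabilityMeasure μ) (A : ℕ → Set Ω), (∀ n, MeasurableSet (A n)) ∧ iIndepSet A μ ∧
    ∀ n, 0 ≤ w n → w n ≤ 1 → μ (A n) = ENNReal.ofReal (w n) := by
  classical
  let μ : Measure (ℕ → Bool) := Measure.infinitePi (fun n => coin (w n))
  let A : ℕ → Set (ℕ → Bool) := fun n => {ω | ω n = true}
  have hA : ∀ n, MeasurableSet (A n) := fun n =>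
    measurableSet_eq_fun (measurable_pi_apply n) measurable_const
  have hpi : ∀ s : Finset ℕ, μ (⋂ i ∈ s, A i) = ∏ i ∈ s, coin (w i) {true} := by
    intro s
    have h1 : (⋂ i ∈ s, A i) = Set.pi (s : Set ℕ) (fun _ => {true}) := by
      ext ω
      simp [A, Set.mem_pi]
    rw [h1]
    exact Measure.infinitePi_pi _ (fun i _ => MeasurableSet.singleton _)
  have hone : ∀ n, μ (A n) = coin (w n) {true} := by
    intro n
    have := hpi {n}
    simpa using this
  refine ⟨ℕ → Bool, inferInstance, μ, inferInstance, A, hA, ?_, ?_⟩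
  · rw [iIndepSet_iff_meas_biInter hA]
    intro s
    rw [hpi s]
    exact Finset.prod_congr rfl fun i _ => (hone i).symm
  · intro n h0 h1
    rw [hone n, coin_true h0 h1]

lemma wt_nonneg (T : ℕ → ℕ) (n : ℕ) : 0 ≤ wt T n := by
  unfold wt
  split_ifs
  · have h1 : 0 < V Set.univ (T n) := MERT.V_pos _ _
    have h2 : 0 ≤ Real.log n := Real.log_natCast_nonneg n
    positivity
  · exact le_rfl

/-- the probabilities are eventually at most one -/
lemma wt_le_one (M : Mert) (T : ℕ → ℕ) (hT : SubPoly T) : ∀ᶠ n : ℕ in atTop, wt T n ≤ 1 := by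
  obtain ⟨c, hc, -, -, -, hVl, -⟩ := M
  have h1 : ∀ᶠ n : ℕ in atTop, Real.log (T n) / Real.log n < 1 / c := by
    have : (0 : ℝ) < 1 / c := by positivity
    exact hT.eventually (gt_mem_nhds this)
  filter_upwards [h1, eventually_ge_atTop 8] with n hn hn8
  have hnR : (8 : ℝ) ≤ n := by exact_mod_cast hn8
  have hlog : 1 < Real.log n := by
    have h2 : Real.exp 1 < n := by have := Real.exp_one_lt_d9; linarith
    exact (Real.lt_log_iff_exp_lt (by linarith)).mpr h2
  unfold wt
  split_ifs
  · rw [div_le_one (mul_pos (MERT.V_pos _ _) (by linarith))]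
    rcases Nat.lt_or_ge (T n) 2 with h2 | h2
    · have hV : V Set.univ (T n) = 1 := by
        have h3 : T n = 0 ∨ T n = 1 := by omega
        rcases h3 with h3 | h3 <;> rw [h3] <;> unfold V <;> apply Finset.prod_eq_one <;>
          intro p hp <;> have h4 := MERT.mem_prs.mp hp
        · exact absurd h4.2.1.two_le (by omega)
        · exact absurd h4.2.1.two_le (by omega)
      rw [hV, one_mul]; exact hlog.le
    · have h3 := hVl Set.univ (T n) h2
      have hT2 : (2 : ℝ) ≤ T n := by exact_mod_cast h2
      have hlT : 0 < Real.log (T n) := Real.log_pos (by linarith)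
      have h4 : c * Real.log (T n) < Real.log n := by
        rw [div_lt_div_iff₀ (by linarith) (by linarith)] at hn
        linarith
      have h5 : 1 / (c * Real.log (T n)) * Real.log n ≤ V Set.univ (T n) * Real.log n :=
        mul_le_mul_of_nonneg_right h3 (by linarith)
      have h6 : 1 ≤ 1 / (c * Real.log (T n)) * Real.log n := by
        rw [one_div, inv_mul_eq_div, le_div_iff₀ (by positivity)]; linarith
      linarith
  · norm_num

/-- Granville's model exists for every level `T(n) = n^{o(1)}`. -/
theorem exists_model (T : ℕ → ℕ) (hT : SubPoly T) :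
    ∃ (Ω : Type) (_ : MeasurableSpace Ω) (μ : Measure Ω) (_ : IsProbabilityMeasure μ)
      (A : ℕ → Set Ω), GModel T μ A := by
  obtain ⟨Ω, m, μ, hμ, A, h1, h2, h3⟩ := exists_indep (wt T)
  refine ⟨Ω, m, μ, hμ, A, ⟨h1, h2, ?_⟩⟩
  filter_upwards [wt_le_one MERT.mert T hT] with n hn
  exact h3 n (wt_nonneg T n) hn

end Pool.Agent.H67.GT.Exist
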