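import Pool.Agent.H67.GT.Defs

/-!
# Granville's model: probabilistic definitions and the final statement (helper67)
-/

set_option autoImplicit false

namespace Pool.Agent.H67.GT

open MeasureTheory Filter ProbabilityTheory

/-- The final statement. -/
def Final : Prop := ∃ c : (ℕ → ℕ) → EReal,
  (∀ T : ℕ → ℕ, Monotone T → SubPoly T →
    (∀ {Ω : Type} [MeasurableSpace Ω] (μ : Measure Ω) [IsProbabilityMeasure μ] (A : ℕ → Set Ω),
      GModel T μ A → ∀ᵐ ω ∂μ, (rset A ω).Infinite ∧ limsupRatio (rset A ω) = c T) ∧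
    1 ≤ c T ∧ (c T = 1 ↔ SubLog T)) ∧
  (∀ ε : ℝ, 0 < ε → ∃ α : ℝ, 0 < α ∧ ∀ T : ℕ → ℕ, Monotone T →
    (∀ᶠ n : ℕ in atTop, (T n : ℝ) ≤ (Real.log n) ^ α) → c T ≤ ((1 + ε : ℝ) : EReal))

end Pool.Agent.H67.GT
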