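import Mathlib
import Pool.Agent.H67.GT.Defs
import Pool.Agent.H67.GT.Model
import Pool.Agent.H67.GT.MERT
import Pool.Agent.H3.ZeroOne

/-!
# Final assembly (module FIN of MP_028722_G)
-/

set_option autoImplicit false

namespace Pool.Agent.H67.GT.FIN

open MeasureTheory Filter Topology ProbabilityTheory

/-- starts of gaps longer than `C log² n` -/
def gapStarts (S : Set ℕ) (C : ℝ) : Set ℕ :=
  {n | n ∈ S ∧ ∀ j, 1 ≤ j → j ≤ ⌊C * Real.log n ^ 2⌋₊ → n + j ∉ S}

lemma log_pos3 {n : ℕ} (hn : 3 ≤ n) : 1 < Real.log n := by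
  have h1 : Real.exp 1 < 3 := lt_trans Real.exp_one_lt_d9 (by norm_num)
  rw [Real.lt_log_iff_exp_lt (by positivity)]
  calc Real.exp 1 < 3 := h1
    _ ≤ n := by exact_mod_cast hn

lemma limsup_le {S : Set ℕ} (hS : ∀ n ∈ S, 3 ≤ n) (hinf : S.Infinite) {C : ℝ}
    (hfin : (gapStarts S C).Finite) : limsupRatio S ≤ (C : EReal) := by
  have hmono : StrictMono (Nat.nth (· ∈ S)) := Nat.nth_strictMono hinf
  have hmem : ∀ j, Nat.nth (· ∈ S) j ∈ S := Nat.nth_mem_of_infinite hinf
  have h1 : {j | C < gapRatio S j}.Finite := by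
    apply Set.Finite.of_finite_image (f := Nat.nth (· ∈ S)) _ hmono.injective.injOn
    apply hfin.subset
    rintro _ ⟨j, hj, rfl⟩
    refine ⟨hmem j, fun i hi1 hi2 hi3 => ?_⟩
    have hj' : C < gapRatio S j := hj
    unfold gapRatio at hj'
    have hlog := log_pos3 (hS _ (hmem j))
    rw [lt_div_iff₀ (by positivity)] at hj'
    have hC0 : 0 ≤ C * Real.log (Nat.nth (· ∈ S) j) ^ 2 := by
      by_contra h
      push Not at h
      rw [Nat.floor_of_nonpos h.le] at hi2
      omega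
    have h2 : (i : ℝ) ≤ C * Real.log (Nat.nth (· ∈ S) j) ^ 2 :=
      le_trans (by exact_mod_cast hi2) (Nat.floor_le hC0)
    have h3 : (i : ℝ) < (Nat.nth (· ∈ S) (j + 1) : ℝ) - (Nat.nth (· ∈ S) j : ℝ) :=
      lt_of_le_of_lt h2 hj'
    have h4 : Nat.nth (· ∈ S) j + i < Nat.nth (· ∈ S) (j + 1) := by
      have : ((Nat.nth (· ∈ S) j + i : ℕ) : ℝ) < (Nat.nth (· ∈ S) (j + 1) : ℝ) := by
        push_cast; linarith
      exact_mod_cast this
    have h5 := Nat.le_nth_of_lt_nth_succ h4 hi3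
    omega
  apply limsup_le_of_le
  · isBoundedDefault
  have h2 : ∀ᶠ j in atTop, j ∉ {j | C < gapRatio S j} := by
    rw [← Nat.cofinite_eq_atTop]
    exact h1.compl_mem_cofinite
  filter_upwards [h2] with j hj
  have hj := not_lt.mp hj
  exact_mod_cast hj

lemma le_limsup {S : Set ℕ} (hS : ∀ n ∈ S, 3 ≤ n) {C : ℝ}
    (hinf : (gapStarts S C).Infinite) : (C : EReal) ≤ limsupRatio S := by
  classical
  have hSinf : S.Infinite := hinf.mono (fun n hn => hn.1)
  have hmono : StrictMono (Nat.nth (· ∈ S)) := Nat.nth_strictMono hSinf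
  have hmem : ∀ j, Nat.nth (· ∈ S) j ∈ S := Nat.nth_mem_of_infinite hSinf
  apply le_limsup_of_frequently_le
  · rw [Nat.frequently_atTop_iff_infinite]
    have h1 : ((fun n => Nat.count (· ∈ S) n) '' gapStarts S C).Infinite := by
      apply hinf.image
      intro a ha b hb hab
      simp only at hab
      have h1 := Nat.nth_count (p := (· ∈ S)) ha.1
      have h2 := Nat.nth_count (p := (· ∈ S)) hb.1
      rw [← h1, ← h2, hab]
    apply h1.mono
    rintro _ ⟨n, hn, rfl⟩
    have h2 : Nat.nth (· ∈ S) (Nat.count (· ∈ S) n) = n := Nat.nth_count (p := (· ∈ S)) hn.1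
    rw [Set.mem_ofPred_eq]
    apply EReal.coe_le_coe
    unfold gapRatio
    simp only
    rw [h2]
    have hlog := log_pos3 (hS n hn.1)
    rw [le_div_iff₀ (by positivity)]
    set m := Nat.nth (· ∈ S) (Nat.count (· ∈ S) n + 1) with hm
    have h3 : n < m := by
      have := hmono (Nat.lt_succ_self (Nat.count (· ∈ S) n))
      rw [h2] at this
      exact this
    have h4 : ⌊C * Real.log n ^ 2⌋₊ < m - n := by
      by_contra h
      push Not at h
      have := hn.2 (m - n) (by omega) h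
      rw [Nat.add_sub_cancel' h3.le] at this
      exact this (hmem _)
    have h5 : C * Real.log n ^ 2 < (⌊C * Real.log n ^ 2⌋₊ : ℝ) + 1 := Nat.lt_floor_add_one _
    have h6 : ((⌊C * Real.log n ^ 2⌋₊ + 1 : ℕ) : ℝ) ≤ ((m - n : ℕ) : ℝ) := by exact_mod_cast h4
    rw [Nat.cast_sub h3.le] at h6
    push_cast at h6
    linarith
  · isBoundedDefault

variable {Ω : Type*} [MeasurableSpace Ω]

lemma wt_nonneg (T : ℕ → ℕ) (n : ℕ) : 0 ≤ wt T n := by
  unfold wt
  split_ifs with h
  · have := MERT.V_pos Set.univ (T n)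
    have := Real.log_natCast_nonneg n
    positivity
  · exact le_rfl

/-- zero-one law for Granville's model -/
lemma zero_one {T : ℕ → ℕ} {P : Measure Ω} [IsProbabilityMeasure P] {A : ℕ → Set Ω}
    (hG : GModel T P A) (C : ℝ) :
    (Summable (gapTerm T C) → ∀ᵐ ω ∂P, (gapStarts (rset A ω) C).Finite) ∧
    (¬ Summable (gapTerm T C) → ∀ᵐ ω ∂P, (gapStarts (rset A ω) C).Infinite) := by
  have h01 := Pool.Agent.H3.zero_one_law hG.meas hG.indep (fun n => ⌊C * Real.log n ^ 2⌋₊)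
  have hsum : Summable (fun n => P.real (A n) *
      ∏ j ∈ Finset.Icc 1 ⌊C * Real.log n ^ 2⌋₊, (1 - P.real (A (n + j)))) ↔
      Summable (gapTerm T C) := by
    apply summable_congr_atTop
    have hprob : ∀ᶠ n in atTop, P.real (A n) = wt T n := by
      filter_upwards [hG.prob] with n hn
      rw [Measure.real, hn, ENNReal.toReal_ofReal (wt_nonneg T n)]
    obtain ⟨N, hN⟩ := eventually_atTop.mp hprob
    filter_upwards [eventually_ge_atTop N] with n hn
    unfold gapTerm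
    rw [hN n hn]
    congr 1
    apply Finset.prod_congr rfl
    intro j _
    rw [hN (n + j) (by omega)]
  have hset : ∀ ω, gapStarts (rset A ω) C = {n | 3 ≤ n} ∩ {n | ω ∈
      Pool.Agent.H3.gapEvent A (fun n => ⌊C * Real.log n ^ 2⌋₊) n} := by
    intro ω
    ext n
    simp only [gapStarts, rset, Pool.Agent.H3.gapEvent, Set.mem_ofPred_eq, Set.mem_inter_iff]
    constructor
    · rintro ⟨⟨h1, h2⟩, h3⟩
      exact ⟨h1, h2, fun j hj1 hj2 h4 => h3 j hj1 hj2 ⟨by omega, h4⟩⟩
    · rintro ⟨h1, h2, h3⟩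
      exact ⟨⟨h1, h2⟩, fun j hj1 hj2 h4 => h3 j hj1 hj2 h4.2⟩
  rw [hsum] at h01
  constructor
  · intro h
    filter_upwards [h01.1 h] with ω hω
    rw [hset ω]
    exact hω.subset Set.inter_subset_right
  · intro h
    filter_upwards [h01.2 h] with ω hω
    rw [hset ω]
    intro hfin
    apply hω
    apply (hfin.union (Set.finite_lt_nat 3)).subset
    intro n hn
    by_cases h3 : 3 ≤ n
    · exact Or.inl ⟨h3, hn⟩
    · right
      rw [Set.mem_ofPred_eq]
      omega

/-- the constant `c_T` -/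
noncomputable def cst (T : ℕ → ℕ) : EReal :=
  sInf {x : EReal | ∃ q : ℚ, 0 < q ∧ x = ((q : ℝ) : EReal) ∧ Summable (gapTerm T q)}

lemma cst_le {T : ℕ → ℕ} {q : ℚ} (hq : 0 < q) (h : Summable (gapTerm T q)) :
    cst T ≤ ((q : ℝ) : EReal) := sInf_le ⟨q, hq, rfl, h⟩

lemma le_cst {T : ℕ → ℕ} {c : ℝ} (h : ∀ q : ℚ, 0 < q → (q : ℝ) < c → ¬ Summable (gapTerm T q)) :
    (c : EReal) ≤ cst T := by
  apply le_sInf
  rintro x ⟨q, hq, rfl, hs⟩
  apply EReal.coe_le_coe
  by_contra hlt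
  push Not at hlt
  exact h q hq hlt hs

theorem limsup_eq {T : ℕ → ℕ} (h1 : 1 ≤ cst T) {P : Measure Ω} [IsProbabilityMeasure P]
    {A : ℕ → Set Ω} (hG : GModel T P A) :
    ∀ᵐ ω ∂P, (rset A ω).Infinite ∧ limsupRatio (rset A ω) = cst T := by
  have hall : ∀ q : ℚ, ∀ᵐ ω ∂P,
      (Summable (gapTerm T q) → (gapStarts (rset A ω) q).Finite) ∧
      (¬ Summable (gapTerm T q) → (gapStarts (rset A ω) q).Infinite) := by
    intro q
    obtain ⟨h2, h3⟩ := zero_one hG (q : ℝ)
    by_cases hs : Summable (gapTerm T q)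
    · filter_upwards [h2 hs] with ω hω
      exact ⟨fun _ => hω, fun h => absurd hs h⟩
    · filter_upwards [h3 hs] with ω hω
      exact ⟨fun h => absurd h hs, fun _ => hω⟩
  filter_upwards [ae_all_iff.mpr hall] with ω hω
  have hS : ∀ n ∈ rset A ω, 3 ≤ n := fun n hn => hn.1
  have hnot : ∀ q : ℚ, 0 < q → ((q : ℝ) : EReal) < cst T → ¬ Summable (gapTerm T q) := by
    intro q hq hlt hs
    exact absurd (cst_le hq hs) (not_le.mpr hlt)
  have hinf : (rset A ω).Infinite := by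
    have h2 := hnot (1 / 2) (by norm_num) (lt_of_lt_of_le (by
      rw [← EReal.coe_one]
      apply EReal.coe_lt_coe
      norm_num) h1)
    exact ((hω _).2 h2).mono (fun n hn => hn.1)
  refine ⟨hinf, le_antisymm ?_ ?_⟩
  · apply le_sInf
    rintro x ⟨q, hq, rfl, hs⟩
    exact limsup_le hS hinf ((hω q).1 hs)
  · apply le_of_forall_lt
    intro x hx
    -- a rational between
    obtain ⟨y, hy1, hy2⟩ := exists_between hx
    obtain ⟨q, hq1, hq2⟩ := EReal.exists_rat_btwn_of_lt hy2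
    by_cases hq0 : 0 < q
    · have h2 := hnot q hq0 (by exact_mod_cast hq2)
      have h3 := le_limsup hS ((hω q).2 h2)
      exact lt_of_lt_of_le (hy1.trans (by exact_mod_cast hq1)) h3
    · have h2 := hnot (1 / 2) (by norm_num) (lt_of_lt_of_le (by
        rw [← EReal.coe_one]
        apply EReal.coe_lt_coe
        norm_num) h1)
      have h3 := le_limsup hS ((hω _).2 h2)
      refine lt_of_lt_of_le (hy1.trans (lt_of_lt_of_le hq1 ?_)) h3
      apply EReal.coe_le_coe
      push Not at hq0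
      have : (q : ℝ) ≤ 0 := by exact_mod_cast hq0
      push_cast
      linarith

/-! ### The constant is at least one and the threshold -/

lemma tendsto_loglog : Tendsto (fun n : ℕ => Real.log (Real.log n)) atTop atTop :=
  Real.tendsto_log_atTop.comp (Real.tendsto_log_atTop.comp tendsto_natCast_atTop_atTop)

lemma tendsto_log : Tendsto (fun n : ℕ => Real.log n) atTop atTop :=
  Real.tendsto_log_atTop.comp tendsto_natCast_atTop_atTop

lemma prs_zero (P : Set ℕ) : prs P 0 = ∅ := by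
  ext p
  rw [MERT.mem_prs]
  simp only [nonpos_iff_eq_zero, Finset.notMem_empty, iff_false, not_and]
  rintro rfl h
  exact absurd h Nat.not_prime_zero

theorem one_le_cst (L : LowerSide) {T : ℕ → ℕ} (hT : Monotone T) (hs : SubPoly T) : 1 ≤ cst T := by
  rw [← EReal.coe_one]
  apply le_cst
  intro q hq hq1
  have hq' : (0 : ℝ) < q := by exact_mod_cast hq
  apply L T 0 q hT hs le_rfl one_pos hq' (by linarith)
  intro ε hε
  apply Eventually.frequently
  filter_upwards [tendsto_log.eventually_ge_atTop 0] with N hN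
  refine ⟨0, 0, Nat.zero_le _, by push_cast; positivity, ?_⟩
  have hV : V Set.univ 0 = 1 := by unfold V; rw [prs_zero]; simp
  rw [hV, sub_zero, one_mul, one_mul]
  have h1 : S Set.univ (fun _ => 0) 0 0 (⌊(q : ℝ) * Real.log (4 * N) ^ 2⌋₊ + 1) ≤
      ⌊(q : ℝ) * Real.log (4 * N) ^ 2⌋₊ + 1 := by
    classical
    unfold S
    refine (Finset.card_filter_le _ _).trans ?_
    rw [Int.card_Ioc]
    simp
  have h2 : ((S Set.univ (fun _ => 0) 0 0 (⌊(q : ℝ) * Real.log (4 * N) ^ 2⌋₊ + 1) : ℕ) : ℝ) ≤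
      ((⌊(q : ℝ) * Real.log (4 * N) ^ 2⌋₊ + 1 : ℕ) : ℝ) := by exact_mod_cast h1
  exact_mod_cast h2

theorem upper_cst (U : UpperSide) {ε : ℝ} (hε : 0 < ε) : ∃ α : ℝ, 0 < α ∧ ∀ T : ℕ → ℕ,
    Monotone T → (∀ᶠ n : ℕ in atTop, (T n : ℝ) ≤ (Real.log n) ^ α) →
    cst T ≤ ((1 + ε : ℝ) : EReal) := by
  obtain ⟨q, hq1, hq2⟩ := exists_rat_btwn (show (1 : ℝ) < 1 + ε by linarith)
  obtain ⟨α, hα, h⟩ := U q hq1
  refine ⟨α, hα, fun T hT hle => ?_⟩
  refine (cst_le (q := q) ?_ (h T hT hle)).trans (EReal.coe_le_coe hq2.le)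
  have : (0 : ℝ) < q := by linarith
  exact_mod_cast this

theorem lower_cst (D : Deficit) (L : LowerSide) {α : ℝ} (hα : 0 < α) : ∃ δ : ℝ, 0 < δ ∧
    ∀ T : ℕ → ℕ, Monotone T → SubPoly T → (∃ᶠ n : ℕ in atTop, (Real.log n) ^ α ≤ (T n : ℝ)) →
    ((1 + δ : ℝ) : EReal) ≤ cst T := by
  set β := min α (1 / 2) with hβ
  have hβ0 : 0 < β := lt_min hα (by norm_num)
  have hβα : β ≤ α := min_le_left _ _
  have hβ2 : β ≤ 1 / 2 := min_le_right _ _
  set u := 3 / β with hu
  have hu1 : 1 ≤ u := by rw [hu, le_div_iff₀ hβ0]; linarith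
  have hβu : β * u = 3 := by rw [hu]; field_simp
  obtain ⟨κ, hκ0, hκ1, z1, hD⟩ := D u hu1
  refine ⟨κ, hκ0, fun T hT hs hfreq => ?_⟩
  apply le_cst
  intro q hq hq1
  have hq' : (0 : ℝ) < q := by exact_mod_cast hq
  apply L T κ q hT hs hκ0.le hκ1 hq' (by nlinarith)
  intro ε hε
  -- eventual conditions on `N`
  have hlog := tendsto_log
  have e1 : ∀ᶠ N : ℕ in atTop, 1 ≤ Real.log N := hlog.eventually_ge_atTop 1
  have e2 : ∀ᶠ N : ℕ in atTop, max 2 ((z1 : ℝ) + 1) ≤ (Real.log N) ^ β :=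
    ((tendsto_rpow_atTop hβ0).comp hlog).eventually_ge_atTop _
  have e3 : ∀ᶠ N : ℕ in atTop, (1 / ε) ≤ (Real.log N) ^ (1 / 2 : ℝ) :=
    ((tendsto_rpow_atTop (by norm_num)).comp hlog).eventually_ge_atTop _
  have e4 : ∀ᶠ N : ℕ in atTop, (2 : ℝ) ^ u * (9 * q + 1) ≤ Real.log N :=
    hlog.eventually_ge_atTop _
  have e5 : ∀ᶠ N : ℕ in atTop, 1 ≤ N := eventually_ge_atTop 1
  refine (hfreq.and_eventually (((e1.and e2).and (e3.and e4)).and e5)).mono ?_
  rintro N ⟨hN, ⟨⟨h1, h2⟩, h3, h4⟩, h5⟩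
  set l := Real.log N with hl
  have hN0 : (0 : ℝ) < N := by exact_mod_cast h5
  have hl0 : 0 < l := by linarith
  have hlβ : l ^ β ≤ l ^ α := Real.rpow_le_rpow_of_exponent_le h1 hβα
  set T0 := ⌊l ^ β⌋₊ with hT0
  have hT0le : (T0 : ℝ) ≤ l ^ β := Nat.floor_le (by positivity)
  have hT0lt : l ^ β < T0 + 1 := Nat.lt_floor_add_one _
  have h21 : (2 : ℝ) ≤ l ^ β := le_trans (le_max_left _ _) h2
  have h22 : (z1 : ℝ) + 1 ≤ l ^ β := le_trans (le_max_right _ _) h2
  have hz1 : z1 ≤ T0 := by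
    have : (z1 : ℝ) < T0 + 1 - 0 := by linarith
    have h6 : (z1 : ℝ) < (T0 : ℝ) + 1 := by linarith
    exact_mod_cast Nat.lt_succ_iff.mp (by exact_mod_cast h6)
  have hT0half : l ^ β / 2 ≤ T0 := by linarith
  obtain ⟨a, ha⟩ := hD T0 hz1 (⌊(q : ℝ) * Real.log (4 * N) ^ 2⌋₊ + 1) (by omega) (by
    have hlog4 : Real.log (4 * N) ≤ 3 * l := by
      rw [Real.log_mul (by norm_num) hN0.ne']
      have : Real.log 4 ≤ 2 := by
        have h1 : Real.log 4 = 2 * Real.log 2 := by
          rw [show (4 : ℝ) = 2 ^ 2 by norm_num, Real.log_pow]; push_cast; ring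
        have := Real.log_two_lt_d9
        rw [h1]; linarith
      linarith
    have hlog40 : 0 ≤ Real.log (4 * N) := by
      apply Real.log_nonneg
      have : (1 : ℝ) ≤ N := by exact_mod_cast h5
      linarith
    have h7 : (⌊(q : ℝ) * Real.log (4 * N) ^ 2⌋₊ : ℝ) ≤ q * Real.log (4 * N) ^ 2 :=
      Nat.floor_le (by positivity)
    push_cast
    calc (⌊(q : ℝ) * Real.log (4 * N) ^ 2⌋₊ : ℝ) + 1 ≤ q * (3 * l) ^ 2 + 1 := by
          have : (q : ℝ) * Real.log (4 * N) ^ 2 ≤ q * (3 * l) ^ 2 := by gcongr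
          linarith
      _ ≤ (9 * q + 1) * l ^ 2 := by nlinarith
      _ ≤ (l / 2 ^ u) * l ^ 2 := by
          gcongr
          rw [le_div_iff₀ (by positivity)]
          linarith
      _ = l ^ (β * u) / 2 ^ u := by
          rw [hβu, show (3 : ℝ) = ((3 : ℕ) : ℝ) by norm_num, Real.rpow_natCast]
          ring
      _ = (l ^ β / 2) ^ u := by
          rw [Real.div_rpow (by positivity) (by norm_num), ← Real.rpow_mul hl0.le]
      _ ≤ (T0 : ℝ) ^ u := by gcongr)
  refine ⟨T0, a, ?_, ?_, ha⟩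
  · have : (T0 : ℝ) ≤ T N := by linarith
    exact_mod_cast this
  · calc (T0 : ℝ) ≤ l ^ β := hT0le
      _ ≤ l ^ (1 / 2 : ℝ) := Real.rpow_le_rpow_of_exponent_le h1 hβ2
      _ = 1 * l ^ (1 / 2 : ℝ) := (one_mul _).symm
      _ ≤ (ε * l ^ (1 / 2 : ℝ)) * l ^ (1 / 2 : ℝ) := by
          gcongr
          rwa [div_le_iff₀ hε, mul_comm] at h3
      _ = ε * l := by
          rw [mul_assoc, ← Real.rpow_add hl0]
          norm_num

lemma tendsto_iff (T : ℕ → ℕ) :
    Tendsto (fun n : ℕ => Real.log (T n) / Real.log (Real.log n)) atTop (𝓝 0) ↔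
      ∀ α : ℝ, 0 < α → ∀ᶠ n : ℕ in atTop, (T n : ℝ) < (Real.log n) ^ α := by
  have hll := tendsto_loglog
  have hl := tendsto_log
  have hTnn : ∀ n, 0 ≤ Real.log (T n : ℝ) := fun n => Real.log_natCast_nonneg _
  constructor
  · intro h α hα
    filter_upwards [h.eventually (gt_mem_nhds hα), hll.eventually_gt_atTop 0,
      hl.eventually_gt_atTop 0] with n h1 h2 h3
    rw [div_lt_iff₀ h2] at h1
    rcases Nat.eq_zero_or_pos (T n) with h4 | h4
    · rw [h4]; push_cast; positivity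
    · have h5 : (0 : ℝ) < T n := by exact_mod_cast h4
      rw [← Real.exp_log h5, Real.rpow_def_of_pos h3]
      apply Real.exp_lt_exp.mpr
      linarith
  · intro h
    rw [tendsto_order]
    constructor
    · intro a ha
      filter_upwards [hll.eventually_gt_atTop 0] with n h2
      have := hTnn n
      have : 0 ≤ Real.log (T n : ℝ) / Real.log (Real.log n) := by positivity
      linarith
    · intro a ha
      filter_upwards [h a ha, hll.eventually_gt_atTop 0, hl.eventually_gt_atTop 0] with n h1 h2 h3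
      rw [div_lt_iff₀ h2]
      rcases Nat.eq_zero_or_pos (T n) with h4 | h4
      · rw [h4]; simp; positivity
      · have h5 : (0 : ℝ) < T n := by exact_mod_cast h4
        have h6 := Real.log_lt_log h5 h1
        rwa [Real.log_rpow h3] at h6

/-! ### Existence of the model -/

lemma wt_le_one (M : Mert) {T : ℕ → ℕ} (hs : SubPoly T) : ∀ᶠ n : ℕ in atTop, 0 ≤ wt T n ∧ wt T n ≤ 1 := by
  obtain ⟨c, hc1, -, -, -, hM, -⟩ := M
  have hc0 : 0 < c := by linarith
  have hsmall : ∀ᶠ n : ℕ in atTop, Real.log (T n) / Real.log n < 1 / c :=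
    hs.eventually (gt_mem_nhds (by positivity))
  filter_upwards [hsmall, tendsto_log.eventually_ge_atTop (c + 1)] with n h1 h2
  have hl0 : 0 < Real.log n := by linarith
  have hV := MERT.V_pos Set.univ (T n)
  unfold wt
  split_ifs with hR
  · refine ⟨by positivity, ?_⟩
    rw [div_le_one (by positivity)]
    by_cases hT2 : 2 ≤ T n
    · have h3 := hM Set.univ (T n) hT2
      have hT2' : (2 : ℝ) ≤ T n := by exact_mod_cast hT2
      have hlT : 0 < Real.log (T n) := Real.log_pos (by linarith)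
      rw [div_lt_div_iff₀ hl0 hc0] at h1
      rw [div_le_iff₀ (by positivity)] at h3
      by_contra hlt
      push Not at hlt
      have h4 : V Set.univ (T n) * (c * Real.log (T n)) < V Set.univ (T n) * Real.log n := by
        gcongr
        linarith
      linarith
    · have hV1 : V Set.univ (T n) = 1 := by
        unfold V
        apply Finset.prod_eq_one
        intro p hp
        have h3 := (MERT.mem_prs.mp hp)
        have := h3.2.1.two_le
        omega
      rw [hV1]; linarith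
  · exact ⟨le_rfl, zero_le_one⟩

theorem exists_indep (p : ℕ → ℝ) (hp : ∀ n, 0 ≤ p n ∧ p n ≤ 1) :
    ∃ (Ω : Type) (_ : MeasurableSpace Ω) (P : Measure Ω) (_ : IsProbabilityMeasure P)
      (A : ℕ → Set Ω), (∀ n, MeasurableSet (A n)) ∧ iIndepSet A P ∧ ∀ n, P.real (A n) = p n := by
  set μ : ℕ → Measure Bool := fun n => bernoulliMeasure true false ⟨p n, hp n⟩ with hμ
  have hprob : ∀ n, IsProbabilityMeasure (μ n) := fun n => by rw [hμ]; infer_instance
  set P : Measure (ℕ → Bool) := Measure.infinitePi μ with hP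
  have hms : ∀ n, MeasurableSet {ω : ℕ → Bool | ω n = true} := fun n =>
    (measurable_pi_apply (X := fun _ : ℕ => Bool) n) (MeasurableSet.of_discrete (s := {true}))
  have hpn : ∀ n, P {ω : ℕ → Bool | ω n = true} = μ n {true} := by
    intro n
    have h2 : {ω : ℕ → Bool | ω n = true} = Set.pi (({n} : Finset ℕ) : Set ℕ) (fun _ => {true}) := by
      ext ω; simp
    rw [h2, hP, Measure.infinitePi_pi _ (fun i _ => MeasurableSet.of_discrete)]
    simp
  refine ⟨ℕ → Bool, inferInstance, P, inferInstance, fun n => {ω | ω n = true}, hms, ?_, ?_⟩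
  · rw [iIndepSet_iff_meas_biInter hms]
    intro s
    have h1 : (⋂ i ∈ s, {ω : ℕ → Bool | ω i = true}) = Set.pi s (fun _ => {true}) := by
      ext ω; simp [Set.mem_pi]
    rw [h1, hP, Measure.infinitePi_pi _ (fun i _ => MeasurableSet.of_discrete)]
    apply Finset.prod_congr rfl
    intro i _
    rw [← hP, hpn i]
  · intro n
    rw [Measure.real, hpn n, ← Measure.real, hμ]
    simp only
    rw [bernoulliMeasure_real_apply_of_mem_of_notMem] <;> simp

theorem exists_model (M : Mert) {T : ℕ → ℕ} (hs : SubPoly T) :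
    ∃ (Ω : Type) (_ : MeasurableSpace Ω) (P : Measure Ω) (_ : IsProbabilityMeasure P)
      (A : ℕ → Set Ω), GModel T P A := by
  obtain ⟨Ω, mΩ, P, hP, A, h1, h2, h3⟩ := exists_indep (fun n => max 0 (min 1 (wt T n)))
    (fun n => ⟨le_max_left _ _, max_le zero_le_one (min_le_left _ _)⟩)
  refine ⟨Ω, mΩ, P, hP, A, h1, h2, ?_⟩
  filter_upwards [wt_le_one M hs] with n hn
  have := h3 n
  rw [min_eq_right hn.2, max_eq_right hn.1] at this
  rw [← this, ofReal_measureReal]

lemma cst_eq_one_iff (U : UpperSide) (L : LowerSide) (D : Deficit) {T : ℕ → ℕ} (hT : Monotone T)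
    (hs : SubPoly T) : cst T = 1 ↔ SubLog T := by
  unfold SubLog
  rw [tendsto_iff]
  constructor
  · intro h1 α hα
    by_contra hn
    rw [not_eventually] at hn
    obtain ⟨δ, hδ, h2⟩ := lower_cst D L hα
    have h3 := h2 T hT hs (hn.mono (fun n hn => not_lt.mp hn))
    rw [h1, ← EReal.coe_one, EReal.coe_le_coe_iff] at h3
    linarith
  · intro h
    apply le_antisymm _ (one_le_cst L hT hs)
    have h1 : ∀ i : ℕ, cst T ≤ ((1 + 1 / ((i : ℝ) + 1) : ℝ) : EReal) := by
      intro i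
      obtain ⟨α, hα, h2⟩ := upper_cst U (ε := 1 / ((i : ℝ) + 1)) (by positivity)
      exact h2 T hT ((h α hα).mono (fun n hn => hn.le))
    have h2 : Tendsto (fun i : ℕ => 1 + 1 / ((i : ℝ) + 1)) atTop (𝓝 (1 + 0)) :=
      tendsto_one_div_add_atTop_nhds_zero_nat.const_add 1
    rw [add_zero] at h2
    have h3 : Tendsto (fun i : ℕ => ((1 + 1 / ((i : ℝ) + 1) : ℝ) : EReal)) atTop
        (𝓝 ((1 : ℝ) : EReal)) :=
      (continuous_coe_real_ereal.tendsto 1).comp h2
    exact ge_of_tendsto' h3 h1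

/-- module FIN. -/
theorem final (U : UpperSide) (L : LowerSide) (D : Deficit) : Final := by
  refine ⟨cst, fun T hT hs => ⟨?_, one_le_cst L hT hs, cst_eq_one_iff U L D hT hs⟩, ?_⟩
  · intro Ω _ P _ A hG
    exact limsup_eq (one_le_cst L hT hs) hG
  · intro ε hε
    exact upper_cst U hε

/-- The final statement with the existence of the models and a lower bound for the constant
beyond the threshold. -/
theorem final_full (M : Mert) (U : UpperSide) (L : LowerSide) (D : Deficit) :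
    ∃ c : (ℕ → ℕ) → EReal,
      (∀ T : ℕ → ℕ, Monotone T → SubPoly T →
        (∃ (Ω : Type) (_ : MeasurableSpace Ω) (μ : Measure Ω) (_ : IsProbabilityMeasure μ)
          (A : ℕ → Set Ω), GModel T μ A) ∧
        (∀ {Ω : Type} [MeasurableSpace Ω] (μ : Measure Ω) [IsProbabilityMeasure μ]
          (A : ℕ → Set Ω), GModel T μ A →
          ∀ᵐ ω ∂μ, (rset A ω).Infinite ∧ limsupRatio (rset A ω) = c T) ∧
        1 ≤ c T ∧ (c T = 1 ↔ SubLog T)) ∧
      (∀ ε : ℝ, 0 < ε → ∃ α : ℝ, 0 < α ∧ ∀ T : ℕ → ℕ, Monotone T →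
        (∀ᶠ n : ℕ in atTop, (T n : ℝ) ≤ (Real.log n) ^ α) → c T ≤ ((1 + ε : ℝ) : EReal)) ∧
      (∀ α : ℝ, 0 < α → ∃ δ : ℝ, 0 < δ ∧ ∀ T : ℕ → ℕ, Monotone T → SubPoly T →
        (∃ᶠ n : ℕ in atTop, (Real.log n) ^ α ≤ (T n : ℝ)) → ((1 + δ : ℝ) : EReal) ≤ c T) := by
  refine ⟨cst, fun T hT hs => ⟨exists_model M hs, ?_, one_le_cst L hT hs,
    cst_eq_one_iff U L D hT hs⟩, ?_, ?_⟩
  · intro Ω _ P _ A hG
    exact limsup_eq (one_le_cst L hT hs) hG
  · intro ε hε
    exact upper_cst U hε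
  · intro α hα
    exact lower_cst D L hα

end Pool.Agent.H67.GT.FIN
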