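import Pool.Agent.H67.GT.Defs

/-! The fundamental lemma of the sieve for intervals (helper67). -/

set_option autoImplicit false

namespace Pool.Agent.H67.GT.FLM

open Finset Pool.Agent.H67.GT

lemma mem_prs {P : Set ℕ} {z p : ℕ} : p ∈ prs P z ↔ p ≤ z ∧ p.Prime ∧ p ∈ P := by
  classical
  unfold prs
  rw [Finset.mem_filter, Finset.mem_Icc]
  constructor
  · rintro ⟨⟨_, h2⟩, h3, h4⟩; exact ⟨h2, h3, h4⟩
  · rintro ⟨h2, h3, h4⟩; exact ⟨⟨h3.one_lt.le, h2⟩, h3, h4⟩

lemma prs_zero (P : Set ℕ) : prs P 0 = ∅ := by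
  ext p; rw [mem_prs]; constructor
  · rintro ⟨h, h2, _⟩; exact absurd h2.pos (by omega)
  · intro h; exact absurd h (Finset.notMem_empty _)

lemma prs_succ_not {P : Set ℕ} {z : ℕ} (h : ¬ ((z + 1).Prime ∧ z + 1 ∈ P)) : prs P (z + 1) = prs P z := by
  ext p; rw [mem_prs, mem_prs]; constructor
  · rintro ⟨h1, h2, h3⟩
    refine ⟨?_, h2, h3⟩
    rcases Nat.lt_or_ge z p with h4 | h4
    · have : p = z + 1 := by omega
      subst this; exact absurd ⟨h2, h3⟩ h
    · exact h4
  · rintro ⟨h1, h2, h3⟩; exact ⟨by omega, h2, h3⟩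

lemma prs_succ {P : Set ℕ} {z : ℕ} (h : (z + 1).Prime ∧ z + 1 ∈ P) :
    prs P (z + 1) = insert (z + 1) (prs P z) := by
  ext p; rw [mem_prs, Finset.mem_insert, mem_prs]; constructor
  · rintro ⟨h1, h2, h3⟩
    rcases Nat.lt_or_ge z p with h4 | h4
    · left; omega
    · right; exact ⟨h4, h2, h3⟩
  · rintro (h1 | ⟨h1, h2, h3⟩)
    · subst h1; exact ⟨le_rfl, h.1, h.2⟩
    · exact ⟨by omega, h2, h3⟩

lemma notMem_prs_succ {P : Set ℕ} {z : ℕ} : z + 1 ∉ prs P z := by
  rw [mem_prs]; rintro ⟨h, _⟩; omega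

lemma V_zero (P : Set ℕ) : V P 0 = 1 := by unfold V; rw [prs_zero, Finset.prod_empty]

lemma V_succ_not {P : Set ℕ} {z : ℕ} (h : ¬ ((z + 1).Prime ∧ z + 1 ∈ P)) : V P (z + 1) = V P z := by
  unfold V; rw [prs_succ_not h]

lemma V_succ {P : Set ℕ} {z : ℕ} (h : (z + 1).Prime ∧ z + 1 ∈ P) :
    V P (z + 1) = V P z * (1 - 1 / ((z + 1 : ℕ) : ℝ)) := by
  unfold V; rw [prs_succ h, Finset.prod_insert notMem_prs_succ, mul_comm]

lemma factor_pos {p : ℕ} (hp : p.Prime) : (0 : ℝ) < 1 - 1 / (p : ℝ) := by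
  have : (2 : ℝ) ≤ p := by exact_mod_cast hp.two_le
  have h2 : 1 / (p : ℝ) ≤ 1 / 2 := one_div_le_one_div_of_le (by norm_num) this
  linarith

lemma factor_le {p : ℕ} : 1 - 1 / (p : ℝ) ≤ 1 := by
  have : 0 ≤ 1 / (p : ℝ) := by positivity
  linarith

lemma V_pos (P : Set ℕ) (z : ℕ) : 0 < V P z :=
  Finset.prod_pos fun _ hp => factor_pos (mem_prs.mp hp).2.1

lemma V_le_one (P : Set ℕ) (z : ℕ) : V P z ≤ 1 :=
  Finset.prod_le_one (fun _ hp => (factor_pos (mem_prs.mp hp).2.1).le) (fun _ _ => factor_le)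

lemma V_anti (P : Set ℕ) {w z : ℕ} (h : w ≤ z) : V P z ≤ V P w := by
  induction z, h using Nat.le_induction with
  | base => exact le_rfl
  | succ n hn ih =>
    by_cases hp : (n + 1).Prime ∧ n + 1 ∈ P
    · rw [V_succ hp]
      have h1 : V P n * (1 - 1 / ((n + 1 : ℕ) : ℝ)) ≤ V P n * 1 :=
        mul_le_mul_of_nonneg_left factor_le (V_pos P n).le
      linarith
    · rw [V_succ_not hp]; exact ih

lemma sifted_mono {P : Set ℕ} {r : ℕ → ℤ} {w z : ℕ} (h : w ≤ z) {n : ℤ} (hn : Sifted P r z n) :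
    Sifted P r w n := by
  intro p hp
  apply hn p
  rw [mem_prs] at hp ⊢
  exact ⟨hp.1.trans h, hp.2⟩

lemma S_anti (P : Set ℕ) (r : ℕ → ℤ) {w z : ℕ} (h : w ≤ z) (a : ℤ) (H : ℕ) :
    S P r z a H ≤ S P r w a H := by
  classical
  unfold S
  apply Finset.card_le_card
  intro n hn
  rw [Finset.mem_filter] at hn ⊢
  exact ⟨hn.1, sifted_mono h hn.2⟩

lemma S_zero (P : Set ℕ) (r : ℕ → ℤ) (a : ℤ) (H : ℕ) : S P r 0 a H = H := by
  classical
  unfold S
  rw [Finset.filter_true_of_mem]
  · simp
  · intro n _ p hp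
    rw [prs_zero] at hp
    exact absurd hp (Finset.notMem_empty _)

/-- solvability of the congruence for a shifted progression -/
lemma exists_res {p q : ℕ} (h : Nat.Coprime p q) (rp rq : ℤ) :
    ∃ c : ℤ, ∀ m : ℤ, (rp + p * m ≡ rq [ZMOD q]) ↔ (m ≡ c [ZMOD q]) := by
  obtain ⟨b, hb⟩ := Int.mod_coprime h
  refine ⟨(rq - rp) * b, fun m => ?_⟩
  constructor
  · intro h1
    have h2 : (p : ℤ) * m ≡ rq - rp [ZMOD q] := by
      have := h1.sub (Int.ModEq.refl rp)
      simpa using this
    have h3 : (p : ℤ) * m * b ≡ (rq - rp) * b [ZMOD q] := h2.mul_right b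
    have h4 : (p : ℤ) * m * b ≡ m [ZMOD q] := by
      have h5 : (p : ℤ) * b * m ≡ 1 * m [ZMOD q] := hb.mul_right m
      have h6 : (p : ℤ) * m * b = p * b * m := by ring
      rw [h6]; simpa using h5
    exact h4.symm.trans h3
  · intro h1
    have h2 : (p : ℤ) * m ≡ p * ((rq - rp) * b) [ZMOD q] := h1.mul_left p
    have h3 : (p : ℤ) * ((rq - rp) * b) ≡ rq - rp [ZMOD q] := by
      have h5 : (p : ℤ) * b * (rq - rp) ≡ 1 * (rq - rp) [ZMOD q] := hb.mul_right _
      have h6 : (p : ℤ) * ((rq - rp) * b) = p * b * (rq - rp) := by ring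
      rw [h6]; simpa using h5
    have h4 := (h2.trans h3).add_left rp
    have h5 : rp + (rq - rp) = rq := by ring
    rwa [h5] at h4

/-- the number of sifted integers in the residue class of `p` -/
noncomputable def fib (P : Set ℕ) (r : ℕ → ℤ) (p z : ℕ) (a : ℤ) (H : ℕ) : ℕ := by
  classical exact ((Finset.Ioc a (a + H)).filter (fun n => n ≡ r p [ZMOD p] ∧ Sifted P r z n)).card

lemma fiber {P : Set ℕ} {r : ℕ → ℤ} {p : ℕ} (hp : p.Prime) (a : ℤ) (H : ℕ) :
    ∃ (r' : ℕ → ℤ) (a' : ℤ) (N : ℕ), |(N : ℝ) - H / p| ≤ 1 ∧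
      ∀ z < p, fib P r p z a H = S P r' z a' N := by
  classical
  have hex : ∀ q : ℕ, ∃ c : ℤ, q.Prime → q < p → ∀ m : ℤ, (r p + p * m ≡ r q [ZMOD q]) ↔ (m ≡ c [ZMOD q]) := by
    intro q
    by_cases hq : q.Prime ∧ q < p
    · have hc : Nat.Coprime p q := (Nat.coprime_primes hp hq.1).mpr (by omega)
      obtain ⟨c, hc⟩ := exists_res hc (r p) (r q)
      exact ⟨c, fun _ _ => hc⟩
    · exact ⟨0, fun h1 h2 => absurd ⟨h1, h2⟩ hq⟩
  choose r' hr' using hex
  have hp0 : (0 : ℤ) < p := by exact_mod_cast hp.pos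
  set a' : ℤ := (a - r p) / p with ha'
  set b' : ℤ := (a + H - r p) / p with hb'
  have hle : a' ≤ b' := Int.ediv_le_ediv hp0 (by omega)
  refine ⟨r', a', (b' - a').toNat, ?_, ?_⟩
  · have h1 : (((b' - a').toNat : ℕ) : ℝ) = (b' : ℝ) - a' := by
      have h2 : (((b' - a').toNat : ℕ) : ℤ) = b' - a' := Int.toNat_of_nonneg (by omega)
      have h3 : (((b' - a').toNat : ℕ) : ℝ) = (((((b' - a').toNat : ℕ) : ℤ)) : ℝ) := by push_cast; rfl
      rw [h3, h2]; push_cast; rfl
    rw [h1]
    have hpR : (0 : ℝ) < p := by exact_mod_cast hp.pos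
    have e1 := Int.emod_add_mul_ediv (a - r p) p
    have e2 := Int.emod_add_mul_ediv (a + H - r p) p
    have b1 := Int.emod_nonneg (a - r p) hp0.ne'
    have b2 := Int.emod_lt_of_pos (a - r p) hp0
    have b3 := Int.emod_nonneg (a + H - r p) hp0.ne'
    have b4 := Int.emod_lt_of_pos (a + H - r p) hp0
    rw [← ha'] at e1
    rw [← hb'] at e2
    have g1 : (p : ℤ) * (b' - a') ≤ H + p := by nlinarith
    have g2 : (H : ℤ) - p ≤ p * (b' - a') := by nlinarith
    have g1' : (p : ℝ) * ((b' : ℝ) - a') ≤ H + p := by exact_mod_cast g1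
    have g2' : (H : ℝ) - p ≤ p * ((b' : ℝ) - a') := by exact_mod_cast g2
    rw [abs_le]
    have h5 : (H : ℝ) / p * p = H := by field_simp
    constructor
    · have : ((H : ℝ) / p - 1) * p ≤ ((b' : ℝ) - a') * p := by nlinarith
      have := le_of_mul_le_mul_right this hpR
      linarith
    · have : ((b' : ℝ) - a') * p ≤ ((H : ℝ) / p + 1) * p := by nlinarith
      have := le_of_mul_le_mul_right this hpR
      linarith
  · intro z hz
    have hN : a' + ((b' - a').toNat : ℤ) = b' := by
      rw [Int.toNat_of_nonneg (by omega)]; ring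
    unfold fib S
    rw [hN]
    symm
    apply Finset.card_bij (fun (m : ℤ) _ => r p + p * m)
    · intro m hm
      rw [Finset.mem_filter, Finset.mem_Ioc] at hm ⊢
      obtain ⟨⟨h1, h2⟩, h3⟩ := hm
      refine ⟨⟨?_, ?_⟩, ?_, ?_⟩
      · have : (a - r p) / p < m := h1
        rw [Int.ediv_lt_iff_lt_mul hp0] at this
        linarith [mul_comm m (p : ℤ)]
      · have : m ≤ (a + H - r p) / p := h2
        rw [Int.le_ediv_iff_mul_le hp0] at this
        linarith [mul_comm m (p : ℤ)]
      · have : r p + p * m ≡ r p + 0 [ZMOD p] := by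
          apply Int.ModEq.add_left
          exact (Int.modEq_zero_iff_dvd).mpr (dvd_mul_right _ _)
        simpa using this
      · intro q hq h4
        have hq' := mem_prs.mp hq
        exact h3 q hq (((hr' q hq'.2.1 (lt_of_le_of_lt hq'.1 hz)) m).mp h4)
    · intro m1 _ m2 _ h
      have : (p : ℤ) * m1 = p * m2 := by linarith
      exact mul_left_cancel₀ hp0.ne' this
    · intro n hn
      rw [Finset.mem_filter, Finset.mem_Ioc] at hn
      obtain ⟨⟨h1, h2⟩, h3, h4⟩ := hn
      obtain ⟨m, hm⟩ := (Int.modEq_iff_dvd.mp h3.symm)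
      have hnm : n = r p + p * m := by linarith
      refine ⟨m, ?_, hnm.symm⟩
      rw [Finset.mem_filter, Finset.mem_Ioc]
      refine ⟨⟨?_, ?_⟩, ?_⟩
      · change (a - r p) / p < m
        rw [Int.ediv_lt_iff_lt_mul hp0]
        linarith [mul_comm m (p : ℤ)]
      · change m ≤ (a + H - r p) / p
        rw [Int.le_ediv_iff_mul_le hp0]
        linarith [mul_comm m (p : ℤ)]
      · intro q hq h5
        have hq' := mem_prs.mp hq
        apply h4 q hq
        rw [hnm]
        exact ((hr' q hq'.2.1 (lt_of_le_of_lt hq'.1 hz)) m).mpr h5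

/-- Buchstab's identity, one step. -/
lemma buchstab {P : Set ℕ} {r : ℕ → ℤ} {z : ℕ} (h : (z + 1).Prime ∧ z + 1 ∈ P) (a : ℤ) (H : ℕ) :
    S P r (z + 1) a H + fib P r (z + 1) z a H = S P r z a H := by
  classical
  unfold S fib
  rw [← Finset.card_union_of_disjoint]
  · congr 1
    ext n
    rw [Finset.mem_union, Finset.mem_filter, Finset.mem_filter, Finset.mem_filter]
    constructor
    · rintro (⟨h1, h2⟩ | ⟨h1, h2, h3⟩)
      · exact ⟨h1, sifted_mono (by omega) h2⟩
      · exact ⟨h1, h3⟩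
    · rintro ⟨h1, h2⟩
      by_cases h3 : n ≡ r (z + 1) [ZMOD ((z + 1 : ℕ) : ℤ)]
      · right; exact ⟨h1, h3, h2⟩
      · left
        refine ⟨h1, fun p hp => ?_⟩
        rw [prs_succ h, Finset.mem_insert] at hp
        rcases hp with rfl | hp
        · exact h3
        · exact h2 p hp
  · rw [Finset.disjoint_left]
    intro n h1 h2
    rw [Finset.mem_filter] at h1 h2
    exact h1.2 (z + 1) (mem_prs.mpr ⟨le_rfl, h⟩) h2.2.1

lemma S_succ_not {P : Set ℕ} {r : ℕ → ℤ} {z : ℕ} (h : ¬ ((z + 1).Prime ∧ z + 1 ∈ P)) (a : ℤ) (H : ℕ) :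
    S P r (z + 1) a H = S P r z a H := by
  classical
  unfold S Sifted
  rw [prs_succ_not h]

/-- Legendre's sieve -/
lemma legendre (P : Set ℕ) (z : ℕ) : ∀ (r : ℕ → ℤ) (a : ℤ) (H : ℕ),
    |(S P r z a H : ℝ) - V P z * H| ≤ 3 ^ z := by
  induction z with
  | zero => intro r a H; rw [S_zero, V_zero]; simp
  | succ z ih =>
    intro r a H
    by_cases h : (z + 1).Prime ∧ z + 1 ∈ P
    · obtain ⟨r', a', N, h1, h2⟩ := fiber (P := P) (r := r) h.1 a H
      have h3 := buchstab (r := r) h a H
      have h4 : (S P r (z + 1) a H : ℝ) = S P r z a H - S P r' z a' N := by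
        rw [← h2 z (by omega)]
        have : ((S P r (z + 1) a H + fib P r (z + 1) z a H : ℕ) : ℝ) = S P r z a H := by rw [h3]
        push_cast at this
        linarith
      rw [h4, V_succ h]
      have e1 := ih r a H
      have e2 := ih r' a' N
      have hV := V_pos P z
      have hV1 := V_le_one P z
      have e3 : |V P z * ((N : ℝ) - H / ((z + 1 : ℕ) : ℝ))| ≤ 1 := by
        rw [abs_mul, abs_of_pos hV]
        calc V P z * |(N : ℝ) - H / ((z + 1 : ℕ) : ℝ)| ≤ 1 * 1 :=
              mul_le_mul hV1 h1 (abs_nonneg _) (by norm_num)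
          _ = 1 := by norm_num
      have e4 : (S P r z a H : ℝ) - S P r' z a' N - V P z * (1 - 1 / ((z + 1 : ℕ) : ℝ)) * H
          = (S P r z a H - V P z * H) - (S P r' z a' N - V P z * N)
            - V P z * ((N : ℝ) - H / ((z + 1 : ℕ) : ℝ)) := by ring
      rw [e4]
      have hpow : (1 : ℝ) ≤ 3 ^ z := one_le_pow₀ (by norm_num)
      rw [abs_le] at e1 e2 e3 ⊢
      constructor
      · rw [pow_succ]; linarith [e1.1, e1.2, e2.1, e2.2, e3.1, e3.2]
      · rw [pow_succ]; linarith [e1.1, e1.2, e2.1, e2.2, e3.1, e3.2]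
    · rw [S_succ_not h, V_succ_not h]
      have e1 := ih r a H
      have hpow : (1 : ℝ) ≤ 3 ^ z := one_le_pow₀ (by norm_num)
      refine e1.trans ?_
      rw [pow_succ]; linarith

/-- iterated Buchstab inequality from level `z0` to level `z` -/
lemma buchstab_sum (P : Set ℕ) (r : ℕ → ℤ) (a : ℤ) (H z0 : ℕ) (z : ℕ) (hz : z0 ≤ z) :
    |(S P r z a H : ℝ) - V P z * H| ≤ 3 ^ z0 +
      ∑ p ∈ (prs P z).filter (fun p => z0 < p), |(fib P r p (p - 1) a H : ℝ) - V P (p - 1) * (H / p)| := by
  classical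
  induction z, hz using Nat.le_induction with
  | base =>
    have h1 := legendre P z0 r a H
    have h2 : 0 ≤ ∑ p ∈ (prs P z0).filter (fun p => z0 < p),
        |(fib P r p (p - 1) a H : ℝ) - V P (p - 1) * (H / p)| :=
      Finset.sum_nonneg fun _ _ => abs_nonneg _
    linarith
  | succ z hz ih =>
    by_cases h : (z + 1).Prime ∧ z + 1 ∈ P
    · have h3 := buchstab (r := r) h a H
      have h4 : (S P r (z + 1) a H : ℝ) = S P r z a H - fib P r (z + 1) z a H := by
        have : ((S P r (z + 1) a H + fib P r (z + 1) z a H : ℕ) : ℝ) = S P r z a H := by rw [h3]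
        push_cast at this
        linarith
      rw [h4, V_succ h, prs_succ h, Finset.filter_insert, if_pos (by omega), Finset.sum_insert]
      · have e4 : (S P r z a H : ℝ) - fib P r (z + 1) z a H - V P z * (1 - 1 / ((z + 1 : ℕ) : ℝ)) * H
            = (S P r z a H - V P z * H)
              - (fib P r (z + 1) (z + 1 - 1) a H - V P (z + 1 - 1) * (H / ((z + 1 : ℕ) : ℝ))) := by
          simp only [Nat.add_sub_cancel]
          ring
        rw [e4]
        have e5 := abs_sub (S P r z a H - V P z * H : ℝ)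
          (fib P r (z + 1) (z + 1 - 1) a H - V P (z + 1 - 1) * (H / ((z + 1 : ℕ) : ℝ)))
        linarith
      · rw [Finset.mem_filter]
        rintro ⟨h5, _⟩
        exact notMem_prs_succ h5
    · rw [S_succ_not h, V_succ_not h, prs_succ_not h]
      exact ih


/-- `∑_{i < n} e^{-i} ≤ 2` -/
lemma sum_exp_le (n : ℕ) : ∑ i ∈ Finset.range n, Real.exp (-(i : ℝ)) ≤ 2 := by
  have h1 : ∀ i : ℕ, Real.exp (-(i : ℝ)) = (Real.exp (-1)) ^ i := by
    intro i; rw [← Real.exp_nat_mul]; congr 1; ring
  simp_rw [h1]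
  have h2 : Real.exp (-1) ≤ 1 / 2 := by
    rw [Real.exp_neg, inv_eq_one_div]
    apply one_div_le_one_div_of_le (by norm_num)
    have := Real.add_one_le_exp (1 : ℝ); linarith
  have h3 : ∀ i ∈ Finset.range n, (Real.exp (-1)) ^ i ≤ (1 / 2 : ℝ) ^ i := fun i _ =>
    pow_le_pow_left₀ (Real.exp_pos _).le h2 i
  refine (Finset.sum_le_sum h3).trans ?_
  have h4 : ∑ i ∈ Finset.range n, (1 / 2 : ℝ) ^ i = 2 * (1 - (1 / 2) ^ n) := by
    rw [geom_sum_eq (by norm_num)]; ring
  rw [h4]
  have : (0 : ℝ) ≤ (1 / 2) ^ n := by positivity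
  linarith

/-- weighted prime sum -/
lemma weighted {c : ℝ} (hc : 1 ≤ c)
    (h1 : ∀ w z : ℝ, 1 ≤ w → w ≤ z →
      ∑ p ∈ (Finset.Icc 1 ⌊z⌋₊).filter (fun p : ℕ => p.Prime ∧ w < p), Real.log p / p
        ≤ Real.log (z / w) + c) (z : ℕ) (hz : 2 ≤ z) (m : ℝ) (hm : 1 ≤ m) :
    ∑ p ∈ prs Set.univ z, Real.log p / p * (Real.log p / Real.log z) ^ m ≤
      2 * (Real.log z / m + c) := by
  classical
  have hzR : (2 : ℝ) ≤ z := by exact_mod_cast hz
  have hlz : 0 < Real.log z := Real.log_pos (by linarith)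
  have hx : ∀ p ∈ prs Set.univ z, 0 < Real.log p / Real.log z ∧ Real.log p / Real.log z ≤ 1 := by
    intro p hp
    obtain ⟨h2, h3, _⟩ := mem_prs.mp hp
    have hp1 : (1 : ℝ) < p := by exact_mod_cast h3.one_lt
    refine ⟨div_pos (Real.log_pos hp1) hlz, ?_⟩
    rw [div_le_one hlz]
    exact Real.log_le_log (by linarith) (by exact_mod_cast h2)
  let idx : ℕ → ℕ := fun p => ⌊m * (1 - Real.log p / Real.log z)⌋₊
  have hmaps : ∀ p ∈ prs Set.univ z, idx p ∈ Finset.range (⌊m⌋₊ + 1) := by
    intro p hp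
    obtain ⟨h2, h3⟩ := hx p hp
    rw [Finset.mem_range, Nat.lt_succ_iff]
    apply Nat.floor_le_floor
    nlinarith
  rw [← Finset.sum_fiberwise_of_maps_to hmaps]
  have hterm : ∀ i ∈ Finset.range (⌊m⌋₊ + 1),
      ∑ p ∈ (prs Set.univ z).filter (fun p => idx p = i), Real.log p / p * (Real.log p / Real.log z) ^ m
        ≤ Real.exp (-(i : ℝ)) * (Real.log z / m + c) := by
    intro i hi
    have hm0 : 0 < m := by linarith
    -- endpoints
    set w : ℝ := max 1 (Real.exp (Real.log z * (1 - ((i : ℝ) + 1) / m))) with hw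
    set y : ℝ := Real.exp (Real.log z * (1 - (i : ℝ) / m)) with hy
    have him : (i : ℝ) ≤ m := by
      rw [Finset.mem_range, Nat.lt_succ_iff] at hi
      exact (Nat.cast_le.mpr hi).trans (Nat.floor_le hm0.le)
    have h0 : 0 ≤ 1 - (i : ℝ) / m := by
      have : (i : ℝ) / m ≤ 1 := by rw [div_le_one hm0]; exact him
      linarith
    have hwy : w ≤ y := by
      rw [hw, hy]
      apply max_le
      · rw [Real.one_le_exp_iff]; positivity
      · rw [Real.exp_le_exp]
        apply mul_le_mul_of_nonneg_left _ hlz.le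
        have : (i : ℝ) / m ≤ ((i : ℝ) + 1) / m := by gcongr; linarith
        linarith
    have hlogle : Real.log (y / w) ≤ Real.log z / m := by
      have hw0 : 0 < w := lt_of_lt_of_le one_pos (le_max_left _ _)
      rw [Real.log_div (by positivity) hw0.ne', hy, Real.log_exp]
      have h2 : Real.log z * (1 - ((i : ℝ) + 1) / m) ≤ Real.log w := by
        rw [Real.le_log_iff_exp_le hw0]; exact le_max_right _ _
      have h3 : Real.log z * (1 - (i : ℝ) / m) - Real.log z * (1 - ((i : ℝ) + 1) / m) = Real.log z / m := by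
        field_simp; ring
      linarith
    have hsub : (prs Set.univ z).filter (fun p => idx p = i) ⊆
        (Finset.Icc 1 ⌊y⌋₊).filter (fun p : ℕ => p.Prime ∧ w < p) := by
      intro p hp
      rw [Finset.mem_filter] at hp
      obtain ⟨hp1, hp2⟩ := hp
      obtain ⟨h2, h3, _⟩ := mem_prs.mp hp1
      obtain ⟨hx1, hx2⟩ := hx p hp1
      have hpR : (1 : ℝ) < p := by exact_mod_cast h3.one_lt
      have hp0 : (0 : ℝ) < p := by linarith
      have hnn : 0 ≤ m * (1 - Real.log p / Real.log z) := by nlinarith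
      have hf1 : (i : ℝ) ≤ m * (1 - Real.log p / Real.log z) := by
        rw [← hp2]; exact Nat.floor_le hnn
      have hf2 : m * (1 - Real.log p / Real.log z) < (i : ℝ) + 1 := by
        rw [← hp2]; exact Nat.lt_floor_add_one _
      have hlp : Real.log p = Real.log z * (Real.log p / Real.log z) := by field_simp
      rw [Finset.mem_filter, Finset.mem_Icc]
      refine ⟨⟨h3.one_lt.le, ?_⟩, h3, ?_⟩
      · apply Nat.le_floor
        rw [hy, ← Real.log_le_iff_le_exp hp0, hlp]
        apply mul_le_mul_of_nonneg_left _ hlz.le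
        have : (i : ℝ) / m ≤ 1 - Real.log p / Real.log z := by
          rw [div_le_iff₀ hm0]; linarith
        linarith
      · rw [hw]
        apply max_lt hpR
        rw [← Real.lt_log_iff_exp_lt hp0, hlp]
        apply mul_lt_mul_of_pos_left _ hlz
        have : 1 - Real.log p / Real.log z < ((i : ℝ) + 1) / m := by
          rw [lt_div_iff₀ hm0]; linarith
        linarith
    have hpt : ∀ p ∈ (prs Set.univ z).filter (fun p => idx p = i),
        Real.log p / p * (Real.log p / Real.log z) ^ m ≤ Real.exp (-(i : ℝ)) * (Real.log p / p) := by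
      intro p hp
      rw [Finset.mem_filter] at hp
      obtain ⟨hp1, hp2⟩ := hp
      obtain ⟨h2, h3, _⟩ := mem_prs.mp hp1
      obtain ⟨hx1, hx2⟩ := hx p hp1
      have hpR : (1 : ℝ) < p := by exact_mod_cast h3.one_lt
      have hnn : 0 ≤ m * (1 - Real.log p / Real.log z) := by nlinarith
      have hf1 : (i : ℝ) ≤ m * (1 - Real.log p / Real.log z) := by
        rw [← hp2]; exact Nat.floor_le hnn
      have h5 : (Real.log p / Real.log z) ^ m ≤ Real.exp (-(i : ℝ)) := by
        rw [Real.rpow_def_of_pos hx1, Real.exp_le_exp]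
        have h6 := Real.log_le_sub_one_of_pos hx1
        nlinarith
      have h7 : 0 ≤ Real.log p / p := div_nonneg (Real.log_nonneg hpR.le) (by linarith)
      nlinarith
    refine (Finset.sum_le_sum hpt).trans ?_
    rw [← Finset.mul_sum]
    apply mul_le_mul_of_nonneg_left _ (Real.exp_pos _).le
    have h8 := h1 w y (le_max_left _ _) hwy
    have h9 : ∑ p ∈ (prs Set.univ z).filter (fun p => idx p = i), Real.log p / p ≤
        ∑ p ∈ (Finset.Icc 1 ⌊y⌋₊).filter (fun p : ℕ => p.Prime ∧ w < p), Real.log p / p := by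
      apply Finset.sum_le_sum_of_subset_of_nonneg hsub
      intro p hp _
      rw [Finset.mem_filter] at hp
      exact div_nonneg (Real.log_nonneg (by exact_mod_cast hp.2.1.one_lt.le)) (by positivity)
    linarith
  refine (Finset.sum_le_sum hterm).trans ?_
  rw [← Finset.sum_mul]
  have h10 : 0 ≤ Real.log z / m + c := by positivity
  exact mul_le_mul_of_nonneg_right (sum_exp_le _) h10


/-- the estimate that is proved by induction on `z` -/
def Good (A u0 : ℝ) (z : ℕ) : Prop := ∀ (P : Set ℕ) (r : ℕ → ℤ) (a : ℤ) (H : ℕ),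
    u0 * Real.log z ≤ Real.log H →
    |(S P r z a H : ℝ) - V P z * H| ≤
      Real.exp (-A * (Real.log H / Real.log z - u0)) * (V P z * H)

lemma fibre_bound {A c u0 : ℝ} {z0 p : ℕ} (hA : 1 ≤ A) (hc : 1 ≤ c) (hz0 : 40 ≤ z0) (hu0 : 4 ≤ u0)
    (hV : ∀ (P : Set ℕ) (w z : ℕ), 2 ≤ w → w ≤ z → V P w ≤ c * (Real.log z / Real.log w) * V P z)
    (hVl : ∀ (P : Set ℕ) (z : ℕ), 2 ≤ z → 1 / (c * Real.log z) ≤ V P z)
    (hK : 2 * c * Real.log z0 * 3 ^ z0 ≤ Real.exp ((u0 - 1) * Real.log z0))
    (hp : z0 < p) (hIH : ∀ z' < p, z0 ≤ z' → Good A u0 z')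
    (P : Set ℕ) (r : ℕ → ℤ) (a : ℤ) (N : ℕ)
    (hN : (u0 - 1) * Real.log p - Real.log 2 ≤ Real.log N) :
    |(S P r (p - 1) a N : ℝ) - V P (p - 1) * N| ≤
      4 * c * Real.exp (-A * (Real.log N / Real.log p - u0)) * (V P (p - 1) * N) := by
  have hz0R : (40 : ℝ) ≤ z0 := by exact_mod_cast hz0
  have hpR : (z0 : ℝ) + 1 ≤ p := by exact_mod_cast hp
  have hp1R : ((p - 1 : ℕ) : ℝ) = p - 1 := by
    rw [Nat.cast_sub (by omega)]; simp
  have hl2 : 0 < Real.log 2 := Real.log_pos (by norm_num)
  have hl2' : Real.log 2 ≤ 0.7 := by have := Real.log_two_lt_d9; linarith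
  have hlz0 : 3.6 ≤ Real.log z0 := by
    have h1 : Real.log 32 ≤ Real.log z0 := Real.log_le_log (by norm_num) (by linarith)
    have h2 : Real.log 32 = 5 * Real.log 2 := by
      rw [show (32 : ℝ) = 2 ^ 5 by norm_num, Real.log_pow]; norm_num
    -- log 40 ≥ 3.68
    have h3 : Real.log 40 ≤ Real.log z0 := Real.log_le_log (by norm_num) hz0R
    have h4 : Real.log 40 = 5 * Real.log 2 + Real.log (5 / 4) := by
      rw [← h2, ← Real.log_mul (by norm_num) (by norm_num)]; norm_num
    have h5 : 1 / 5 ≤ Real.log (5 / 4) := by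
      have := Real.one_sub_inv_le_log_of_pos (show (0 : ℝ) < 5 / 4 by norm_num)
      norm_num at this ⊢; linarith
    have := Real.log_two_gt_d9
    linarith
  have hlp1 : Real.log z0 ≤ Real.log (p - 1 : ℕ) := by
    rw [hp1R]; exact Real.log_le_log (by linarith) (by linarith)
  have hlp : Real.log (p - 1 : ℕ) ≤ Real.log p := by
    rw [hp1R]; exact Real.log_le_log (by linarith) (by linarith)
  have hlN : 0 < Real.log N := by nlinarith
  have hNpos : (0 : ℝ) < N := by
    rcases Nat.eq_zero_or_pos N with h | h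
    · subst h; simp at hlN
    · exact_mod_cast h
  have hVp : 0 < V P (p - 1) := V_pos _ _
  have hVN : 0 < V P (p - 1) * N := mul_pos hVp hNpos
  by_cases hcase : u0 * Real.log (p - 1 : ℕ) ≤ Real.log N
  · -- case A
    have h1 := hIH (p - 1) (by omega) (by omega) P r a N hcase
    refine h1.trans ?_
    apply mul_le_mul_of_nonneg_right _ hVN.le
    have h2 : Real.exp (-A * (Real.log N / Real.log (p - 1 : ℕ) - u0)) ≤
        Real.exp (-A * (Real.log N / Real.log p - u0)) := by
      rw [Real.exp_le_exp]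
      have h3 : Real.log N / Real.log p ≤ Real.log N / Real.log (p - 1 : ℕ) :=
        div_le_div_of_nonneg_left hlN.le (by linarith) hlp
      nlinarith
    have h4 := Real.exp_pos (-A * (Real.log N / Real.log p - u0))
    nlinarith
  · -- case B
    push Not at hcase
    have hexp : 1 ≤ Real.exp (-A * (Real.log N / Real.log p - u0)) := by
      rw [Real.one_le_exp_iff]
      have h3 : Real.log N / Real.log p < u0 := by
        rw [div_lt_iff₀ (by linarith)]
        nlinarith
      nlinarith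
    have hS : (S P r (p - 1) a N : ℝ) ≤ 4 * c * (V P (p - 1) * N) := by
      set y : ℝ := Real.exp (Real.log N / u0) with hy
      set z2 : ℕ := ⌊y⌋₊ with hz2
      have hu00 : 0 < u0 := by linarith
      by_cases hz2z0 : z0 ≤ z2
      · have hz2R : (z2 : ℝ) ≤ y := Nat.floor_le (Real.exp_pos _).le
        have hz2R' : y < z2 + 1 := Nat.lt_floor_add_one _
        have hz2z0R : (z0 : ℝ) ≤ z2 := by exact_mod_cast hz2z0
        have hlz2 : u0 * Real.log z2 ≤ Real.log N := by
          have h1 : Real.log z2 ≤ Real.log N / u0 := by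
            rw [Real.log_le_iff_le_exp (by linarith)]; exact hz2R
          calc u0 * Real.log z2 ≤ u0 * (Real.log N / u0) := mul_le_mul_of_nonneg_left h1 hu00.le
            _ = Real.log N := by field_simp
        have hz2lt : z2 < p - 1 := by
          have h1 : Real.log z2 < Real.log (p - 1 : ℕ) := by
            have : u0 * Real.log z2 < u0 * Real.log (p - 1 : ℕ) := lt_of_le_of_lt hlz2 hcase
            exact lt_of_mul_lt_mul_left this hu00.le
          have h2 := (Real.log_lt_log_iff (by linarith) (by rw [hp1R]; linarith)).mp h1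
          exact_mod_cast h2
        have h1 := hIH z2 (by omega) hz2z0 P r a N hlz2
        have h2 : Real.exp (-A * (Real.log N / Real.log z2 - u0)) ≤ 1 := by
          rw [Real.exp_le_one_iff]
          have h3 : u0 ≤ Real.log N / Real.log z2 := by
            rw [le_div_iff₀ (Real.log_pos (by linarith))]; exact hlz2
          nlinarith
        have hVz2 : 0 < V P z2 * N := mul_pos (V_pos _ _) hNpos
        have h4 : (S P r z2 a N : ℝ) ≤ 2 * (V P z2 * N) := by
          have h5 := (abs_le.mp h1).2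
          nlinarith
        have h5 : (S P r (p - 1) a N : ℝ) ≤ S P r z2 a N := by
          exact_mod_cast S_anti P r hz2lt.le a N
        have h6 := hV P z2 (p - 1) (by omega) hz2lt.le
        have h7 : Real.log (p - 1 : ℕ) / Real.log z2 ≤ 2 := by
          rw [div_le_iff₀ (Real.log_pos (by linarith))]
          -- log z2 ≥ log N / u0 - log 2
          have h8 : Real.log N / u0 - Real.log 2 ≤ Real.log z2 := by
            have h9 : y / 2 ≤ z2 := by linarith
            have h10 : Real.log (y / 2) ≤ Real.log z2 :=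
              Real.log_le_log (by positivity) h9
            rw [Real.log_div (Real.exp_pos _).ne' (by norm_num), Real.log_exp] at h10
            exact h10
          have h11 : 3 / 4 * Real.log p - 0.18 ≤ Real.log N / u0 := by
            rw [le_div_iff₀ hu00]
            have h12 : 0 ≤ (u0 - 4) * Real.log p := mul_nonneg (by linarith) (by linarith)
            nlinarith
          linarith
        have h8 : V P z2 ≤ 2 * c * V P (p - 1) := by
          refine h6.trans ?_
          have : c * (Real.log (p - 1 : ℕ) / Real.log z2) ≤ 2 * c := by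
            have := mul_le_mul_of_nonneg_left h7 (by linarith : (0:ℝ) ≤ c)
            linarith
          exact mul_le_mul_of_nonneg_right this hVp.le
        have h9 : V P z2 * N ≤ 2 * c * V P (p - 1) * N := mul_le_mul_of_nonneg_right h8 hNpos.le
        linarith
      · push Not at hz2z0
        have hylt : y < z0 := by
          have := (Nat.floor_lt (Real.exp_pos _).le).mp hz2z0
          exact this
        have hlNz0 : Real.log N < u0 * Real.log z0 := by
          have h1 : Real.log N / u0 < Real.log z0 := by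
            rw [Real.lt_log_iff_exp_lt (by linarith)]; exact hylt
          rw [div_lt_iff₀ hu00] at h1
          linarith
        have hlp2 : Real.log p ≤ 2 * Real.log z0 := by
          have : (u0 - 1) * Real.log p < u0 * Real.log z0 + 0.7 := by linarith
          nlinarith
        have h1 := (abs_le.mp (legendre P z0 r a N)).2
        have h2 : (3 : ℝ) ^ z0 ≤ V P z0 * N := by
          have h3 := hVl P z0 (by omega)
          have h4 : Real.exp ((u0 - 1) * Real.log z0) / 2 ≤ N := by
            have h5 : (u0 - 1) * Real.log z0 - Real.log 2 ≤ Real.log N := by nlinarith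
            have h6 := Real.exp_le_exp.mpr h5
            rw [Real.exp_sub, Real.exp_log (by norm_num), Real.exp_log hNpos] at h6
            exact h6
          have h5 : c * Real.log z0 * 3 ^ z0 ≤ N := by linarith
          have h6 : 0 < c * Real.log z0 := by nlinarith
          have h7 : (3 : ℝ) ^ z0 ≤ 1 / (c * Real.log z0) * N := by
            rw [one_div, inv_mul_eq_div, le_div_iff₀ h6]; linarith
          refine h7.trans (mul_le_mul_of_nonneg_right h3 hNpos.le)
        have h5 : (S P r (p - 1) a N : ℝ) ≤ S P r z0 a N := by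
          exact_mod_cast S_anti P r (by omega) a N
        have h6 := hV P z0 (p - 1) (by omega) (by omega)
        have h7 : Real.log (p - 1 : ℕ) / Real.log z0 ≤ 2 := by
          rw [div_le_iff₀ (by linarith)]; linarith
        have h8 : V P z0 ≤ 2 * c * V P (p - 1) := by
          refine h6.trans ?_
          have : c * (Real.log (p - 1 : ℕ) / Real.log z0) ≤ 2 * c := by
            have := mul_le_mul_of_nonneg_left h7 (by linarith : (0:ℝ) ≤ c)
            linarith
          exact mul_le_mul_of_nonneg_right this hVp.le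
        have h9 : V P z0 * N ≤ 2 * c * V P (p - 1) * N := mul_le_mul_of_nonneg_right h8 hNpos.le
        linarith
    have hS0 : (0 : ℝ) ≤ S P r (p - 1) a N := by positivity
    have hprod : 4 * c * (V P (p - 1) * N) ≤
        4 * c * Real.exp (-A * (Real.log N / Real.log p - u0)) * (V P (p - 1) * N) := by
      have h1 : 4 * c * 1 ≤ 4 * c * Real.exp (-A * (Real.log N / Real.log p - u0)) :=
        mul_le_mul_of_nonneg_left hexp (by linarith)
      have := mul_le_mul_of_nonneg_right h1 hVN.le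
      linarith
    have h4c : V P (p - 1) * N ≤ 4 * c * (V P (p - 1) * N) := by
      have := mul_le_mul_of_nonneg_right (by linarith : (1 : ℝ) ≤ 4 * c) hVN.le
      linarith
    rw [abs_le]
    constructor
    · linarith
    · linarith


lemma log_half {p : ℕ} (hp : 3 ≤ p) : Real.log p ≤ 2 * Real.log (p - 1 : ℕ) := by
  have hpR : (3 : ℝ) ≤ p := by exact_mod_cast hp
  have hp1R : ((p - 1 : ℕ) : ℝ) = p - 1 := by
    rw [Nat.cast_sub (by omega)]; simp
  have h1 : (p : ℝ) ≤ ((p - 1 : ℕ) : ℝ) ^ 2 := by rw [hp1R]; nlinarith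
  have h2 := Real.log_le_log (by linarith) h1
  rw [Real.log_pow] at h2
  exact_mod_cast h2

/-- the inductive step -/
lemma step {A c u0 : ℝ} {z0 z : ℕ} (hA : 1 ≤ A) (hc : 1 ≤ c) (hz0 : 40 ≤ z0)
    (h1 : ∀ w z : ℝ, 1 ≤ w → w ≤ z →
      ∑ p ∈ (Finset.Icc 1 ⌊z⌋₊).filter (fun p : ℕ => p.Prime ∧ w < p), Real.log p / p
        ≤ Real.log (z / w) + c)
    (hV : ∀ (P : Set ℕ) (w z : ℕ), 2 ≤ w → w ≤ z → V P w ≤ c * (Real.log z / Real.log w) * V P z)
    (hVl : ∀ (P : Set ℕ) (z : ℕ), 2 ≤ z → 1 / (c * Real.log z) ≤ V P z)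
    (hz0A : A ≤ Real.log z0) (hz0c : 128 * c ^ 3 * Real.exp (2 * A) ≤ Real.log z0)
    (hu0 : (z0 : ℝ) + 4 * c + 4 + 128 * c ^ 2 * Real.exp (2 * A) ≤ u0)
    (hz : z0 ≤ z) (hIH : ∀ z' < z, z0 ≤ z' → Good A u0 z') : Good A u0 z := by
  classical
  intro P r a H hH
  have hz0R : (40 : ℝ) ≤ z0 := by exact_mod_cast hz0
  have hzR : (z0 : ℝ) ≤ z := by exact_mod_cast hz
  have hl2 : 0 < Real.log 2 := Real.log_pos (by norm_num)
  have hl2' : Real.log 2 ≤ 0.7 := by have := Real.log_two_lt_d9; linarith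
  have hlz0 : 3.6 ≤ Real.log z0 := by
    have h3 : Real.log 40 ≤ Real.log z0 := Real.log_le_log (by norm_num) hz0R
    have h4 : Real.log 40 = 5 * Real.log 2 + Real.log (5 / 4) := by
      have h2 : Real.log 32 = 5 * Real.log 2 := by
        rw [show (32 : ℝ) = 2 ^ 5 by norm_num, Real.log_pow]; norm_num
      rw [← h2, ← Real.log_mul (by norm_num) (by norm_num)]; norm_num
    have h5 : 1 / 5 ≤ Real.log (5 / 4) := by
      have := Real.one_sub_inv_le_log_of_pos (show (0 : ℝ) < 5 / 4 by norm_num)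
      norm_num at this ⊢; linarith
    have := Real.log_two_gt_d9
    linarith
  have hlz : Real.log z0 ≤ Real.log z := Real.log_le_log (by linarith) hzR
  set Lz := Real.log z with hLz
  have hLpos : 0 < Lz := by linarith
  have hexp2A : 0 < Real.exp (2 * A) := Real.exp_pos _
  have hc2 : 0 < c ^ 2 * Real.exp (2 * A) := by positivity
  have hc3 : 0 < c ^ 3 * Real.exp (2 * A) := by positivity
  have hu4 : 4 ≤ u0 := by nlinarith
  have hu0z : (z0 : ℝ) + 4 * c ≤ u0 - 2 := by nlinarith
  -- size of H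
  have hlH : 0 < Real.log H := by nlinarith
  have hHpos : (0 : ℝ) < H := by
    rcases Nat.eq_zero_or_pos H with h | h
    · subst h; simp at hlH
    · exact_mod_cast h
  set u := Real.log H / Lz with hu
  have huL : u * Lz = Real.log H := by rw [hu]; field_simp
  have hu0u : u0 ≤ u := by rw [hu, le_div_iff₀ hLpos]; exact hH
  have hVz := V_pos P z
  have hVH : 0 < V P z * H := mul_pos hVz hHpos
  have hbig : ∀ y : ℕ, z0 ≤ y → 4 * c * 3 ^ z0 ≤ Real.exp ((u0 - 2) * Real.log y) := by
    intro y hy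
    have hyR : (z0 : ℝ) ≤ y := by exact_mod_cast hy
    have hly : Real.log z0 ≤ Real.log y := Real.log_le_log (by linarith) hyR
    have h3 : (3 : ℝ) ^ z0 ≤ Real.exp (z0 * 2) := by
      rw [show (z0 : ℝ) * 2 = z0 * 2 from rfl, Real.exp_nat_mul]
      apply pow_le_pow_left₀ (by norm_num)
      have := Real.add_one_le_exp (2 : ℝ); linarith
    have h4 : 4 * c ≤ Real.exp (4 * c) := by
      have := Real.add_one_le_exp (4 * c); linarith
    calc 4 * c * 3 ^ z0 ≤ Real.exp (4 * c) * Real.exp (z0 * 2) :=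
          mul_le_mul h4 h3 (by positivity) (Real.exp_pos _).le
      _ = Real.exp (4 * c + z0 * 2) := by rw [← Real.exp_add]
      _ ≤ Real.exp ((u0 - 2) * Real.log y) := by
          rw [Real.exp_le_exp]
          have : ((z0 : ℝ) + 4 * c) * 3.6 ≤ (u0 - 2) * Real.log y :=
            mul_le_mul hu0z (by linarith) (by norm_num) (by linarith)
          nlinarith
  have hK : 2 * c * Real.log z0 * 3 ^ z0 ≤ Real.exp ((u0 - 1) * Real.log z0) := by
    have h3 := hbig z0 le_rfl
    have h4 : Real.log z0 ≤ z0 := (Real.log_le_self (by linarith))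
    have h5 : Real.exp ((u0 - 1) * Real.log z0) = Real.exp ((u0 - 2) * Real.log z0) * z0 := by
      rw [← Real.exp_log (show (0 : ℝ) < z0 by linarith), ← Real.exp_add, Real.exp_log (by linarith)]
      congr 1; ring
    rw [h5]
    have h6 : 4 * c * 3 ^ z0 * z0 ≤ Real.exp ((u0 - 2) * Real.log z0) * z0 :=
      mul_le_mul_of_nonneg_right h3 (by linarith)
    have h7 : 2 * c * Real.log z0 * 3 ^ z0 ≤ 4 * c * 3 ^ z0 * z0 := by
      have h8 : (0 : ℝ) < c * 3 ^ z0 := by positivity
      nlinarith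
    linarith
  -- H is large
  have hHz : Real.exp ((u0 - 2) * Lz) * (z : ℝ) ^ 2 ≤ H := by
    have hz0' : (0 : ℝ) < z := by linarith
    have : Real.exp ((u0 - 2) * Lz) * (z : ℝ) ^ 2 = Real.exp (u0 * Lz) := by
      have h3 : (z : ℝ) ^ 2 = Real.exp (2 * Lz) := by
        rw [hLz, ← Real.log_rpow hz0', Real.exp_log (by positivity)]; norm_cast
      rw [h3, ← Real.exp_add]; congr 1; ring
    rw [this, ← Real.exp_log hHpos, Real.exp_le_exp]
    exact hH
  have hbz := hbig z hz
  have h2z : 2 * (z : ℝ) ≤ H := by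
    have h3 : (1 : ℝ) ≤ 3 ^ z0 := one_le_pow₀ (by norm_num)
    have h4 : (4 : ℝ) ≤ 4 * c * 3 ^ z0 := by nlinarith
    have h5 : (4 : ℝ) ≤ Real.exp ((u0 - 2) * Lz) := h4.trans hbz
    nlinarith
  -- main sum
  have hsum := buchstab_sum P r a H z0 z hz
  set E := Real.exp (-A * (u - u0)) with hE
  have hEpos : 0 < E := Real.exp_pos _
  have hterm : ∀ p ∈ (prs P z).filter (fun p => z0 < p),
      |(fib P r p (p - 1) a H : ℝ) - V P (p - 1) * (H / p)| ≤
        1 + 16 * c ^ 2 * Real.exp (2 * A) * E * (V P z * H) * (1 / Lz) *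
          (Real.log p / p * (Real.log p / Lz) ^ (A * u - 2)) := by
    intro p hp
    rw [Finset.mem_filter] at hp
    obtain ⟨hp1, hp2⟩ := hp
    obtain ⟨hpz, hpp, hpP⟩ := mem_prs.mp hp1
    have hpR : (z0 : ℝ) + 1 ≤ p := by exact_mod_cast hp2
    have hp0 : (0 : ℝ) < p := by linarith
    have hpzR : (p : ℝ) ≤ z := by exact_mod_cast hpz
    have hlp : Real.log z0 ≤ Real.log p := Real.log_le_log (by linarith) (by linarith)
    have hlpz : Real.log p ≤ Lz := Real.log_le_log hp0 hpzR
    have hlp0 : 0 < Real.log p := by linarith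
    obtain ⟨r', a', N, hN1, hN2⟩ := fiber (P := P) (r := r) hpp a H
    rw [hN2 (p - 1) (by omega)]
    have hHp : 2 ≤ H / (p : ℝ) := by rw [le_div_iff₀ hp0]; linarith
    rw [abs_le] at hN1
    have hNlow : H / (2 * p) ≤ (N : ℝ) := by
      have : (H : ℝ) / (2 * p) = H / p / 2 := by rw [div_div, mul_comm]
      rw [this]; linarith [hN1.1]
    have hNup : (N : ℝ) ≤ 2 * (H / p) := by linarith [hN1.2]
    have hNpos : (0 : ℝ) < N := lt_of_lt_of_le (by positivity) hNlow
    have hlN : Real.log H - Real.log 2 - Real.log p ≤ Real.log N := by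
      have h3 := Real.log_le_log (by positivity) hNlow
      rw [Real.log_div hHpos.ne' (by positivity), Real.log_mul (by norm_num) hp0.ne'] at h3
      linarith
    have hlN' : (u0 - 1) * Real.log p - Real.log 2 ≤ Real.log N := by
      have : u0 * Real.log p ≤ u0 * Lz := mul_le_mul_of_nonneg_left hlpz (by linarith)
      linarith
    have hfb := fibre_bound hA hc hz0 hu4 hV hVl hK hp2
      (fun z' hz' => hIH z' (by omega)) P r' a' N hlN'
    -- exponent comparison
    have hex1 : Real.exp (-A * (Real.log N / Real.log p - u0)) ≤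
        Real.exp (2 * A) * E * (Real.log p / Lz) ^ (A * u) := by
      have hxp : 0 < Real.log p / Lz := div_pos hlp0 hLpos
      rw [Real.rpow_def_of_pos hxp, hE, ← Real.exp_add, ← Real.exp_add, Real.exp_le_exp]
      have h3 : Real.log H / Real.log p - 2 ≤ Real.log N / Real.log p := by
        rw [sub_le_iff_le_add, div_le_iff₀ hlp0, add_mul, div_mul_cancel₀ _ hlp0.ne']
        linarith
      have h4 : Real.log H / Real.log p = u * (Lz / Real.log p) := by
        rw [← huL]; field_simp
      have h5 : 1 - Real.log (Real.log p / Lz) ≤ Lz / Real.log p := by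
        have h6 := Real.add_one_le_exp (-Real.log (Real.log p / Lz))
        rw [Real.exp_neg, Real.exp_log hxp, inv_div] at h6
        linarith
      have hu_pos : 0 < u := by linarith
      have h7 : u * (1 - Real.log (Real.log p / Lz)) ≤ u * (Lz / Real.log p) :=
        mul_le_mul_of_nonneg_left h5 hu_pos.le
      have h8 : u * (1 - Real.log (Real.log p / Lz)) - 2 ≤ Real.log N / Real.log p := by
        rw [h4] at h3; linarith
      have h9 : A * (u * (1 - Real.log (Real.log p / Lz)) - 2) ≤ A * (Real.log N / Real.log p) :=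
        mul_le_mul_of_nonneg_left h8 (by linarith)
      nlinarith
    have hV1 : V P (p - 1) ≤ 2 * c * (Lz / Real.log p) * V P z := by
      have h3 := hV P (p - 1) z (by omega) (by omega)
      refine h3.trans (mul_le_mul_of_nonneg_right ?_ hVz.le)
      have h4 : Lz / Real.log (p - 1 : ℕ) ≤ 2 * (Lz / Real.log p) := by
        have h5 := log_half (p := p) (by omega)
        have h6 : 0 < Real.log (p - 1 : ℕ) := by linarith
        rw [div_le_iff₀ h6]
        have h7 : 2 * (Lz / Real.log p) * Real.log (p - 1 : ℕ) =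
            Lz * ((2 * Real.log (p - 1 : ℕ)) / Real.log p) := by ring
        rw [h7]
        have h8 : 1 ≤ (2 * Real.log (p - 1 : ℕ)) / Real.log p := by
          rw [le_div_iff₀ hlp0]; linarith
        nlinarith
      have := mul_le_mul_of_nonneg_left h4 (by linarith : (0 : ℝ) ≤ c)
      linarith
    have hVp := V_pos P (p - 1)
    have hVNle : V P (p - 1) * N ≤ 2 * c * (Lz / Real.log p) * V P z * (2 * (H / p)) :=
      mul_le_mul hV1 hNup hNpos.le (by positivity)
    have hfb2 : |(S P r' (p - 1) a' N : ℝ) - V P (p - 1) * N| ≤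
        4 * c * (Real.exp (2 * A) * E * (Real.log p / Lz) ^ (A * u)) *
          (2 * c * (Lz / Real.log p) * V P z * (2 * (H / p))) := by
      refine hfb.trans ?_
      apply mul_le_mul _ hVNle (by positivity) (by positivity)
      exact mul_le_mul_of_nonneg_left hex1 (by positivity)
    have hpow : (Real.log p / Lz) ^ (A * u) * (Lz / Real.log p) =
        (Real.log p / Lz) ^ (A * u - 2) * (Real.log p / Lz) := by
      have hxp : 0 < Real.log p / Lz := div_pos hlp0 hLpos
      rw [Real.rpow_sub hxp]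
      have : (Real.log p / Lz) ^ (2 : ℝ) = (Real.log p / Lz) ^ 2 := by norm_cast
      rw [this]
      field_simp
    have hmain : 4 * c * (Real.exp (2 * A) * E * (Real.log p / Lz) ^ (A * u)) *
          (2 * c * (Lz / Real.log p) * V P z * (2 * (H / p))) =
        16 * c ^ 2 * Real.exp (2 * A) * E * (V P z * H) * (1 / Lz) *
          (Real.log p / p * (Real.log p / Lz) ^ (A * u - 2)) := by
      have : 4 * c * (Real.exp (2 * A) * E * (Real.log p / Lz) ^ (A * u)) *
          (2 * c * (Lz / Real.log p) * V P z * (2 * (H / p))) =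
          16 * c ^ 2 * Real.exp (2 * A) * E * (V P z * H) * (1 / p) *
          ((Real.log p / Lz) ^ (A * u) * (Lz / Real.log p)) := by ring
      rw [this, hpow]; ring
    have hround : |V P (p - 1) * ((N : ℝ) - H / p)| ≤ 1 := by
      rw [abs_mul, abs_of_pos hVp]
      calc V P (p - 1) * |(N : ℝ) - H / p| ≤ 1 * 1 :=
            mul_le_mul (V_le_one _ _) (abs_le.mpr hN1) (abs_nonneg _) (by norm_num)
        _ = 1 := by norm_num
    have hsplit : (S P r' (p - 1) a' N : ℝ) - V P (p - 1) * (H / p) =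
        (S P r' (p - 1) a' N - V P (p - 1) * N) + V P (p - 1) * ((N : ℝ) - H / p) := by ring
    rw [hsplit]
    refine (abs_add_le _ _).trans ?_
    rw [hmain] at hfb2
    linarith
  -- sum the terms
  have hsum2 : ∑ p ∈ (prs P z).filter (fun p => z0 < p),
      |(fib P r p (p - 1) a H : ℝ) - V P (p - 1) * (H / p)| ≤
      z + 16 * c ^ 2 * Real.exp (2 * A) * E * (V P z * H) * (1 / Lz) *
        (2 * (Lz / (A * u - 2) + c)) := by
    refine (Finset.sum_le_sum hterm).trans ?_
    rw [Finset.sum_add_distrib, ← Finset.mul_sum]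
    apply add_le_add
    · rw [Finset.sum_const, nsmul_eq_mul, mul_one]
      have h3 : ((prs P z).filter (fun p => z0 < p)).card ≤ z := by
        have h4 : (prs P z).filter (fun p => z0 < p) ⊆ Finset.Icc 1 z := by
          intro p hp
          rw [Finset.mem_filter] at hp
          obtain ⟨h5, h6, _⟩ := mem_prs.mp hp.1
          rw [Finset.mem_Icc]; exact ⟨h6.one_lt.le, h5⟩
        have := Finset.card_le_card h4
        simpa using this
      exact_mod_cast h3
    · apply mul_le_mul_of_nonneg_left _ (by positivity)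
      have hm : 1 ≤ A * u - 2 := by nlinarith
      have h3 := weighted hc h1 z (by omega) (A * u - 2) hm
      refine le_trans ?_ h3
      apply Finset.sum_le_sum_of_subset_of_nonneg
      · intro p hp
        rw [Finset.mem_filter] at hp
        obtain ⟨h5, h6, _⟩ := mem_prs.mp hp.1
        exact mem_prs.mpr ⟨h5, h6, Set.mem_univ _⟩
      · intro p hp _
        obtain ⟨_, h6, _⟩ := mem_prs.mp hp
        have : (1 : ℝ) ≤ p := by exact_mod_cast h6.one_lt.le
        have := Real.log_nonneg this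
        positivity
  -- final numerics
  have hfin1 : 16 * c ^ 2 * Real.exp (2 * A) * E * (V P z * H) * (1 / Lz) *
        (2 * (Lz / (A * u - 2) + c)) ≤ E * (V P z * H) / 2 := by
    have hm : 128 * c ^ 2 * Real.exp (2 * A) ≤ A * u - 2 := by nlinarith
    have hm0 : 0 < A * u - 2 := by linarith
    have e1 : 16 * c ^ 2 * Real.exp (2 * A) * E * (V P z * H) * (1 / Lz) *
        (2 * (Lz / (A * u - 2) + c)) =
        (E * (V P z * H)) * (32 * c ^ 2 * Real.exp (2 * A) / (A * u - 2) +
          32 * c ^ 3 * Real.exp (2 * A) / Lz) := by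
      field_simp
      ring
    rw [e1]
    have e2 : 32 * c ^ 2 * Real.exp (2 * A) / (A * u - 2) ≤ 1 / 4 := by
      rw [div_le_iff₀ hm0]; linarith
    have e3 : 32 * c ^ 3 * Real.exp (2 * A) / Lz ≤ 1 / 4 := by
      rw [div_le_iff₀ hLpos]; linarith
    have e4 : 0 < E * (V P z * H) := by positivity
    nlinarith
  have hfin2 : (3 : ℝ) ^ z0 + z ≤ E * (V P z * H) / 2 := by
    -- E * H ≥ exp (u0 Lz)
    have e1 : Real.exp (u0 * Lz) ≤ E * H := by
      rw [hE, ← Real.exp_log hHpos, ← Real.exp_add, Real.exp_le_exp, ← huL]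
      have : 0 ≤ (u - u0) * (Lz - A) := mul_nonneg (by linarith) (by linarith)
      nlinarith
    have hz0' : (0 : ℝ) < z := by linarith
    have e2 : Real.exp (u0 * Lz) = Real.exp ((u0 - 2) * Lz) * (z : ℝ) ^ 2 := by
      have h3 : (z : ℝ) ^ 2 = Real.exp (2 * Lz) := by
        rw [hLz, ← Real.log_rpow hz0', Real.exp_log (by positivity)]; norm_cast
      rw [h3, ← Real.exp_add]; congr 1; ring
    have e3 : 4 * c * 3 ^ z0 * (z : ℝ) ^ 2 ≤ E * H := by
      refine le_trans ?_ e1
      rw [e2]; exact mul_le_mul_of_nonneg_right hbz (by positivity)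
    have e4 := hVl P z (by omega)
    have e5 : Lz ≤ z := Real.log_le_self hz0'.le
    have e6 : 1 / (c * z) ≤ V P z := by
      refine le_trans ?_ e4
      apply one_div_le_one_div_of_le (by positivity)
      exact mul_le_mul_of_nonneg_left e5 (by linarith)
    have e7 : 4 * c * 3 ^ z0 * (z : ℝ) ^ 2 * (1 / (c * z)) ≤ E * H * V P z :=
      mul_le_mul e3 e6 (by positivity) (by positivity)
    have e8 : 4 * c * 3 ^ z0 * (z : ℝ) ^ 2 * (1 / (c * z)) = 4 * 3 ^ z0 * z := by
      field_simp
    rw [e8] at e7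
    have e9 : (1 : ℝ) ≤ 3 ^ z0 := one_le_pow₀ (by norm_num)
    have e10 : 2 * ((3 : ℝ) ^ z0 + z) ≤ 4 * 3 ^ z0 * z := by nlinarith
    linarith
  have hfinal : |(S P r z a H : ℝ) - V P z * H| ≤ E * (V P z * H) := by linarith
  exact hfinal

/-- **The fundamental lemma of the sieve** for intervals, with arbitrary rate. -/
theorem fl (M : Mert) : FL := by
  obtain ⟨c, hc, h1, -, hV, hVl, -⟩ := M
  intro A hA
  obtain ⟨z0, hz0⟩ : ∃ z0 : ℕ, max (max 40 (Real.exp A))
      (Real.exp (128 * c ^ 3 * Real.exp (2 * A))) ≤ z0 := exists_nat_ge _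
  have hz40 : (40 : ℝ) ≤ z0 := (le_max_left _ _).trans ((le_max_left _ _).trans hz0)
  have hzA : A ≤ Real.log z0 := by
    rw [Real.le_log_iff_exp_le (by linarith)]
    exact (le_max_right _ _).trans ((le_max_left _ _).trans hz0)
  have hzc : 128 * c ^ 3 * Real.exp (2 * A) ≤ Real.log z0 := by
    rw [Real.le_log_iff_exp_le (by linarith)]
    exact (le_max_right _ _).trans hz0
  have hz40' : 40 ≤ z0 := by exact_mod_cast hz40
  refine ⟨(z0 : ℝ) + 4 * c + 4 + 128 * c ^ 2 * Real.exp (2 * A), z0, ?_, by omega, ?_⟩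
  · have : 0 < c ^ 2 * Real.exp (2 * A) := by positivity
    nlinarith
  · have key : ∀ z : ℕ, z0 ≤ z → Good A ((z0 : ℝ) + 4 * c + 4 + 128 * c ^ 2 * Real.exp (2 * A)) z := by
      intro z
      induction z using Nat.strong_induction_on with
      | _ z ih =>
        intro hz
        exact step hA hc hz40' h1 hV hVl hzA hzc le_rfl hz (fun z' hz' h => ih z' hz' h)
    intro P r z a H hz hH
    exact key z hz P r a H hH

end Pool.Agent.H67.GT.FLM
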