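import Mathlib
import Pool.Agent.H67.GT.Defs

/-!
# LOW: divergence side of the threshold for Granville's model (helper35)
-/

set_option autoImplicit false

namespace Pool.Agent.H67.GT.LOW

open Finset

/-! ## Basic facts -/

theorem mem_prs {P : Set ℕ} {z p : ℕ} : p ∈ prs P z ↔ p ≤ z ∧ p.Prime ∧ p ∈ P := by
  simp only [prs, Finset.mem_filter, Finset.mem_Icc]
  constructor
  · rintro ⟨⟨_, h2⟩, h3⟩
    exact ⟨h2, h3⟩
  · rintro ⟨h1, h2, h3⟩
    exact ⟨⟨h2.one_lt.le, h1⟩, h2, h3⟩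

theorem V_pos (P : Set ℕ) (z : ℕ) : 0 < V P z := by
  unfold V
  refine Finset.prod_pos fun p hp => ?_
  have h := (mem_prs.1 hp).2.1.two_le
  have h2 : (2 : ℝ) ≤ p := by exact_mod_cast h
  have : 1 / (p : ℝ) ≤ 1 / 2 := one_div_le_one_div_of_le (by norm_num) h2
  linarith

theorem V_le_one (P : Set ℕ) (z : ℕ) : V P z ≤ 1 := by
  unfold V
  refine Finset.prod_le_one (fun p hp => ?_) (fun p hp => ?_)
  · have h := (mem_prs.1 hp).2.1.two_le
    have h2 : (2 : ℝ) ≤ p := by exact_mod_cast h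
    have : 1 / (p : ℝ) ≤ 1 / 2 := one_div_le_one_div_of_le (by norm_num) h2
    linarith
  · have : 0 ≤ 1 / (p : ℝ) := by positivity
    linarith

/-- `V` over the primes `≤ t` inside a larger range. -/
theorem V_le_eq {t z : ℕ} (h : t ≤ z) : V {p | p ≤ t} z = V Set.univ t := by
  unfold V
  congr 1
  ext p
  simp only [mem_prs, Set.mem_ofPred_eq, Set.mem_univ, and_true]
  constructor
  · rintro ⟨_, h2, h3⟩
    exact ⟨h3, h2⟩
  · rintro ⟨h2, h3⟩
    exact ⟨h2.trans h, h3, h2⟩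

theorem V_split {T0 t z : ℕ} (h : t ≤ z) (h0 : T0 ≤ t) :
    V {p | T0 < p ∧ p ≤ t} z * V Set.univ T0 = V Set.univ t := by
  unfold V
  rw [← Finset.prod_union]
  · congr 1
    ext p
    simp only [Finset.mem_union, mem_prs, Set.mem_ofPred_eq, Set.mem_univ, and_true]
    constructor
    · rintro (⟨_, h2, _, h4⟩ | ⟨h1, h2⟩)
      · exact ⟨h4, h2⟩
      · exact ⟨h1.trans h0, h2⟩
    · rintro ⟨h1, h2⟩
      rcases Nat.lt_or_ge T0 p with h3 | h3
      · exact Or.inl ⟨h1.trans h, h2, h3, h1⟩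
      · exact Or.inr ⟨h3, h2⟩
  · rw [Finset.disjoint_left]
    intro p hp hp2
    have h1 := (mem_prs.1 hp).2.2
    have h2 := (mem_prs.1 hp2).1
    simp only [Set.mem_ofPred_eq] at h1
    omega

theorem V_lower {c : ℝ} (hc1 : 1 ≤ c)
    (hc : ∀ (P : Set ℕ) (z : ℕ), 2 ≤ z → 1 / (c * Real.log z) ≤ V P z) (z : ℕ) :
    1 / (2 * c * Real.log (z + 2)) ≤ V Set.univ z := by
  have hl2 : (0.6931471803 : ℝ) < Real.log 2 := Real.log_two_gt_d9
  rcases Nat.lt_or_ge z 2 with h | h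
  · have hV : V Set.univ z = 1 := by
      unfold V
      refine Finset.prod_eq_one fun p hp => ?_
      have := mem_prs.1 hp
      have h2 := this.2.1.two_le
      omega
    rw [hV, div_le_one]
    · have h1 : Real.log 2 ≤ Real.log (z + 2) :=
        Real.log_le_log (by norm_num) (by have : (0 : ℝ) ≤ z := Nat.cast_nonneg z; linarith)
      nlinarith
    · have h1 : Real.log 2 ≤ Real.log (z + 2) :=
        Real.log_le_log (by norm_num) (by have : (0 : ℝ) ≤ z := Nat.cast_nonneg z; linarith)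
      have : 0 < Real.log ((z : ℝ) + 2) := by linarith
      positivity
  · refine le_trans ?_ (hc Set.univ z h)
    have hz : (2 : ℝ) ≤ z := by exact_mod_cast h
    have h0 : 0 < Real.log z := Real.log_pos (by linarith)
    have h1 : Real.log z ≤ Real.log (z + 2) := Real.log_le_log (by linarith) (by linarith)
    apply one_div_le_one_div_of_le
    · positivity
    · nlinarith

theorem log_add_two (m : ℕ) : Real.log (m + 2) ≤ Real.log m + Real.log 3 := by
  rcases Nat.eq_zero_or_pos m with h | h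
  · subst h
    simp only [Nat.cast_zero, zero_add, Real.log_zero]
    exact Real.log_le_log (by norm_num) (by norm_num)
  · have hm : (1 : ℝ) ≤ m := by exact_mod_cast h
    rw [← Real.log_mul (by positivity) (by norm_num)]
    exact Real.log_le_log (by positivity) (by linarith)

theorem wt_nonneg (T : ℕ → ℕ) (n : ℕ) : 0 ≤ wt T n := by
  unfold wt
  split_ifs
  · have h1 := V_pos Set.univ (T n)
    have h2 : 0 ≤ Real.log n := Real.log_natCast_nonneg n
    positivity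
  · exact le_refl _

theorem wt_small (M : Mert) (T : ℕ → ℕ)
    (hT : Filter.Tendsto (fun n : ℕ => Real.log (T n) / Real.log n) Filter.atTop (nhds 0))
    (w0 : ℝ) (hw0 : 0 < w0) : ∀ᶠ n : ℕ in Filter.atTop, wt T n ≤ w0 := by
  obtain ⟨c, hc1, -, -, -, hc, -⟩ := M
  have hlog : Filter.Tendsto (fun n : ℕ => Real.log n) Filter.atTop Filter.atTop :=
    Real.tendsto_log_atTop.comp tendsto_natCast_atTop_atTop
  have h3 : Filter.Tendsto (fun n : ℕ => Real.log 3 / Real.log n) Filter.atTop (nhds 0) :=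
    hlog.const_div_atTop _
  have h4 : Filter.Tendsto (fun n : ℕ => 2 * c * (Real.log (T n) / Real.log n + Real.log 3 / Real.log n))
      Filter.atTop (nhds 0) := by
    have := (hT.add h3).const_mul (2 * c)
    simpa using this
  filter_upwards [h4.eventually (gt_mem_nhds hw0), hlog.eventually_gt_atTop 0] with n hn hn0
  refine le_trans ?_ hn.le
  unfold wt
  split_ifs with hR
  · have hV := V_lower hc1 hc (T n)
    have hlp : 0 < Real.log ((T n : ℝ) + 2) :=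
      Real.log_pos (by have : (0 : ℝ) ≤ T n := Nat.cast_nonneg _; linarith)
    have hVp := V_pos Set.univ (T n)
    have h5 : 1 ≤ V Set.univ (T n) * (2 * c * Real.log ((T n : ℝ) + 2)) := by
      rw [div_le_iff₀ (by positivity)] at hV
      exact hV
    rw [← add_div, ← mul_div_assoc, div_le_div_iff₀ (by positivity) hn0, one_mul]
    have h6 := log_add_two (T n)
    have h7 : 2 * c * Real.log ((T n : ℝ) + 2) ≤ 2 * c * (Real.log (T n) + Real.log 3) :=
      mul_le_mul_of_nonneg_left h6 (by positivity)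
    calc Real.log n = 1 * Real.log n := by ring
      _ ≤ (V Set.univ (T n) * (2 * c * Real.log ((T n : ℝ) + 2))) * Real.log n :=
          mul_le_mul_of_nonneg_right h5 hn0.le
      _ ≤ (V Set.univ (T n) * (2 * c * (Real.log (T n) + Real.log 3))) * Real.log n := by
          gcongr
      _ = 2 * c * (Real.log (T n) + Real.log 3) * (V Set.univ (T n) * Real.log n) := by ring
  · have h8 : 0 ≤ Real.log (T n : ℝ) := Real.log_natCast_nonneg _
    have h9 : 0 ≤ Real.log (3 : ℝ) := Real.log_nonneg (by norm_num)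
    positivity

theorem one_sub_ge {η w : ℝ} (hη : 0 < η) (hw : 0 ≤ w) (hw2 : w ≤ η / (1 + η)) :
    Real.exp (-((1 + η) * w)) ≤ 1 - w := by
  have h1 : w < 1 := lt_of_le_of_lt hw2 (by rw [div_lt_one (by positivity)]; linarith)
  have h2 : 0 < 1 - w := by linarith
  rw [← Real.le_log_iff_exp_le h2]
  refine le_trans ?_ (Real.one_sub_inv_le_log_of_pos h2)
  have h3 : w * (1 + η) ≤ η := by
    rwa [le_div_iff₀ (by positivity)] at hw2
  have h4 : (1 - w)⁻¹ ≤ 1 + (1 + η) * w := by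
    rw [inv_le_comm₀ h2 (by positivity), ← one_div, div_le_iff₀ (by positivity)]
    nlinarith
  linarith

/-- The fundamental lemma in a convenient form. -/
theorem fl_use (F : FL) (η : ℝ) (hη : 0 < η) (hη1 : η ≤ 1) : ∃ (D : ℝ) (z0 : ℕ), 1 ≤ D ∧ 3 ≤ z0 ∧
    ∀ (P : Set ℕ) (r : ℕ → ℤ) (z : ℕ) (a : ℤ) (H : ℕ), z0 ≤ z → D * Real.log z ≤ Real.log H →
      |(S P r z a H : ℝ) - V P z * H| ≤ η * (V P z * H) := by
  obtain ⟨u0, z0, hu0, hz0, h⟩ := F 1 le_rfl
  refine ⟨u0 - Real.log η, z0, ?_, hz0, ?_⟩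
  · have := Real.log_nonpos hη.le hη1
    linarith
  · intro P r z a H hz hD
    have hz3 : (3 : ℝ) ≤ z := by exact_mod_cast hz0.trans hz
    have hlz : 0 < Real.log z := Real.log_pos (by linarith)
    have hlη := Real.log_nonpos hη.le hη1
    refine (h P r z a H hz ?_).trans ?_
    · refine le_trans ?_ hD
      nlinarith
    · have hVH : 0 ≤ V P z * H := mul_nonneg (V_pos P z).le (Nat.cast_nonneg _)
      refine mul_le_mul_of_nonneg_right ?_ hVH
      rw [← Real.le_log_iff_exp_le hη]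
      have : u0 - Real.log η ≤ Real.log H / Real.log z := by
        rwa [le_div_iff₀ hlz]
      linarith

/-! ## Counting rough numbers in a progression of windows -/

open Classical in
theorem card_le_S (T0 a0 H : ℕ) :
    ((Finset.Icc 1 H).filter (fun j => Rough T0 (a0 + j))).card ≤
      S Set.univ (fun _ => 0) T0 a0 H := by
  unfold S
  refine Finset.card_le_card_of_injOn (fun j => ((a0 + j : ℕ) : ℤ)) ?_ ?_
  · intro j hj
    simp only [Finset.coe_filter, Finset.mem_Icc, Set.mem_ofPred_eq] at hj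
    simp only [Finset.coe_filter, Finset.mem_Ioc, Set.mem_ofPred_eq]
    refine ⟨⟨by push_cast; omega, by push_cast; omega⟩, ?_⟩
    intro p hp hmod
    obtain ⟨hp1, hp2, -⟩ := mem_prs.1 hp
    refine hj.2 p hp2 hp1 ?_
    rw [Int.modEq_zero_iff_dvd] at hmod
    exact_mod_cast hmod
  · intro x _ y _ hxy
    simp only [Nat.cast_add, add_right_inj, Nat.cast_inj] at hxy
    exact hxy

theorem exists_res (T0 p m : ℕ) (hp : p.Prime) (h : T0 < p) :
    ∃ r : ℤ, (primorial T0 : ℤ) * r + m ≡ 0 [ZMOD p] := by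
  have hco : Nat.Coprime (primorial T0) p := by
    rw [Nat.coprime_comm, hp.coprime_iff_not_dvd]
    intro hd
    have := (Nat.Prime.dvd_primorial_iff hp).1 hd
    omega
  obtain ⟨y, hy⟩ := Int.mod_coprime hco
  refine ⟨-(m : ℤ) * y, ?_⟩
  have h1 := (hy.mul_left (-(m : ℤ))).add_right (m : ℤ)
  have h2 : (primorial T0 : ℤ) * (-(m : ℤ) * y) + m = -(m : ℤ) * ((primorial T0 : ℤ) * y) + m := by
    ring
  rw [h2]
  refine h1.trans ?_
  simp

open Classical in
theorem count_le (T0 t z K' a1 j : ℕ) : ∃ r : ℕ → ℤ,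
    ((Finset.Icc 1 K').filter (fun k => Rough t (a1 + primorial T0 * k + j))).card ≤
      S {p | T0 < p ∧ p ≤ t} r z 0 K' := by
  have hex : ∀ p : ℕ, ∃ r : ℤ, p.Prime → T0 < p →
      (primorial T0 : ℤ) * r + (a1 + j : ℕ) ≡ 0 [ZMOD p] := by
    intro p
    by_cases h : p.Prime ∧ T0 < p
    · obtain ⟨r, hr⟩ := exists_res T0 p (a1 + j) h.1 h.2
      exact ⟨r, fun _ _ => hr⟩
    · exact ⟨0, fun h1 h2 => absurd ⟨h1, h2⟩ h⟩
  choose r hr using hex
  refine ⟨r, ?_⟩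
  unfold S
  refine Finset.card_le_card_of_injOn (fun k => (k : ℤ)) ?_ ?_
  · intro k hk
    simp only [Finset.coe_filter, Finset.mem_Icc, Set.mem_ofPred_eq] at hk
    simp only [Finset.coe_filter, Finset.mem_Ioc, Set.mem_ofPred_eq]
    refine ⟨⟨by omega, by omega⟩, ?_⟩
    intro p hp hmod
    obtain ⟨hp1, hp2, hp3⟩ := mem_prs.1 hp
    simp only [Set.mem_ofPred_eq] at hp3
    refine hk.2 p hp2 hp3.2 ?_
    have h1 := hr p hp2 hp3.1
    have h2 : (primorial T0 : ℤ) * k + (a1 + j : ℕ) ≡ 0 [ZMOD p] :=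
      ((hmod.mul_left (primorial T0 : ℤ)).add_right _).trans h1
    rw [Int.modEq_zero_iff_dvd] at h2
    have h3 : ((a1 + primorial T0 * k + j : ℕ) : ℤ) = (primorial T0 : ℤ) * k + (a1 + j : ℕ) := by
      push_cast
      ring
    rw [← h3] at h2
    exact_mod_cast h2
  · intro x _ y _ hxy
    simpa using hxy

theorem not_rough (T0 t a0 a1 j k : ℕ) (hT : T0 ≤ t) (ha : a1 ≡ a0 [MOD primorial T0])
    (hR : Rough t (a1 + primorial T0 * k + j)) : Rough T0 (a0 + j) := by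
  intro p hp hpT hd
  refine hR p hp (hpT.trans hT) ?_
  have hp0 : p ∣ primorial T0 := (Nat.Prime.dvd_primorial_iff hp).2 hpT
  have h1 : a1 ≡ a0 [MOD p] := ha.of_dvd hp0
  have h2 : a1 + primorial T0 * k + j ≡ a0 + 0 + j [MOD p] := by
    refine Nat.ModEq.add_right _ (Nat.ModEq.add h1 ?_)
    exact (Nat.modEq_zero_iff_dvd).2 (hp0.mul_right k)
  rw [add_zero] at h2
  exact (h2.dvd_iff dvd_rfl).2 hd

open Classical in
theorem sum_wt (T : ℕ → ℕ) (N B Lam t T0 a0 a1 H z K : ℕ) (η κ C : ℝ)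
    (hTt : ∀ n, B ≤ n → n ≤ B + Lam → T n = t) (hNB : N ≤ B) (hBa : B ≤ a1)
    (hr : a1 + primorial T0 * K + H ≤ B + Lam) (hN : 2 ≤ N) (hT0 : T0 ≤ t) (htz : t ≤ z)
    (ha : a1 ≡ a0 [MOD primorial T0]) (hη : 0 < η) (hκ : κ < 1)
    (hS : (S Set.univ (fun _ => 0) T0 a0 H : ℝ) ≤ (1 - κ) * (V Set.univ T0 * H))
    (hH : (H : ℝ) ≤ (1 + η) * C * Real.log N ^ 2)
    (hFLK : ∀ r : ℕ → ℤ, (S {p | T0 < p ∧ p ≤ t} r z 0 K : ℝ) ≤
      (1 + η) * (V {p | T0 < p ∧ p ≤ t} z * K)) :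
    ∑ k ∈ Finset.Icc 1 K, ∑ j ∈ Finset.Icc 1 H, wt T (a1 + primorial T0 * k + j) ≤
      K * ((1 + η) ^ 2 * (1 - κ) * C * Real.log N) := by
  set P0 := primorial T0 with hP0
  have hN2 : (2 : ℝ) ≤ N := by exact_mod_cast hN
  have hL : 0 < Real.log N := Real.log_pos (by linarith)
  have hVt := V_pos Set.univ t
  have hV0 := V_pos Set.univ T0
  set V' := V {p | T0 < p ∧ p ≤ t} z with hV'
  have hVp : 0 < V' := V_pos _ _
  have hsplit : V' * V Set.univ T0 = V Set.univ t := V_split htz hT0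
  set Q : ℝ := 1 / (V Set.univ t * Real.log N) with hQ
  have hQ0 : 0 < Q := by positivity
  -- termwise
  have h1 : ∀ k ∈ Finset.Icc 1 K, ∀ j ∈ Finset.Icc 1 H, wt T (a1 + P0 * k + j) ≤
      if Rough t (a1 + P0 * k + j) then Q else 0 := by
    intro k hk j hj
    rw [Finset.mem_Icc] at hk hj
    have hkK : P0 * k ≤ P0 * K := Nat.mul_le_mul_left _ hk.2
    have hT' : T (a1 + P0 * k + j) = t := hTt _ (by omega) (by omega)
    unfold wt
    rw [hT']
    split_ifs with hR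
    · refine one_div_le_one_div_of_le (by positivity) ?_
      refine mul_le_mul_of_nonneg_left ?_ hVt.le
      refine Real.log_le_log (by linarith) ?_
      have : N ≤ a1 + P0 * k + j := by omega
      exact_mod_cast this
    · exact le_refl _
  have h2 : ∑ k ∈ Finset.Icc 1 K, ∑ j ∈ Finset.Icc 1 H, wt T (a1 + P0 * k + j) ≤
      ∑ j ∈ Finset.Icc 1 H, ∑ k ∈ Finset.Icc 1 K, (if Rough t (a1 + P0 * k + j) then Q else 0) := by
    rw [Finset.sum_comm]
    exact Finset.sum_le_sum fun j hj => Finset.sum_le_sum fun k hk => h1 k hk j hj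
  refine h2.trans ?_
  have h3 : ∀ j ∈ Finset.Icc 1 H, ∑ k ∈ Finset.Icc 1 K, (if Rough t (a1 + P0 * k + j) then Q else 0)
      ≤ if Rough T0 (a0 + j) then (1 + η) * (V' * K) * Q else 0 := by
    intro j _
    rw [← Finset.sum_filter, Finset.sum_const, nsmul_eq_mul]
    split_ifs with hR
    · refine mul_le_mul_of_nonneg_right ?_ hQ0.le
      obtain ⟨r, hr⟩ := count_le T0 t z K a1 j
      refine le_trans ?_ (hFLK r)
      exact_mod_cast hr
    · have : (Finset.Icc 1 K).filter (fun k => Rough t (a1 + P0 * k + j)) = ∅ := by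
        rw [Finset.filter_eq_empty_iff]
        intro k _ hk
        exact hR (not_rough T0 t a0 a1 j k hT0 ha hk)
      rw [this]
      simp
  refine (Finset.sum_le_sum h3).trans ?_
  rw [← Finset.sum_filter, Finset.sum_const, nsmul_eq_mul]
  have h4 : (((Finset.Icc 1 H).filter (fun j => Rough T0 (a0 + j))).card : ℝ) ≤
      (1 - κ) * (V Set.univ T0 * H) := by
    refine le_trans ?_ hS
    exact_mod_cast card_le_S T0 a0 H
  have h5 : (0 : ℝ) ≤ (1 + η) * (V' * K) * Q := by positivity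
  refine (mul_le_mul_of_nonneg_right h4 h5).trans ?_
  have h6 : (1 - κ) * (V Set.univ T0 * H) * ((1 + η) * (V' * K) * Q) =
      (1 - κ) * (1 + η) * K * (H / Real.log N) := by
    rw [hQ, ← hsplit]
    field_simp
  rw [h6]
  have h7 : (H : ℝ) / Real.log N ≤ (1 + η) * C * Real.log N := by
    rw [div_le_iff₀ hL]
    calc (H : ℝ) ≤ (1 + η) * C * Real.log N ^ 2 := hH
      _ = _ := by ring
  have h8 : (0 : ℝ) ≤ (1 - κ) * (1 + η) * K := by
    have : 0 < 1 - κ := by linarith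
    positivity
  calc (1 - κ) * (1 + η) * K * (H / Real.log N) ≤ (1 - κ) * (1 + η) * K * ((1 + η) * C * Real.log N) :=
        mul_le_mul_of_nonneg_left h7 h8
    _ = K * ((1 + η) ^ 2 * (1 - κ) * C * Real.log N) := by ring

/-- Markov's inequality. -/
theorem markov (K : ℕ) (W : ℕ → ℝ) (lam η : ℝ) (hlam : 0 < lam) (hη : 0 < η)
    (hW : ∀ k ∈ Finset.Icc 1 K, 0 ≤ W k) (hsum : ∑ k ∈ Finset.Icc 1 K, W k ≤ K * lam) :
    (K : ℝ) * (η / (1 + η)) ≤ ((Finset.Icc 1 K).filter (fun k => W k ≤ (1 + η) * lam)).card := by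
  classical
  have h1 : (((Finset.Icc 1 K).filter (fun k => ¬ W k ≤ (1 + η) * lam)).card : ℝ) *
      ((1 + η) * lam) ≤ K * lam := by
    refine le_trans ?_ hsum
    rw [← nsmul_eq_mul, ← Finset.sum_const]
    refine le_trans (Finset.sum_le_sum (g := W) ?_) ?_
    · intro k hk
      have := (Finset.mem_filter.1 hk).2
      linarith
    · refine Finset.sum_le_sum_of_subset_of_nonneg (Finset.filter_subset _ _) ?_
      intro k hk _
      exact hW k hk
  have h2 := Finset.card_filter_add_card_filter_not (s := Finset.Icc 1 K)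
    (fun k => W k ≤ (1 + η) * lam)
  rw [Nat.card_Icc, Nat.add_sub_cancel] at h2
  have h3 : (((Finset.Icc 1 K).filter (fun k => W k ≤ (1 + η) * lam)).card : ℝ) +
      ((Finset.Icc 1 K).filter (fun k => ¬ W k ≤ (1 + η) * lam)).card = K := by
    exact_mod_cast h2
  set x : ℝ := (((Finset.Icc 1 K).filter (fun k => W k ≤ (1 + η) * lam)).card : ℝ)
  set y : ℝ := (((Finset.Icc 1 K).filter (fun k => ¬ W k ≤ (1 + η) * lam)).card : ℝ)
  have h4 : y * (1 + η) ≤ K := by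
    have : y * (1 + η) * lam ≤ K * lam := by linarith
    exact le_of_mul_le_mul_right this hlam
  rw [← mul_div_assoc, div_le_iff₀ (by positivity)]
  nlinarith

/-! ## Lower bound for the gap terms -/

theorem sum_shift (f : ℕ → ℝ) (n h : ℕ) :
    ∑ j ∈ Finset.Icc 1 h, f (n + j) = ∑ m ∈ Finset.Ioc n (n + h), f m := by
  induction h with
  | zero => simp
  | succ h ih =>
    rw [Finset.sum_Icc_succ_top (by omega), ih, ← add_assoc, Finset.sum_Ioc_succ_top (by omega)]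

theorem gapTerm_ge (T : ℕ → ℕ) (C : ℝ) (N B Lam t H n b : ℕ) (η w : ℝ)
    (hTt : ∀ n, B ≤ n → n ≤ B + Lam → T n = t) (hBn : B ≤ n) (hnb : n ≤ b) (hb : b + H ≤ B + Lam)
    (h4 : B + Lam ≤ 4 * N) (hn2 : 2 ≤ n) (hη : 0 < η)
    (hwt : ∀ m, B ≤ m → m ≤ B + Lam → wt T m ≤ η / (1 + η))
    (hR : Rough t n) (hmax : ∀ m, n < m → m ≤ b → ¬ Rough t m)
    (hH : ⌊C * Real.log (4 * N) ^ 2⌋₊ ≤ H) (hC : 0 < C)
    (hW : ∑ j ∈ Finset.Icc 1 H, wt T (b + j) ≤ w) :
    Real.exp (-((1 + η) * w)) / Real.log (4 * N) ≤ gapTerm T C n := by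
  have hn2' : (2 : ℝ) ≤ n := by exact_mod_cast hn2
  have hlogn : 0 < Real.log n := Real.log_pos (by linarith)
  have hn4 : (n : ℝ) ≤ 4 * N := by
    have : n ≤ 4 * N := by omega
    exact_mod_cast this
  have hloglog : Real.log n ≤ Real.log (4 * N) := Real.log_le_log (by linarith) hn4
  have hlog4 : 0 < Real.log (4 * N) := lt_of_lt_of_le hlogn hloglog
  have hfl : ⌊C * Real.log n ^ 2⌋₊ ≤ H := by
    refine le_trans (Nat.floor_le_floor ?_) hH
    gcongr
  set h := ⌊C * Real.log n ^ 2⌋₊ with hh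
  have hTn : T n = t := hTt n hBn (by omega)
  -- the first factor
  have h1 : 1 / Real.log (4 * N) ≤ wt T n := by
    unfold wt
    rw [hTn, if_pos hR]
    refine one_div_le_one_div_of_le ?_ ?_
    · exact mul_pos (V_pos _ _) hlogn
    · calc V Set.univ t * Real.log n ≤ 1 * Real.log n :=
            mul_le_mul_of_nonneg_right (V_le_one _ _) hlogn.le
        _ ≤ Real.log (4 * N) := by rw [one_mul]; exact hloglog
  -- the sum of weights
  have h2 : ∑ j ∈ Finset.Icc 1 h, wt T (n + j) ≤ w := by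
    rw [sum_shift (wt T) n h]
    have h3 : ∑ m ∈ Finset.Ioc n (n + h), wt T m ≤ ∑ m ∈ Finset.Ioc n (b + H), wt T m := by
      refine Finset.sum_le_sum_of_subset_of_nonneg ?_ (fun m _ _ => wt_nonneg T m)
      exact Finset.Ioc_subset_Ioc le_rfl (by omega)
    refine h3.trans ?_
    rw [← Finset.sum_Ioc_consecutive (wt T) hnb (by omega : b ≤ b + H)]
    have h5 : ∑ m ∈ Finset.Ioc n b, wt T m = 0 := by
      refine Finset.sum_eq_zero fun m hm => ?_
      rw [Finset.mem_Ioc] at hm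
      unfold wt
      rw [hTt m (by omega) (by omega), if_neg (hmax m hm.1 hm.2)]
    rw [h5, zero_add, ← sum_shift (wt T) b H]
    exact hW
  -- the product
  have h3 : Real.exp (-((1 + η) * w)) ≤ ∏ j ∈ Finset.Icc 1 h, (1 - wt T (n + j)) := by
    have h4 : Real.exp (-((1 + η) * w)) ≤ ∏ j ∈ Finset.Icc 1 h, Real.exp (-((1 + η) * wt T (n + j))) := by
      rw [← Real.exp_sum, Real.exp_le_exp, Finset.sum_neg_distrib, ← Finset.mul_sum]
      have : (1 + η) * ∑ j ∈ Finset.Icc 1 h, wt T (n + j) ≤ (1 + η) * w :=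
        mul_le_mul_of_nonneg_left h2 (by positivity)
      linarith
    refine h4.trans ?_
    refine Finset.prod_le_prod (fun j _ => (Real.exp_pos _).le) ?_
    intro j hj
    rw [Finset.mem_Icc] at hj
    exact one_sub_ge hη (wt_nonneg _ _) (hwt _ (by omega) (by omega))
  unfold gapTerm
  rw [← hh]
  calc Real.exp (-((1 + η) * w)) / Real.log (4 * N) = 1 / Real.log (4 * N) * Real.exp (-((1 + η) * w)) := by
        ring
    _ ≤ wt T n * ∏ j ∈ Finset.Icc 1 h, (1 - wt T (n + j)) :=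
        mul_le_mul h1 h3 (Real.exp_pos _).le (wt_nonneg _ _)

open Classical in
theorem core (T : ℕ → ℕ) (N B Lam t T0 a0 a1 H z K G : ℕ) (η κ C : ℝ)
    (hTt : ∀ n, B ≤ n → n ≤ B + Lam → T n = t) (hNB : N ≤ B) (hBa : B + G ≤ a1)
    (hr : a1 + primorial T0 * K + H ≤ B + Lam) (h4 : B + Lam ≤ 4 * N)
    (hN : 2 ≤ N) (hT0 : T0 ≤ t) (htz : t ≤ z)
    (ha : a1 ≡ a0 [MOD primorial T0]) (hη : 0 < η) (hκ : κ < 1) (hC : 0 < C)
    (hS : (S Set.univ (fun _ => 0) T0 a0 H : ℝ) ≤ (1 - κ) * (V Set.univ T0 * H))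
    (hH : (H : ℝ) ≤ (1 + η) * C * Real.log N ^ 2)
    (hH' : ⌊C * Real.log (4 * N) ^ 2⌋₊ ≤ H)
    (hFLK : ∀ r : ℕ → ℤ, (S {p | T0 < p ∧ p ≤ t} r z 0 K : ℝ) ≤
      (1 + η) * (V {p | T0 < p ∧ p ≤ t} z * K))
    (hwt : ∀ m, B ≤ m → m ≤ B + Lam → wt T m ≤ η / (1 + η))
    (hG : ∀ b, G ≤ b → ∃ n, b < n + G ∧ n ≤ b ∧ Rough t n) (hG0 : 0 < G) :
    ∃ F : Finset ℕ, (∀ n ∈ F, N ≤ n) ∧
      (K * (η / (1 + η))) / G * (Real.exp (-((1 + η) * ((1 + η) *
        ((1 + η) ^ 2 * (1 - κ) * C * Real.log N)))) / Real.log (4 * N)) ≤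
      ∑ n ∈ F, gapTerm T C n := by
  have hN2 : (2 : ℝ) ≤ N := by exact_mod_cast hN
  have hL : 0 < Real.log N := Real.log_pos (by linarith)
  have hP0 : 0 < primorial T0 := primorial_pos T0
  set P0 := primorial T0 with hP0d
  set lam : ℝ := (1 + η) ^ 2 * (1 - κ) * C * Real.log N with hlam
  have hlam0 : 0 < lam := by
    have : 0 < 1 - κ := by linarith
    positivity
  set W : ℕ → ℝ := fun k => ∑ j ∈ Finset.Icc 1 H, wt T (a1 + P0 * k + j) with hWd
  have hsum : ∑ k ∈ Finset.Icc 1 K, W k ≤ K * lam :=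
    sum_wt T N B Lam t T0 a0 a1 H z K η κ C hTt hNB (by omega) hr hN hT0 htz ha hη hκ hS hH hFLK
  have hmk := markov K W lam η hlam0 hη
    (fun k _ => Finset.sum_nonneg fun j _ => wt_nonneg T _) hsum
  set Good := (Finset.Icc 1 K).filter (fun k => W k ≤ (1 + η) * lam) with hGood
  set nk : ℕ → ℕ := fun k => Nat.findGreatest (Rough t) (a1 + P0 * k) with hnk
  have hspec : ∀ k ∈ Good, Rough t (nk k) ∧ nk k ≤ a1 + P0 * k ∧ a1 + P0 * k < nk k + G ∧
      (∀ m, nk k < m → m ≤ a1 + P0 * k → ¬ Rough t m) ∧ a1 + P0 * k + H ≤ B + Lam := by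
    intro k hk
    have hk' := (Finset.mem_filter.1 hk).1
    rw [Finset.mem_Icc] at hk'
    have hkK : P0 * k ≤ P0 * K := Nat.mul_le_mul_left _ hk'.2
    obtain ⟨n, hn1, hn2, hn3⟩ := hG (a1 + P0 * k) (by omega)
    have h5 : n ≤ nk k := Nat.le_findGreatest hn2 hn3
    refine ⟨Nat.findGreatest_spec hn2 hn3, Nat.findGreatest_le _, by omega, ?_, by omega⟩
    intro m hm1 hm2
    exact Nat.findGreatest_is_greatest hm1 hm2
  have hlow : ∀ k ∈ Good, B ≤ nk k := by
    intro k hk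
    have := (hspec k hk).2.2.1
    omega
  refine ⟨Good.image nk, ?_, ?_⟩
  · intro n hn
    obtain ⟨k, hk, rfl⟩ := Finset.mem_image.1 hn
    exact hNB.trans (hlow k hk)
  · have hcard : Good.card ≤ G * (Good.image nk).card := by
      refine Finset.card_le_mul_card_image Good G ?_
      intro n hn
      have : (Good.filter (fun k => nk k = n)).card ≤ (Finset.range G).card := by
        refine Finset.card_le_card_of_injOn (fun k => a1 + P0 * k - n) ?_ ?_
        · intro k hk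
          simp only [Finset.coe_filter, Set.mem_ofPred_eq] at hk
          simp only [Finset.coe_range, Set.mem_Iio]
          have h5 := hspec k hk.1
          rw [hk.2] at h5
          omega
        · intro x hx y hy hxy
          simp only [Finset.coe_filter, Set.mem_ofPred_eq] at hx hy
          have h5 := (hspec x hx.1).2.1
          have h6 := (hspec y hy.1).2.1
          rw [hx.2] at h5
          rw [hy.2] at h6
          simp only at hxy
          have h7 : P0 * x = P0 * y := by omega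
          exact Nat.eq_of_mul_eq_mul_left hP0 h7
      simpa using this
    have hterm : ∀ n ∈ Good.image nk, Real.exp (-((1 + η) * ((1 + η) * lam))) / Real.log (4 * N) ≤
        gapTerm T C n := by
      intro n hn
      obtain ⟨k, hk, rfl⟩ := Finset.mem_image.1 hn
      obtain ⟨h5, h6, h7, h8, h9⟩ := hspec k hk
      have h10 := hlow k hk
      refine gapTerm_ge T C N B Lam t H (nk k) (a1 + P0 * k) η _ hTt h10 h6 h9 h4 (by omega) hη hwt
        h5 h8 hH' hC ?_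
      exact (Finset.mem_filter.1 hk).2
    have hsumF := Finset.card_nsmul_le_sum _ _ _ hterm
    rw [nsmul_eq_mul] at hsumF
    refine le_trans ?_ hsumF
    have hlog4 : 0 < Real.log (4 * N) := Real.log_pos (by linarith)
    refine mul_le_mul_of_nonneg_right ?_ (by positivity)
    have hG0' : (0 : ℝ) < G := by exact_mod_cast hG0
    rw [div_le_iff₀ hG0']
    refine hmk.trans ?_
    have : ((Good.card : ℕ) : ℝ) ≤ G * (Good.image nk).card := by exact_mod_cast hcard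
    linarith

/-! ## Blocks of constant level and application of the sieve -/

theorem block (T : ℕ → ℕ) (hT : Monotone T) (N M Lam : ℕ) (hM : T (4 * N) < M)
    (hML : M * Lam ≤ N) : ∃ B : ℕ, N ≤ B ∧ B + Lam ≤ 4 * N ∧
      ∀ n, B ≤ n → n ≤ B + Lam → T n = T B := by
  by_contra hcon
  push Not at hcon
  have h1 : ∀ i, i ≤ M → i ≤ T (N + i * Lam) := by
    intro i
    induction i with
    | zero => intro _; exact Nat.zero_le _
    | succ i ih =>
      intro hi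
      have h2 := ih (by omega)
      have h3 : (i + 1) * Lam ≤ M * Lam := Nat.mul_le_mul_right _ hi
      have h4 : (i + 1) * Lam = i * Lam + Lam := by ring
      obtain ⟨n, hn1, hn2, hn3⟩ := hcon (N + i * Lam) (by omega) (by omega)
      have h5 : T (N + i * Lam) ≤ T n := hT hn1
      have h6 : T n ≤ T (N + (i + 1) * Lam) := hT (by omega)
      omega
  have h2 := h1 M le_rfl
  have h3 : T (N + M * Lam) ≤ T (4 * N) := hT (by omega)
  omega

theorem exists_shift (m a0 P0 : ℕ) (hP0 : 0 < P0) : ∃ a1, m ≤ a1 ∧ a1 ≤ m + P0 ∧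
    a1 ≡ a0 [MOD P0] := by
  refine ⟨m + (a0 + (P0 - 1) * m) % P0, by omega, ?_, ?_⟩
  · have := Nat.mod_lt (a0 + (P0 - 1) * m) hP0
    omega
  · have h1 : m + (a0 + (P0 - 1) * m) % P0 ≡ m + (a0 + (P0 - 1) * m) [MOD P0] :=
      Nat.ModEq.add_left _ (Nat.mod_modEq _ _)
    refine h1.trans ?_
    obtain ⟨q, rfl⟩ : ∃ q, P0 = q + 1 := ⟨P0 - 1, by omega⟩
    have h2 : m + (a0 + (q + 1 - 1) * m) = a0 + (q + 1) * m := by
      rw [Nat.add_sub_cancel]; ring
    rw [h2]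
    have h3 : (q + 1) * m ≡ 0 [MOD q + 1] := (Nat.modEq_zero_iff_dvd).2 (dvd_mul_right _ _)
    exact Nat.ModEq.add_left a0 h3

theorem rough_near (t z G : ℕ) (η : ℝ) (hη1 : η < 1) (htz : t ≤ z) (hG : 0 < G)
    (hF : ∀ a : ℤ, |(S {p | p ≤ t} (fun _ => 0) z a G : ℝ) - V {p | p ≤ t} z * G| ≤
      η * (V {p | p ≤ t} z * G)) (b : ℕ) (hb : G ≤ b) :
    ∃ n, b < n + G ∧ n ≤ b ∧ Rough t n := by
  classical
  have h1 := hF ((b : ℤ) - G)
  have hV := V_pos {p | p ≤ t} z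
  have hG' : (0 : ℝ) < G := by exact_mod_cast hG
  have h2 : 0 < (S {p | p ≤ t} (fun _ => 0) z ((b : ℤ) - G) G : ℝ) := by
    have h3 := (abs_le.1 h1).1
    have h4 : 0 < V {p | p ≤ t} z * G := by positivity
    nlinarith
  have h3 : 0 < S {p | p ≤ t} (fun _ => 0) z ((b : ℤ) - G) G := by exact_mod_cast h2
  unfold S at h3
  obtain ⟨m, hm⟩ := Finset.card_pos.1 h3
  rw [Finset.mem_filter, Finset.mem_Ioc] at hm
  obtain ⟨⟨hm1, hm2⟩, hm3⟩ := hm
  lift m to ℕ using (by omega)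
  refine ⟨m, by omega, by omega, ?_⟩
  intro p hp hpt hd
  refine hm3 p (mem_prs.2 ⟨hpt.trans htz, hp, hpt⟩) ?_
  rw [Int.modEq_zero_iff_dvd]
  exact_mod_cast hd

/-- Everything except the asymptotic inequalities. -/
theorem one_scale (T : ℕ → ℕ) (hT : Monotone T) (N T0 a0 H z0 K G : ℕ) (η κ C D : ℝ)
    (hη : 0 < η) (hη1 : η < 1) (hκ : κ < 1) (hC : 0 < C)
    (hFL : ∀ (P : Set ℕ) (r : ℕ → ℤ) (z : ℕ) (a : ℤ) (H : ℕ), z0 ≤ z →
      D * Real.log z ≤ Real.log H → |(S P r z a H : ℝ) - V P z * H| ≤ η * (V P z * H))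
    (hD : 0 ≤ D)
    (hN : 2 ≤ N) (hT0 : T0 ≤ T N)
    (hHd : H = ⌊C * Real.log (4 * N) ^ 2⌋₊ + 1)
    (hS : (S Set.univ (fun _ => 0) T0 a0 H : ℝ) ≤ (1 - κ) * (V Set.univ T0 * H))
    (hH : (H : ℝ) ≤ (1 + η) * C * Real.log N ^ 2)
    (hz0 : 3 ≤ z0)
    (hzG : D * Real.log (max (T (4 * N)) z0 : ℕ) ≤ Real.log G)
    (hzK : D * Real.log (max (T (4 * N)) z0 : ℕ) ≤ Real.log K)
    (hG0 : 0 < G)
    (hsize : G + primorial T0 + primorial T0 * K + H ≤ N / (T (4 * N) + 1))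
    (hwt : ∀ m, N ≤ m → wt T m ≤ η / (1 + η)) :
    ∃ F : Finset ℕ, (∀ n ∈ F, N ≤ n) ∧
      (K * (η / (1 + η))) / G * (Real.exp (-((1 + η) * ((1 + η) *
        ((1 + η) ^ 2 * (1 - κ) * C * Real.log N)))) / Real.log (4 * N)) ≤
      ∑ n ∈ F, gapTerm T C n := by
  obtain ⟨B, hNB, hB4, hTB⟩ := block T hT N (T (4 * N) + 1) (N / (T (4 * N) + 1)) (by omega)
    (Nat.mul_div_le _ _)
  set Lam := N / (T (4 * N) + 1) with hLam
  obtain ⟨a1, ha1, ha2, ha3⟩ := exists_shift (B + G) a0 (primorial T0) (primorial_pos T0)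
  set t := T B with ht
  have htT : t ≤ T (4 * N) := hT (by omega)
  set z := max t z0 with hz
  have hzz : z ≤ max (T (4 * N)) z0 := max_le_max htT le_rfl
  have hz3 : 3 ≤ z := hz0.trans (le_max_right _ _)
  have hz3' : (3 : ℝ) ≤ z := by exact_mod_cast hz3
  have hlogz : Real.log z ≤ Real.log (max (T (4 * N)) z0 : ℕ) := by
    refine Real.log_le_log (by linarith) ?_
    exact_mod_cast hzz
  have hDz : D * Real.log z ≤ D * Real.log (max (T (4 * N)) z0 : ℕ) :=
    mul_le_mul_of_nonneg_left hlogz hD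
  refine core T N B Lam t T0 a0 a1 H z K G η κ C hTB hNB ha1 (by omega) hB4 hN
    (hT0.trans (hT hNB)) (le_max_left _ _) ha3 hη hκ hC hS hH (by omega) ?_ ?_ ?_ hG0
  · intro r
    have h1 := hFL {p | T0 < p ∧ p ≤ t} r z 0 K (le_max_right _ _) (hDz.trans hzK)
    have h2 := (abs_le.1 h1).2
    linarith
  · intro m hm _
    exact hwt m (hNB.trans hm)
  · refine rough_near t z G η hη1 (le_max_left _ _) hG0 ?_
    intro a
    exact hFL _ _ z a G (le_max_right _ _) (hDz.trans hzG)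

/-! ## Asymptotic inequalities -/

theorem tlog : Filter.Tendsto (fun n : ℕ => Real.log n) Filter.atTop Filter.atTop :=
  Real.tendsto_log_atTop.comp tendsto_natCast_atTop_atTop

theorem ev_pow (a c : ℝ) (ha : 0 < a) : ∀ᶠ N : ℕ in Filter.atTop, c ≤ (N : ℝ) ^ a :=
  ((tendsto_rpow_atTop ha).comp tendsto_natCast_atTop_atTop).eventually_ge_atTop c

/-- logarithms against powers -/
theorem ev_log (a c : ℝ) (ha : 0 < a) (hc : 0 < c) :
    ∀ᶠ N : ℕ in Filter.atTop, Real.log N ≤ c * (N : ℝ) ^ a := by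
  have h1 := (isLittleO_log_rpow_atTop ha).def hc
  have h2 := tendsto_natCast_atTop_atTop (R := ℝ) |>.eventually h1
  filter_upwards [h2] with N hN
  have h3 : 0 ≤ (N : ℝ) ^ a := Real.rpow_nonneg (Nat.cast_nonneg _) _
  rw [Real.norm_eq_abs, Real.norm_eq_abs, abs_of_nonneg h3] at hN
  exact (le_abs_self _).trans hN

/-- squares of logarithms against powers -/
theorem ev_log2 (a c : ℝ) (ha : 0 < a) (hc : 0 < c) :
    ∀ᶠ N : ℕ in Filter.atTop, Real.log N ^ 2 ≤ c * (N : ℝ) ^ a := by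
  filter_upwards [ev_log (a / 2) (Real.sqrt c) (by positivity) (Real.sqrt_pos.2 hc)] with N hN
  have h0 : 0 ≤ Real.log (N : ℝ) := Real.log_natCast_nonneg _
  have h3 : 0 ≤ (N : ℝ) := Nat.cast_nonneg _
  calc Real.log N ^ 2 ≤ (Real.sqrt c * (N : ℝ) ^ (a / 2)) ^ 2 := by gcongr
    _ = c * (N : ℝ) ^ a := by
      rw [mul_pow, Real.sq_sqrt hc.le, ← Real.rpow_natCast, ← Real.rpow_mul h3]
      norm_num

theorem ev_floor (a : ℝ) (ha : 0 < a) : ∀ᶠ N : ℕ in Filter.atTop,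
    (N : ℝ) ^ a / 2 ≤ (⌊(N : ℝ) ^ a⌋₊ : ℝ) := by
  filter_upwards [ev_pow a 2 ha] with N hN
  have := (Nat.lt_floor_add_one ((N : ℝ) ^ a)).le
  linarith

theorem ev_logfloor (a b : ℝ) (ha : 0 < a) (hb : b < a) : ∀ᶠ N : ℕ in Filter.atTop,
    b * Real.log N ≤ Real.log (⌊(N : ℝ) ^ a⌋₊ : ℝ) := by
  filter_upwards [ev_floor a ha, tlog.eventually_ge_atTop (Real.log 2 / (a - b)),
    Filter.eventually_ge_atTop 1] with N h1 h2 h3
  have hN : (0 : ℝ) < N := by exact_mod_cast h3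
  have hp : 0 < (N : ℝ) ^ a := Real.rpow_pos_of_pos hN _
  have h4 : Real.log ((N : ℝ) ^ a / 2) ≤ Real.log (⌊(N : ℝ) ^ a⌋₊ : ℝ) :=
    Real.log_le_log (by positivity) h1
  rw [Real.log_div hp.ne' (by norm_num), Real.log_rpow hN] at h4
  rw [div_le_iff₀ (by linarith)] at h2
  linarith

/-- `log T (4 N)` is small against `log N`. -/
theorem ev_T (T : ℕ → ℕ)
    (hT : Filter.Tendsto (fun n : ℕ => Real.log (T n) / Real.log n) Filter.atTop (nhds 0))
    (d : ℝ) (hd : 0 < d) : ∀ᶠ N : ℕ in Filter.atTop, Real.log (T (4 * N)) ≤ d * Real.log N := by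
  have h4 : Filter.Tendsto (fun N : ℕ => 4 * N) Filter.atTop Filter.atTop :=
    Filter.tendsto_atTop_mono (fun N => by simp only [id]; omega) Filter.tendsto_id
  have h1 := (hT.comp h4).eventually (gt_mem_nhds (show (0 : ℝ) < d / 2 by positivity))
  filter_upwards [h1, Filter.eventually_ge_atTop 4] with N hN hN4
  simp only [Function.comp] at hN
  have hN' : (4 : ℝ) ≤ N := by exact_mod_cast hN4
  have hc : ((4 * N : ℕ) : ℝ) = 4 * N := by push_cast; ring
  rw [hc] at hN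
  have hl4 : 0 < Real.log (4 * (N : ℝ)) := Real.log_pos (by linarith)
  rw [div_lt_iff₀ hl4] at hN
  have h5 : Real.log (4 * (N : ℝ)) ≤ 2 * Real.log N := by
    rw [Real.log_mul (by norm_num) (by linarith)]
    have : Real.log 4 ≤ Real.log N := Real.log_le_log (by norm_num) hN'
    linarith
  nlinarith

theorem ev_z (T : ℕ → ℕ)
    (hT : Filter.Tendsto (fun n : ℕ => Real.log (T n) / Real.log n) Filter.atTop (nhds 0))
    (z0 : ℕ) (D b : ℝ) (hD : 1 ≤ D) (hb : 0 < b) : ∀ᶠ N : ℕ in Filter.atTop,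
    D * Real.log (max (T (4 * N)) z0 : ℕ) ≤ b * Real.log N := by
  filter_upwards [ev_T T hT (b / D) (by positivity),
    tlog.eventually_ge_atTop (D * Real.log z0 / b)] with N h1 h2
  rcases le_total (T (4 * N)) z0 with h | h
  · rw [max_eq_right h]
    rwa [div_le_iff₀ hb, mul_comm _ b] at h2
  · rw [max_eq_left h]
    rw [div_mul_eq_mul_div, le_div_iff₀ (by positivity)] at h1
    linarith

theorem ev_M (T : ℕ → ℕ)
    (hT : Filter.Tendsto (fun n : ℕ => Real.log (T n) / Real.log n) Filter.atTop (nhds 0))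
    (a : ℝ) (ha : 0 < a) : ∀ᶠ N : ℕ in Filter.atTop,
    ((T (4 * N) + 1 : ℕ) : ℝ) ≤ (N : ℝ) ^ a := by
  filter_upwards [ev_T T hT (a / 2) (by positivity), ev_pow (a / 2) 2 (by positivity),
    Filter.eventually_ge_atTop 1] with N h1 h2 h3
  have hN : (0 : ℝ) < N := by exact_mod_cast h3
  have h4 : (T (4 * N) : ℝ) ≤ (N : ℝ) ^ (a / 2) := by
    rcases Nat.eq_zero_or_pos (T (4 * N)) with h | h
    · rw [h]; simp only [Nat.cast_zero]; positivity
    · have h5 : (0 : ℝ) < T (4 * N) := by exact_mod_cast h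
      rw [← Real.log_le_log_iff h5 (Real.rpow_pos_of_pos hN _), Real.log_rpow hN]
      exact h1
  have h5 : (N : ℝ) ^ a = (N : ℝ) ^ (a / 2) * (N : ℝ) ^ (a / 2) := by
    rw [← Real.rpow_add hN]; ring_nf
  push_cast
  rw [h5]
  nlinarith

theorem primorial_le_rpow (T0 N : ℕ) (η : ℝ) (hN : 2 ≤ N) (h : (T0 : ℝ) ≤ η / 2 * Real.log N) :
    (primorial T0 : ℝ) ≤ (N : ℝ) ^ η := by
  have hN' : (0 : ℝ) < N := by exact_mod_cast (by omega : 0 < N)
  have h1 : (primorial T0 : ℝ) ≤ 4 ^ T0 := by exact_mod_cast primorial_le_four_pow T0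
  refine h1.trans ?_
  have h2 : (4 : ℝ) ^ T0 = Real.exp (T0 * Real.log 4) := by
    rw [mul_comm, Real.exp_mul, Real.exp_log (by norm_num), Real.rpow_natCast]
  rw [h2, Real.rpow_def_of_pos hN', Real.exp_le_exp]
  have h3 : Real.log 4 ≤ 2 := by
    have : Real.log 4 = 2 * Real.log 2 := by
      rw [show (4 : ℝ) = 2 ^ 2 by norm_num, Real.log_pow]; norm_num
    have := Real.log_two_lt_d9
    linarith
  have h4 : 0 ≤ Real.log 4 := Real.log_nonneg (by norm_num)
  have h5 : (0 : ℝ) ≤ T0 := Nat.cast_nonneg _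
  nlinarith

theorem ev_H (C η : ℝ) (hC : 0 < C) (hη : 0 < η) : ∀ᶠ N : ℕ in Filter.atTop,
    ((⌊C * Real.log (4 * N) ^ 2⌋₊ + 1 : ℕ) : ℝ) ≤ (1 + η) * C * Real.log N ^ 2 := by
  filter_upwards [tlog.eventually_ge_atTop ((8 * C + 1) / (η * C)), tlog.eventually_ge_atTop 1,
    Filter.eventually_ge_atTop 1] with N h1 h2 h3
  have hN : (0 : ℝ) < N := by exact_mod_cast h3
  push_cast
  have h4 : (⌊C * Real.log (4 * N) ^ 2⌋₊ : ℝ) ≤ C * Real.log (4 * N) ^ 2 :=
    Nat.floor_le (by positivity)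
  have h5 : Real.log (4 * (N : ℝ)) = Real.log 4 + Real.log N := Real.log_mul (by norm_num) hN.ne'
  have h6 : Real.log 4 ≤ 2 := by
    have : Real.log 4 = 2 * Real.log 2 := by
      rw [show (4 : ℝ) = 2 ^ 2 by norm_num, Real.log_pow]; norm_num
    have := Real.log_two_lt_d9
    linarith
  have h7 : 0 ≤ Real.log 4 := Real.log_nonneg (by norm_num)
  rw [div_le_iff₀ (by positivity)] at h1
  set L := Real.log (N : ℝ) with hL
  have h8 : Real.log (4 * (N : ℝ)) ≤ 2 + L := by linarith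
  have h9 : C * Real.log (4 * N) ^ 2 ≤ C * (2 + L) ^ 2 := by
    have : 0 ≤ Real.log (4 * (N : ℝ)) := by linarith
    gcongr
  have h10 : (8 * C + 1) * L ≤ L * (η * C) * L := by
    exact mul_le_mul_of_nonneg_right h1 (by linarith)
  nlinarith

theorem ev_size (T : ℕ → ℕ)
    (hT : Filter.Tendsto (fun n : ℕ => Real.log (T n) / Real.log n) Filter.atTop (nhds 0))
    (C η : ℝ) (hC : 0 < C) (hη : 0 < η) (hη1 : η ≤ 1 / 5) : ∀ᶠ N : ℕ in Filter.atTop,
    ∀ T0 : ℕ, (T0 : ℝ) ≤ η / 2 * Real.log N →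
    ⌊(N : ℝ) ^ η⌋₊ + primorial T0 + primorial T0 * ⌊(N : ℝ) ^ (1 - 3 * η)⌋₊ +
      (⌊C * Real.log (4 * N) ^ 2⌋₊ + 1) ≤ N / (T (4 * N) + 1) := by
  have hc : 0 < 1 / (8 * ((1 + η) * C)) := by positivity
  filter_upwards [ev_M T hT η hη, ev_H C η hC hη, ev_log2 (1 - η) _ (by linarith) hc,
    ev_pow η 8 hη, ev_pow (1 - 2 * η) 8 (by linarith), ev_pow (1 - η) 8 (by linarith),
    Filter.eventually_ge_atTop 2] with N h1 h2 h3 h4 h5 h5' h6
  intro T0 hT0
  have hN : (0 : ℝ) < N := by exact_mod_cast (by omega : 0 < N)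
  have hP := primorial_le_rpow T0 N η h6 hT0
  have hG : (⌊(N : ℝ) ^ η⌋₊ : ℝ) ≤ (N : ℝ) ^ η := Nat.floor_le (by positivity)
  have hK : (⌊(N : ℝ) ^ (1 - 3 * η)⌋₊ : ℝ) ≤ (N : ℝ) ^ (1 - 3 * η) := Nat.floor_le (by positivity)
  rw [Nat.le_div_iff_mul_le (by omega)]
  have key : ((⌊(N : ℝ) ^ η⌋₊ + primorial T0 + primorial T0 * ⌊(N : ℝ) ^ (1 - 3 * η)⌋₊ +
      (⌊C * Real.log (4 * N) ^ 2⌋₊ + 1) : ℕ) : ℝ) ≤ (N : ℝ) ^ (1 - η) := by
    rw [Nat.cast_add, Nat.cast_add, Nat.cast_add, Nat.cast_mul]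
    have e1 : (N : ℝ) ^ η * (N : ℝ) ^ (1 - 3 * η) = (N : ℝ) ^ (1 - 2 * η) := by
      rw [← Real.rpow_add hN]; ring_nf
    have e2 : (N : ℝ) ^ η * (N : ℝ) ^ (1 - 2 * η) = (N : ℝ) ^ (1 - η) := by
      rw [← Real.rpow_add hN]; ring_nf
    have p1 : (0 : ℝ) < (N : ℝ) ^ η := by positivity
    have p2 : (0 : ℝ) < (N : ℝ) ^ (1 - 3 * η) := by positivity
    have p3 : (0 : ℝ) < (N : ℝ) ^ (1 - 2 * η) := by positivity
    have m1 : (primorial T0 : ℝ) * (⌊(N : ℝ) ^ (1 - 3 * η)⌋₊ : ℝ) ≤ (N : ℝ) ^ (1 - 2 * η) := by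
      rw [← e1]
      exact mul_le_mul hP hK (Nat.cast_nonneg _) p1.le
    have m2 : (N : ℝ) ^ (1 - 2 * η) ≤ (N : ℝ) ^ (1 - η) / 8 := by
      rw [← e2]
      nlinarith
    have m3 : (N : ℝ) ^ η ≤ (N : ℝ) ^ (1 - η) / 8 := by
      rw [← e2]
      nlinarith
    have m4 : (1 + η) * C * Real.log N ^ 2 ≤ (N : ℝ) ^ (1 - η) / 8 := by
      have : (1 + η) * C * Real.log N ^ 2 ≤ (1 + η) * C * (1 / (8 * ((1 + η) * C)) * (N : ℝ) ^ (1 - η)) :=
        mul_le_mul_of_nonneg_left h3 (by positivity)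
      refine this.trans (le_of_eq ?_)
      field_simp
    linarith
  have h7 : ((⌊(N : ℝ) ^ η⌋₊ + primorial T0 + primorial T0 * ⌊(N : ℝ) ^ (1 - 3 * η)⌋₊ +
      (⌊C * Real.log (4 * N) ^ 2⌋₊ + 1) : ℕ) : ℝ) * ((T (4 * N) + 1 : ℕ) : ℝ) ≤ N := by
    refine (mul_le_mul key h1 (Nat.cast_nonneg _) (by positivity)).trans (le_of_eq ?_)
    rw [← Real.rpow_add hN]
    ring_nf
    exact Real.rpow_one _
  exact_mod_cast h7

theorem ev_final (C κ η : ℝ) (hη : 0 < η) (hη1 : η ≤ 1 / 5)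
    (hη2 : (1 + η) ^ 4 * (C * (1 - κ)) ≤ 1 - 6 * η) : ∀ᶠ N : ℕ in Filter.atTop,
    (1 / 2 : ℝ) ≤ (⌊(N : ℝ) ^ (1 - 3 * η)⌋₊ * (η / (1 + η))) / ⌊(N : ℝ) ^ η⌋₊ *
      (Real.exp (-((1 + η) * ((1 + η) * ((1 + η) ^ 2 * (1 - κ) * C * Real.log N)))) /
        Real.log (4 * N)) := by
  have hc : 0 < η / (2 * (1 + η)) := by positivity
  filter_upwards [ev_floor (1 - 3 * η) (by linarith), ev_floor η hη,
    ev_log (2 * η) _ (by positivity) hc, Filter.eventually_ge_atTop 4] with N h1 h2 h3 h4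
  have hN4 : (4 : ℝ) ≤ N := by exact_mod_cast h4
  have hN : (0 : ℝ) < N := by linarith
  have hL : 0 < Real.log N := Real.log_pos (by linarith)
  have hG : (⌊(N : ℝ) ^ η⌋₊ : ℝ) ≤ (N : ℝ) ^ η := Nat.floor_le (by positivity)
  have p1 : (0 : ℝ) < (N : ℝ) ^ η := by positivity
  have hG0 : (0 : ℝ) < (⌊(N : ℝ) ^ η⌋₊ : ℝ) := lt_of_lt_of_le (by positivity) h2
  have h5 : Real.log (4 * (N : ℝ)) ≤ 2 * Real.log N := by
    rw [Real.log_mul (by norm_num) (by linarith)]
    have : Real.log 4 ≤ Real.log N := Real.log_le_log (by norm_num) hN4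
    linarith
  have hL4 : 0 < Real.log (4 * (N : ℝ)) := Real.log_pos (by linarith)
  have h6 : (N : ℝ) ^ (-(1 - 6 * η)) ≤
      Real.exp (-((1 + η) * ((1 + η) * ((1 + η) ^ 2 * (1 - κ) * C * Real.log N)))) := by
    rw [Real.rpow_def_of_pos hN, Real.exp_le_exp]
    have : (1 + η) * ((1 + η) * ((1 + η) ^ 2 * (1 - κ) * C * Real.log N)) =
        ((1 + η) ^ 4 * (C * (1 - κ))) * Real.log N := by ring
    rw [this]
    nlinarith
  have h7 : (N : ℝ) ^ (1 - 3 * η) / 2 * (η / (1 + η)) / (N : ℝ) ^ η *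
      ((N : ℝ) ^ (-(1 - 6 * η)) / (2 * Real.log N)) ≤
      (⌊(N : ℝ) ^ (1 - 3 * η)⌋₊ * (η / (1 + η))) / ⌊(N : ℝ) ^ η⌋₊ *
      (Real.exp (-((1 + η) * ((1 + η) * ((1 + η) ^ 2 * (1 - κ) * C * Real.log N)))) /
        Real.log (4 * N)) := by
    gcongr
  refine le_trans ?_ h7
  have e1 : (N : ℝ) ^ (1 - 3 * η) / (N : ℝ) ^ η * (N : ℝ) ^ (-(1 - 6 * η)) = (N : ℝ) ^ (2 * η) := by
    rw [← Real.rpow_sub hN, ← Real.rpow_add hN]
    ring_nf
  have e2 : (N : ℝ) ^ (1 - 3 * η) / 2 * (η / (1 + η)) / (N : ℝ) ^ η *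
      ((N : ℝ) ^ (-(1 - 6 * η)) / (2 * Real.log N)) =
      (η / (2 * (1 + η)) * (N : ℝ) ^ (2 * η)) / (2 * Real.log N) := by
    rw [← e1]
    field_simp
  rw [e2, le_div_iff₀ (by positivity)]
  linarith

theorem exists_eta (x : ℝ) (hx : x < 1) : ∃ η : ℝ, 0 < η ∧ η ≤ 1 / 5 ∧
    (1 + η) ^ 4 * x ≤ 1 - 6 * η := by
  have h1 : Filter.Tendsto (fun η : ℝ => (1 + η) ^ 4 * x + 6 * η) (nhdsWithin 0 (Set.Ioi 0))
      (nhds x) := by
    have h2 : Continuous (fun η : ℝ => (1 + η) ^ 4 * x + 6 * η) := by fun_prop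
    have h3 := h2.tendsto 0
    simp only [add_zero, one_pow, one_mul, mul_zero] at h3
    exact h3.mono_left nhdsWithin_le_nhds
  have h2 := h1.eventually (gt_mem_nhds hx)
  have h3 : ∀ᶠ η : ℝ in nhdsWithin 0 (Set.Ioi 0), 0 < η ∧ η ≤ 1 / 5 :=
    Ioc_mem_nhdsGT (by norm_num)
  obtain ⟨η, h4, h5, h6⟩ := (h2.and h3).exists
  exact ⟨η, h5, h6, by linarith⟩

/-! ## Conclusion -/

/-- Divergence side of the threshold. -/
theorem lowerSide (M : Mert) (F : FL) : LowerSide := by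
  intro T κ C hT hTlog hκ0 hκ1 hC hCκ hfreq hsum
  obtain ⟨η, hη, hη5, hη2⟩ := exists_eta (C * (1 - κ)) hCκ
  obtain ⟨D, z0, hD, hz0, hFL⟩ := fl_use F η hη (by linarith)
  obtain ⟨s, hs⟩ := summable_iff_vanishing_norm.1 hsum (1 / 2) (by norm_num)
  have hev : ∀ᶠ N : ℕ in Filter.atTop, ∀ x ∈ s, x < N := by
    filter_upwards [Filter.eventually_gt_atTop (s.sup id)] with N hN x hx
    exact lt_of_le_of_lt (Finset.le_sup (f := id) hx) hN
  have hw : ∀ᶠ N : ℕ in Filter.atTop, ∀ m, N ≤ m → wt T m ≤ η / (1 + η) :=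
    Filter.eventually_forall_ge_atTop.2 (wt_small M T hTlog (η / (1 + η)) (by positivity))
  obtain ⟨N, ⟨T0, a0, hT0, hT0', hS⟩, hN2, hNs, hNw, hNz, hNG, hNK, hNH, hNsize, hNfin⟩ :=
    ((hfreq (η / 2) (by positivity)).and_eventually ((Filter.eventually_ge_atTop 2).and
      (hev.and (hw.and ((ev_z T hTlog z0 D (η / 2) hD (by positivity)).and
      ((ev_logfloor η (η / 2) hη (by linarith)).and
      ((ev_logfloor (1 - 3 * η) (η / 2) (by linarith) (by linarith)).and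
      ((ev_H C η hC hη).and
      ((ev_size T hTlog C η hC hη hη5).and (ev_final C κ η hη hη5 hη2)))))))))).exists
  have hNr : (2 : ℝ) ≤ N := by exact_mod_cast hN2
  have hL : 0 < Real.log N := Real.log_pos (by linarith)
  have hG0 : 0 < ⌊(N : ℝ) ^ η⌋₊ := by
    rcases Nat.eq_zero_or_pos ⌊(N : ℝ) ^ η⌋₊ with h | h
    · rw [h, Nat.cast_zero, Real.log_zero] at hNG
      have : 0 < η / 2 * Real.log N := by positivity
      linarith
    · exact h
  obtain ⟨A, hA1, hA2⟩ := one_scale T hT N T0 a0 (⌊C * Real.log (4 * N) ^ 2⌋₊ + 1) z0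
    ⌊(N : ℝ) ^ (1 - 3 * η)⌋₊ ⌊(N : ℝ) ^ η⌋₊ η κ C D hη (by linarith) hκ1 hC hFL (by linarith) hN2 hT0
    rfl hS hNH hz0 (hNz.trans hNG) (hNz.trans hNK) hG0 (hNsize T0 hT0') hNw
  have hdis : Disjoint A s := by
    rw [Finset.disjoint_left]
    intro x hx hxs
    have h1 := hA1 x hx
    have h2 := hNs x hxs
    omega
  have h1 := hs A hdis
  rw [Real.norm_eq_abs] at h1
  have h2 := le_abs_self (∑ n ∈ A, gapTerm T C n)
  linarith

end Pool.Agent.H67.GT.LOW
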