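import Mathlib
import Pool.Agent.H67.GT.Defs
import Pool.Agent.H67.GT.MERT

/-!
# Lower bound for the Euler product (module PROD of MP_028722_G)
-/

set_option autoImplicit false

namespace Pool.Agent.H67.GT.PROD

open Finset Nat
open Pool.Agent.H67.GT.MERT (mem_prs V_pos factor_pos)
open Pool.Agent.H93.DC (pw pw_apply pw_nonneg one_add_zeta)

/-- the main term attached to the prime `p` -/
noncomputable def tm (x L : ℝ) (p : ℕ) : ℝ :=
  1 / (p : ℝ) * (1 - Real.exp (x * (Real.log p / L)) * Real.cos (Real.pi * (Real.log p / L)))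

lemma factor_lb {x L : ℝ} (hx : 0 ≤ x) (hL : 0 < L) (hxL : 4 * x ≤ L) {p : ℕ} (hp : p.Prime) :
    (1 - 1 / (p : ℝ)) * Real.exp (tm x L p - 1.25 * (p : ℝ) ^ (-(3 / 2) : ℝ)) ≤
      ‖1 - (p : ℂ) ^ (-(1 - ((x : ℂ) + Real.pi * Complex.I) / (L : ℂ)))‖ := by
  have hp2 : (2 : ℝ) ≤ p := by exact_mod_cast hp.two_le
  have hp0 : (0 : ℝ) < p := by linarith
  have hpC : (p : ℂ) ≠ 0 := by exact_mod_cast hp.ne_zero
  have hLC : (L : ℂ) ≠ 0 := by exact_mod_cast hL.ne'
  have hlogp : 0 ≤ Real.log p := Real.log_nonneg (by linarith)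
  set θ := Real.log p / L with hθ
  have hθ0 : 0 ≤ θ := by positivity
  set y : ℂ := (p : ℂ) ^ (-(1 - ((x : ℂ) + Real.pi * Complex.I) / (L : ℂ))) with hy
  have hy1 : y = Complex.exp (((-Real.log p + x * θ : ℝ) : ℂ) + ((Real.pi * θ : ℝ) : ℂ) * Complex.I) := by
    rw [hy, Complex.cpow_def_of_ne_zero hpC, ← Complex.natCast_log]
    congr 1
    rw [hθ]
    push_cast
    field_simp
    ring
  have hnorm : ‖y‖ = Real.exp (-Real.log p + x * θ) := by
    rw [hy1, Complex.norm_exp]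
    congr 1
    rw [Complex.add_re, Complex.mul_re, Complex.ofReal_re, Complex.ofReal_re, Complex.I_re,
      Complex.ofReal_im, Complex.I_im]
    ring
  have hre : y.re = 1 / (p : ℝ) * (Real.exp (x * θ) * Real.cos (Real.pi * θ)) := by
    rw [hy1, Complex.exp_re]
    have e1 : ((((-Real.log p + x * θ : ℝ) : ℂ) + ((Real.pi * θ : ℝ) : ℂ) * Complex.I)).re
        = -Real.log p + x * θ := by
      rw [Complex.add_re, Complex.mul_re, Complex.ofReal_re, Complex.ofReal_re, Complex.I_re,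
        Complex.ofReal_im, Complex.I_im]
      ring
    have e2 : ((((-Real.log p + x * θ : ℝ) : ℂ) + ((Real.pi * θ : ℝ) : ℂ) * Complex.I)).im
        = Real.pi * θ := by
      rw [Complex.add_im, Complex.mul_im, Complex.ofReal_re, Complex.ofReal_im, Complex.I_re,
        Complex.ofReal_im, Complex.I_im]
      ring
    rw [e1, e2, Real.exp_add, Real.exp_neg, Real.exp_log hp0]
    ring
  have hxθ : x * θ ≤ Real.log p / 4 := by
    rw [hθ, mul_div_assoc', div_le_iff₀ hL]
    nlinarith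
  have hn34 : ‖y‖ ≤ (p : ℝ) ^ (-(3 / 4) : ℝ) := by
    rw [hnorm, Real.rpow_def_of_pos hp0]
    apply Real.exp_le_exp.mpr
    linarith
  have hn6 : ‖y‖ ≤ 0.6 := by
    refine hn34.trans ?_
    have h1 : (p : ℝ) ^ (-(3 / 4) : ℝ) ≤ (2 : ℝ) ^ (-(3 / 4) : ℝ) :=
      Real.rpow_le_rpow_of_nonpos (by norm_num) hp2 (by norm_num)
    refine h1.trans ?_
    have h2 : ((2 : ℝ) ^ (-(3 / 4) : ℝ)) ^ 4 = 1 / 8 := by
      rw [← Real.rpow_natCast, ← Real.rpow_mul (by norm_num)]
      norm_num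
    by_contra h3
    push Not at h3
    have h4 : (0.6 : ℝ) ^ 4 < ((2 : ℝ) ^ (-(3 / 4) : ℝ)) ^ 4 := by
      gcongr
    rw [h2] at h4
    norm_num at h4
  have hsq : ‖y‖ ^ 2 ≤ (p : ℝ) ^ (-(3 / 2) : ℝ) := by
    calc ‖y‖ ^ 2 ≤ ((p : ℝ) ^ (-(3 / 4) : ℝ)) ^ 2 := by gcongr
      _ = _ := by
        rw [← Real.rpow_natCast, ← Real.rpow_mul hp0.le]
        norm_num
  have hlt : ‖-y‖ < 1 := by rw [norm_neg]; linarith
  have hlog := Complex.norm_log_one_add_sub_self_le hlt
  have h1y : (1 : ℂ) + -y = 1 - y := by ring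
  rw [h1y, norm_neg] at hlog
  have hle : ‖y‖ ^ 2 * (1 - ‖y‖)⁻¹ / 2 ≤ 1.25 * ‖y‖ ^ 2 := by
    have h1 : (1 - ‖y‖)⁻¹ ≤ 2.5 := by
      have : (0.4 : ℝ) ≤ 1 - ‖y‖ := by linarith
      calc (1 - ‖y‖)⁻¹ ≤ (0.4 : ℝ)⁻¹ := inv_anti₀ (by norm_num) this
        _ = 2.5 := by norm_num
    have h2 : 0 ≤ ‖y‖ ^ 2 := by positivity
    nlinarith
  have hre2 : -(1.25 * ‖y‖ ^ 2) ≤ (Complex.log (1 - y) - -y).re := by
    have h1 := Complex.abs_re_le_norm (Complex.log (1 - y) - -y)
    have h2 := neg_abs_le (Complex.log (1 - y) - -y).re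
    linarith
  rw [Complex.sub_re, Complex.log_re, Complex.neg_re] at hre2
  have hpos : 0 < ‖1 - y‖ := by
    rw [norm_pos_iff, sub_ne_zero]
    intro h
    rw [← h] at hn6
    norm_num at hn6
  rw [← Real.exp_log hpos]
  have h1p : 1 - 1 / (p : ℝ) ≤ Real.exp (-(1 / (p : ℝ))) := by
    have := Real.add_one_le_exp (-(1 / (p : ℝ)))
    linarith
  calc (1 - 1 / (p : ℝ)) * Real.exp (tm x L p - 1.25 * (p : ℝ) ^ (-(3 / 2) : ℝ))
      ≤ Real.exp (-(1 / (p : ℝ))) * Real.exp (tm x L p - 1.25 * (p : ℝ) ^ (-(3 / 2) : ℝ)) := by gcongr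
    _ = Real.exp (-(1 / (p : ℝ)) + (tm x L p - 1.25 * (p : ℝ) ^ (-(3 / 2) : ℝ))) := by
        rw [Real.exp_add]
    _ ≤ Real.exp (Real.log ‖1 - y‖) := by
        apply Real.exp_le_exp.mpr
        have : tm x L p = 1 / (p : ℝ) - y.re := by
          rw [hre, tm, ← hθ]; ring
        rw [this]
        linarith

lemma sum_rpow_le (z : ℕ) : ∑ p ∈ prs Set.univ z, (p : ℝ) ^ (-(3 / 2) : ℝ) ≤ 2 := by
  obtain ⟨h1, h2⟩ := one_add_zeta (s := 3 / 2) (by norm_num)
  have h3 := h1.sum_le_tsum (insert 1 (prs Set.univ z)) (fun i _ => pw_nonneg _ i)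
  rw [Finset.sum_insert] at h3
  · have h4 : pw (3 / 2) 1 = 1 := by rw [pw_apply]; simp
    have h5 : ∑ p ∈ prs Set.univ z, pw (3 / 2) p = ∑ p ∈ prs Set.univ z, (p : ℝ) ^ (-(3 / 2) : ℝ) :=
      Finset.sum_congr rfl (fun p _ => pw_apply _ _)
    rw [h4, h5] at h3
    norm_num at h2
    linarith
  · intro h
    exact Nat.not_prime_one (mem_prs.mp h).2.1

/-- per prime lower bound -/
lemma tm_lb {x L : ℝ} (hx : 0 ≤ x) (hL : 0 < L) {p : ℕ} (hp : p.Prime) (hpL : Real.log p ≤ L) :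
    (if 3 * L / 4 < Real.log p then 0.7 * Real.exp (3 * x / 4) / L * (Real.log p / p) else 0) -
      (if Real.log p ≤ L / 2 then x * Real.exp (x / 2) / L * (Real.log p / p) else 0) ≤ tm x L p := by
  have hp2 : (2 : ℝ) ≤ p := by exact_mod_cast hp.two_le
  have hp0 : (0 : ℝ) < p := by linarith
  have hlogp : 0 ≤ Real.log p := Real.log_nonneg (by linarith)
  unfold tm
  set θ := Real.log p / L with hθ
  have hθ0 : 0 ≤ θ := by positivity
  have hθ1 : θ ≤ 1 := by rw [hθ, div_le_one hL]; exact hpL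
  have hpi := Real.pi_pos
  have hlogeq : Real.log p = θ * L := by rw [hθ]; field_simp
  by_cases h1 : Real.log p ≤ L / 2
  · have hn : ¬ (3 * L / 4 < Real.log p) := by linarith
    rw [if_neg hn, if_pos h1]
    have hθ2 : θ ≤ 1 / 2 := by rw [hθ, div_le_iff₀ hL]; linarith
    have hcos : Real.cos (Real.pi * θ) ≤ 1 := Real.cos_le_one _
    have he : Real.exp (x * θ) * Real.cos (Real.pi * θ) ≤ Real.exp (x * θ) := by
      have := Real.exp_pos (x * θ)
      nlinarith
    have he2 : Real.exp (x * θ) - 1 ≤ x * θ * Real.exp (x / 2) := by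
      have h2 := Real.add_one_le_exp (-(x * θ))
      have h3 : Real.exp (x * θ) * Real.exp (-(x * θ)) = 1 := by rw [← Real.exp_add]; simp
      have h4 : Real.exp (x * θ) - 1 ≤ x * θ * Real.exp (x * θ) := by
        have := Real.exp_pos (x * θ)
        nlinarith
      have h5 : Real.exp (x * θ) ≤ Real.exp (x / 2) := by
        apply Real.exp_le_exp.mpr; nlinarith
      have h6 : 0 ≤ x * θ := by positivity
      nlinarith
    have h7 : x * Real.exp (x / 2) / L * (Real.log p / p) = 1 / (p : ℝ) * (x * θ * Real.exp (x / 2)) := by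
      rw [hlogeq]; field_simp
    rw [h7]
    have h8 : (0:ℝ) ≤ 1 / (p : ℝ) := by positivity
    nlinarith
  · rw [if_neg h1]
    push Not at h1
    have hθ2 : 1 / 2 < θ := by rw [hθ, lt_div_iff₀ hL]; linarith
    by_cases h2 : 3 * L / 4 < Real.log p
    · rw [if_pos h2]
      have hθ3 : 3 / 4 < θ := by rw [hθ, lt_div_iff₀ hL]; linarith
      have hcos : Real.cos (Real.pi * θ) ≤ -0.7 := by
        have h3 : Real.cos (Real.pi * θ) ≤ Real.cos (Real.pi * (3 / 4)) := by
          apply Real.cos_le_cos_of_nonneg_of_le_pi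
          · positivity
          · nlinarith
          · nlinarith
        have h4 : Real.cos (Real.pi * (3 / 4)) = -(Real.sqrt 2 / 2) := by
          rw [show Real.pi * (3 / 4) = Real.pi - Real.pi / 4 by ring, Real.cos_pi_sub, Real.cos_pi_div_four]
        have h5 : (1.4 : ℝ) ≤ Real.sqrt 2 := by
          apply Real.le_sqrt_of_sq_le; norm_num
        linarith
      have he : Real.exp (3 * x / 4) ≤ Real.exp (x * θ) := by
        apply Real.exp_le_exp.mpr; nlinarith
      have he0 := Real.exp_pos (3 * x / 4)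
      have h6 : 0.7 * Real.exp (3 * x / 4) ≤ 1 - Real.exp (x * θ) * Real.cos (Real.pi * θ) := by
        nlinarith [Real.exp_pos (x * θ)]
      have h7 : 0.7 * Real.exp (3 * x / 4) / L * (Real.log p / p) =
          1 / (p : ℝ) * (0.7 * Real.exp (3 * x / 4) * θ) := by
        rw [hlogeq]; field_simp
      rw [h7, sub_zero]
      have h8 : (0:ℝ) ≤ 1 / (p : ℝ) := by positivity
      have h9 : 0.7 * Real.exp (3 * x / 4) * θ ≤ 0.7 * Real.exp (3 * x / 4) := by
        nlinarith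
      nlinarith
    · rw [if_neg h2, sub_zero]
      have hcos : Real.cos (Real.pi * θ) ≤ 0 := by
        apply Real.cos_nonpos_of_pi_div_two_le_of_le
        · nlinarith
        · nlinarith
      have h8 : (0:ℝ) ≤ 1 / (p : ℝ) := by positivity
      have he0 := Real.exp_pos (x * θ)
      have : Real.exp (x * θ) * Real.cos (Real.pi * θ) ≤ 0 := by nlinarith
      nlinarith

/-- module PROD -/
theorem prodLB (M : Mert) : ProdLB := by
  obtain ⟨c, hc1, hM1, hM2, -, -, -⟩ := M
  intro x hx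
  refine ⟨⌈Real.exp (4 * x + 20 * c)⌉₊ + 2, fun z hz => ?_⟩
  set L := Real.log z with hL
  have hz1 : Real.exp (4 * x + 20 * c) ≤ z := by
    have h1 := Nat.le_ceil (Real.exp (4 * x + 20 * c))
    have h2 : (⌈Real.exp (4 * x + 20 * c)⌉₊ : ℝ) ≤ z := by exact_mod_cast (by omega)
    linarith
  have hz0 : (0 : ℝ) < z := lt_of_lt_of_le (Real.exp_pos _) hz1
  have hLbig : 4 * x + 20 * c ≤ L := by
    have := Real.log_le_log (Real.exp_pos _) hz1
    rwa [Real.log_exp] at this
  have hL0 : 0 < L := by linarith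
  have hexpL : Real.exp L = z := Real.exp_log hz0
  -- the sums
  have hsum1 : ∑ p ∈ prs Set.univ z, (if Real.log p ≤ L / 2 then x * Real.exp (x / 2) / L * (Real.log p / p) else 0)
      ≤ x * Real.exp (x / 2) := by
    have h1 := hM1 1 (Real.exp (L / 2)) le_rfl (Real.one_le_exp (by linarith))
    rw [div_one, Real.log_exp] at h1
    have h2 : ∑ p ∈ prs Set.univ z, (if Real.log p ≤ L / 2 then x * Real.exp (x / 2) / L * (Real.log p / p) else 0)
        ≤ x * Real.exp (x / 2) / L * ∑ p ∈ (Finset.Icc 1 ⌊Real.exp (L / 2)⌋₊).filter (fun p : ℕ => p.Prime ∧ (1 : ℝ) < p), Real.log p / p := by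
      rw [Finset.mul_sum, ← Finset.sum_filter]
      apply Finset.sum_le_sum_of_subset_of_nonneg
      · intro p hp
        rw [mem_filter, mem_prs] at hp
        have hp2 : (2 : ℝ) ≤ p := by exact_mod_cast hp.1.2.1.two_le
        rw [mem_filter, mem_Icc]
        refine ⟨⟨hp.1.2.1.one_lt.le, Nat.le_floor ?_⟩, hp.1.2.1, by linarith⟩
        rw [← Real.exp_log (show (0:ℝ) < p by linarith)]
        exact Real.exp_le_exp.mpr hp.2
      · intro p hp _
        rw [mem_filter] at hp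
        have : 0 ≤ Real.log p := Real.log_nonneg hp.2.2.le
        positivity
    refine h2.trans ?_
    have h3 : 0 ≤ x * Real.exp (x / 2) / L := by positivity
    calc _ ≤ x * Real.exp (x / 2) / L * (L / 2 + c) := by gcongr
      _ ≤ x * Real.exp (x / 2) / L * L := by gcongr; linarith
      _ = _ := by field_simp
  have hsum2 : 0.14 * Real.exp (3 * x / 4) ≤
      ∑ p ∈ prs Set.univ z, (if 3 * L / 4 < Real.log p then 0.7 * Real.exp (3 * x / 4) / L * (Real.log p / p) else 0) := by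
    have h1 := hM2 (Real.exp (3 * L / 4)) z (Real.one_le_exp (by linarith))
      (by rw [← hexpL]; exact Real.exp_le_exp.mpr (by linarith))
    rw [Real.log_div hz0.ne' (Real.exp_pos _).ne', Real.log_exp, ← hL] at h1
    have h2 : 0.7 * Real.exp (3 * x / 4) / L *
        ∑ p ∈ (Finset.Icc 1 ⌊(z : ℝ)⌋₊).filter (fun p : ℕ => p.Prime ∧ Real.exp (3 * L / 4) < p), Real.log p / p ≤
        ∑ p ∈ prs Set.univ z, (if 3 * L / 4 < Real.log p then 0.7 * Real.exp (3 * x / 4) / L * (Real.log p / p) else 0) := by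
      rw [Finset.mul_sum, ← Finset.sum_filter]
      apply le_of_eq
      refine Finset.sum_congr ?_ (fun _ _ => rfl)
      ext p
      rw [mem_filter, mem_filter, mem_prs, mem_Icc, Nat.floor_natCast]
      constructor
      · rintro ⟨⟨h3, h4⟩, h5, h6⟩
        refine ⟨⟨h4, h5, trivial⟩, ?_⟩
        have := Real.log_lt_log (Real.exp_pos _) h6
        rwa [Real.log_exp] at this
      · rintro ⟨⟨h3, h4, -⟩, h5⟩
        refine ⟨⟨h4.one_lt.le, h3⟩, h4, ?_⟩
        have hp0 : (0 : ℝ) < p := by exact_mod_cast h4.pos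
        rw [← Real.exp_log hp0]
        exact Real.exp_lt_exp.mpr h5
    refine le_trans ?_ h2
    have h3 : 0 ≤ 0.7 * Real.exp (3 * x / 4) / L := by positivity
    calc 0.14 * Real.exp (3 * x / 4) = 0.7 * Real.exp (3 * x / 4) / L * (0.2 * L) := by field_simp; ring
      _ ≤ 0.7 * Real.exp (3 * x / 4) / L * (L - 3 * L / 4 - c) := by gcongr; linarith
      _ ≤ _ := by gcongr
  have hsum3 := sum_rpow_le z
  have hmain : 0.14 * Real.exp (3 * x / 4) - x * Real.exp (x / 2) - 6 ≤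
      ∑ p ∈ prs Set.univ z, (tm x L p - 1.25 * (p : ℝ) ^ (-(3 / 2) : ℝ)) := by
    rw [Finset.sum_sub_distrib, ← Finset.mul_sum]
    have h1 : ∑ p ∈ prs Set.univ z, ((if 3 * L / 4 < Real.log p then 0.7 * Real.exp (3 * x / 4) / L * (Real.log p / p) else 0) -
      (if Real.log p ≤ L / 2 then x * Real.exp (x / 2) / L * (Real.log p / p) else 0)) ≤
        ∑ p ∈ prs Set.univ z, tm x L p := by
      apply Finset.sum_le_sum
      intro p hp
      rw [mem_prs] at hp
      apply tm_lb (by linarith) hL0 hp.2.1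
      exact Real.log_le_log (by exact_mod_cast hp.2.1.pos) (by exact_mod_cast hp.1)
    rw [Finset.sum_sub_distrib] at h1
    linarith
  calc V Set.univ z * Real.exp (0.14 * Real.exp (3 * x / 4) - x * Real.exp (x / 2) - 6)
      ≤ V Set.univ z * Real.exp (∑ p ∈ prs Set.univ z, (tm x L p - 1.25 * (p : ℝ) ^ (-(3 / 2) : ℝ))) := by
        have := V_pos Set.univ z
        gcongr
    _ = ∏ p ∈ prs Set.univ z, ((1 - 1 / (p : ℝ)) * Real.exp (tm x L p - 1.25 * (p : ℝ) ^ (-(3 / 2) : ℝ))) := by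
        rw [Finset.prod_mul_distrib, Real.exp_sum]; rfl
    _ ≤ ∏ p ∈ prs Set.univ z, ‖1 - (p : ℂ) ^ (-(1 - ((x : ℂ) + Real.pi * Complex.I) / (L : ℂ)))‖ := by
        apply Finset.prod_le_prod
        · intro p hp
          exact mul_nonneg (factor_pos (mem_prs.mp hp).2.1).le (Real.exp_pos _).le
        · intro p hp
          exact factor_lb (by linarith) hL0 (by linarith) (mem_prs.mp hp).2.1
    _ = ‖PiZ z (1 - (x + Real.pi * Complex.I) / Real.log z)‖ := by
        unfold PiZ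
        rw [norm_prod]

end Pool.Agent.H67.GT.PROD
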