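import Mathlib
import Pool.Agent.H67.GT.Defs

/-!
# Module UP of MP_028722_G (helper6): convergence for `C > 1` and level at most `(log n)^α`
-/

set_option autoImplicit false

namespace Pool.Agent.H67.GT.UP

open Finset Pool.Agent.H67.GT Filter

lemma prs_restrict (t Z : ℕ) (h : t ≤ Z) : prs {p | p ≤ t} Z = prs Set.univ t := by
  unfold prs
  ext p
  simp only [mem_filter, mem_Icc, Set.mem_ofPred_eq, Set.mem_univ, and_true]
  constructor
  · rintro ⟨⟨h1, h2⟩, h3, h4⟩
    exact ⟨⟨h1, h4⟩, h3⟩
  · rintro ⟨⟨h1, h2⟩, h3⟩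
    exact ⟨⟨h1, h2.trans h⟩, h3, h2⟩

lemma mem_prs_univ (t p : ℕ) : p ∈ prs Set.univ t ↔ p.Prime ∧ p ≤ t := by
  unfold prs
  simp only [mem_filter, mem_Icc, Set.mem_univ, and_true]
  constructor
  · rintro ⟨⟨h1, h2⟩, h3⟩
    exact ⟨h3, h2⟩
  · rintro ⟨h3, h2⟩
    exact ⟨⟨h3.one_lt.le, h2⟩, h3⟩

lemma V_pos (P : Set ℕ) (z : ℕ) : 0 < V P z := by
  unfold V
  apply Finset.prod_pos
  intro p hp
  have hp' : p.Prime := by
    unfold prs at hp
    simp only [mem_filter] at hp
    exact hp.2.1
  have h2 : (2 : ℝ) ≤ p := by exact_mod_cast hp'.two_le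
  have : 1 / (p : ℝ) ≤ 1 / 2 := one_div_le_one_div_of_le (by norm_num) h2
  linarith

lemma V_le_one (P : Set ℕ) (z : ℕ) : V P z ≤ 1 := by
  unfold V
  apply Finset.prod_le_one
  · intro p hp
    have hp' : p.Prime := by
      unfold prs at hp
      simp only [mem_filter] at hp
      exact hp.2.1
    have h2 : (2 : ℝ) ≤ p := by exact_mod_cast hp'.two_le
    have : 1 / (p : ℝ) ≤ 1 / 2 := one_div_le_one_div_of_le (by norm_num) h2
    linarith
  · intro p hp
    have : 0 ≤ 1 / (p : ℝ) := by positivity
    linarith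

lemma V_small (t : ℕ) (ht : t < 2) : V Set.univ t = 1 := by
  unfold V
  apply Finset.prod_eq_one
  intro p hp
  rw [mem_prs_univ] at hp
  have := hp.1.two_le
  omega

lemma sifted_iff (t n : ℕ) : Sifted Set.univ (fun _ => 0) t (n : ℤ) ↔ Rough t n := by
  unfold Sifted Rough
  constructor
  · intro h p hp hpt hd
    refine h p ((mem_prs_univ t p).2 ⟨hp, hpt⟩) ?_
    rw [Int.modEq_zero_iff_dvd]
    exact_mod_cast hd
  · intro h p hp hd
    rw [mem_prs_univ] at hp
    refine h p hp.1 hp.2 ?_
    rw [Int.modEq_zero_iff_dvd] at hd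
    exact_mod_cast hd

open Classical in
lemma S_nat (t a H : ℕ) : S Set.univ (fun _ => 0) t (a : ℤ) H =
    ((Finset.Ioc a (a + H)).filter (fun n => Rough t n)).card := by
  unfold S
  have himg : (Finset.Ioc (a : ℤ) ((a : ℤ) + (H : ℤ))) = (Finset.Ioc a (a + H)).image (fun n : ℕ => (n : ℤ)) := by
    ext x
    simp only [mem_Ioc, mem_image]
    constructor
    · rintro ⟨h1, h2⟩
      refine ⟨x.toNat, ⟨by omega, by omega⟩, by omega⟩
    · rintro ⟨y, ⟨h1, h2⟩, rfl⟩
      exact ⟨by exact_mod_cast h1, by exact_mod_cast h2⟩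
  rw [himg, Finset.filter_image, Finset.card_image_of_injective _ Nat.cast_injective]
  congr 1
  apply Finset.filter_congr
  intro n _
  exact sifted_iff t n

lemma S_restrict (t Z : ℕ) (h : t ≤ Z) (a : ℤ) (H : ℕ) :
    S {p | p ≤ t} (fun _ => 0) Z a H = S Set.univ (fun _ => 0) t a H := by
  unfold S Sifted
  rw [prs_restrict t Z h]

lemma V_restrict (t Z : ℕ) (h : t ≤ Z) : V {p | p ≤ t} Z = V Set.univ t := by
  unfold V
  rw [prs_restrict t Z h]

lemma wt_nonneg (T : ℕ → ℕ) (n : ℕ) : 0 ≤ wt T n := by
  unfold wt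
  split_ifs with h
  · have h1 := V_pos Set.univ (T n)
    have h2 : 0 ≤ Real.log n := Real.log_natCast_nonneg n
    positivity
  · exact le_refl _

/-- Lower bound for the sum of the weights over a good block. -/
lemma block_sum (T : ℕ → ℕ) (hT : Monotone T) (a L t : ℕ) (B η : ℝ) (hB : 0 < B)
    (h1 : T a = t) (h2 : T (a + L) = t) (ha : 2 ≤ a) (hlog : Real.log (a + L : ℕ) ≤ B)
    (hS : (1 - η) * (V Set.univ t * L) ≤ (S Set.univ (fun _ => 0) t (a : ℤ) L : ℝ)) :
    (1 - η) * L / B ≤ ∑ k ∈ Finset.Ioc a (a + L), wt T k := by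
  classical
  have hV := V_pos Set.univ t
  rw [S_nat] at hS
  have hterm : ∀ k ∈ Finset.Ioc a (a + L), (if Rough t k then 1 / (V Set.univ t * B) else 0) ≤ wt T k := by
    intro k hk
    rw [mem_Ioc] at hk
    have hTk : T k = t := le_antisymm (h2 ▸ hT hk.2) (h1 ▸ hT hk.1.le)
    unfold wt
    rw [hTk]
    split_ifs with hr
    · have hk2 : (2 : ℝ) ≤ k := by exact_mod_cast (le_trans ha hk.1.le)
      have hlk : 0 < Real.log k := Real.log_pos (by linarith)
      have hlk2 : Real.log k ≤ B := by
        refine le_trans (Real.log_le_log (by linarith) ?_) hlog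
        exact_mod_cast hk.2
      apply one_div_le_one_div_of_le (by positivity)
      exact mul_le_mul_of_nonneg_left hlk2 hV.le
    · exact le_refl _
  refine le_trans ?_ (Finset.sum_le_sum hterm)
  rw [← Finset.sum_filter, Finset.sum_const, nsmul_eq_mul]
  have : (1 - η) * L / B = (1 - η) * (V Set.univ t * L) * (1 / (V Set.univ t * B)) := by
    field_simp
  rw [this]
  apply mul_le_mul_of_nonneg_right hS
  positivity

/-- The sum over all `m` blocks, at most `D` of which are bad. -/
lemma blocks_sum (T : ℕ → ℕ) (hT : Monotone T) (n L m : ℕ) (B η D : ℝ) (hB : 0 < B) (hη : η ≤ 1)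
    (hn : 2 ≤ n) (hlog : Real.log (n + m * L : ℕ) ≤ B)
    (hD : (T (n + m * L) : ℝ) ≤ D)
    (hS : ∀ t a : ℕ, (t : ℝ) ≤ D → (1 - η) * (V Set.univ t * L) ≤ (S Set.univ (fun _ => 0) t (a : ℤ) L : ℝ)) :
    ((m : ℝ) - D) * ((1 - η) * L / B) ≤ ∑ k ∈ Finset.Ioc n (n + m * L), wt T k := by
  classical
  -- decomposition into blocks
  have hdec : ∀ m' : ℕ, ∑ k ∈ Finset.Ioc n (n + m' * L), wt T k =
      ∑ i ∈ Finset.range m', ∑ k ∈ Finset.Ioc (n + i * L) (n + (i + 1) * L), wt T k := by
    intro m'
    induction m' with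
    | zero => simp
    | succ m' ih =>
      rw [Finset.sum_range_succ, ← ih]
      rw [← Finset.sum_union]
      · congr 1
        ext k
        simp only [mem_Ioc, mem_union]
        have : n + m' * L ≤ n + (m' + 1) * L := by
          apply Nat.add_le_add_left
          apply Nat.mul_le_mul_right
          omega
        omega
      · rw [Finset.disjoint_left]
        intro k hk
        simp only [mem_Ioc] at hk ⊢
        omega
  rw [hdec]
  have htel : ∑ i ∈ Finset.range m, ((T (n + (i + 1) * L) : ℝ) - T (n + i * L)) = (T (n + m * L) : ℝ) - T n := by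
    rw [Finset.sum_range_sub (fun i => (T (n + i * L) : ℝ))]
    simp
  have hc0 : 0 ≤ (1 - η) * L / B := by
    apply div_nonneg _ hB.le
    exact mul_nonneg (by linarith) (by positivity)
  have hterm : ∀ i ∈ Finset.range m, (1 - ((T (n + (i + 1) * L) : ℝ) - T (n + i * L))) * ((1 - η) * L / B) ≤
      ∑ k ∈ Finset.Ioc (n + i * L) (n + (i + 1) * L), wt T k := by
    intro i hi
    rw [mem_range] at hi
    have hmono : T (n + i * L) ≤ T (n + (i + 1) * L) := by
      apply hT
      apply Nat.add_le_add_left
      apply Nat.mul_le_mul_right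
      omega
    rcases hmono.eq_or_lt with heq | hlt
    · have hle : n + (i + 1) * L ≤ n + m * L := by
        apply Nat.add_le_add_left
        apply Nat.mul_le_mul_right
        omega
      have hadd : n + (i + 1) * L = n + i * L + L := by ring
      rw [← heq, sub_self, sub_zero, one_mul, hadd]
      refine block_sum T hT (n + i * L) L (T (n + i * L)) B η hB rfl ?_ (by omega) ?_ ?_
      · rw [← hadd, heq]
      · refine le_trans ?_ hlog
        apply Real.log_le_log
        · have : 0 < n + i * L + L := by omega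
          exact_mod_cast this
        · rw [← hadd]
          exact_mod_cast hle
      · apply hS
        refine le_trans ?_ hD
        rw [heq]
        exact_mod_cast hT hle
    · have h1 : (1 : ℝ) ≤ (T (n + (i + 1) * L) : ℝ) - T (n + i * L) := by
        have : ((T (n + i * L) : ℝ)) + 1 ≤ T (n + (i + 1) * L) := by exact_mod_cast hlt
        linarith
      refine le_trans ?_ (Finset.sum_nonneg (fun k _ => wt_nonneg T k))
      apply mul_nonpos_of_nonpos_of_nonneg _ hc0
      linarith
  refine le_trans ?_ (Finset.sum_le_sum hterm)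
  rw [← Finset.sum_mul]
  apply mul_le_mul_of_nonneg_right _ hc0
  rw [Finset.sum_sub_distrib, htel]
  simp only [sum_const, card_range, nsmul_eq_mul, mul_one]
  have : (0 : ℝ) ≤ T n := by positivity
  linarith


/-- The weights are eventually at most `1`. -/
lemma wt_le_one (M : Mert) (T : ℕ → ℕ) (α : ℝ) (hα1 : α ≤ 1)
    (hT : ∀ᶠ n : ℕ in Filter.atTop, (T n : ℝ) ≤ (Real.log n) ^ α) :
    ∀ᶠ n : ℕ in Filter.atTop, wt T n ≤ 1 := by
  obtain ⟨c, hc1, -, -, -, hc4, -⟩ := M
  have hlog : Tendsto (fun n : ℕ => Real.log n) atTop atTop :=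
    Real.tendsto_log_atTop.comp tendsto_natCast_atTop_atTop
  have hlit : ∀ᶠ x : ℝ in atTop, Real.log x ≤ (1 / c) * x := by
    have := Real.isLittleO_log_id_atTop.def (show (0 : ℝ) < 1 / c by positivity)
    filter_upwards [this, eventually_ge_atTop (1 : ℝ)] with x hx hx1
    simp only [id, Real.norm_eq_abs] at hx
    rw [abs_of_nonneg (by linarith : (0 : ℝ) ≤ x)] at hx
    exact (le_abs_self _).trans hx
  filter_upwards [hT, hlog.eventually hlit, hlog.eventually (eventually_ge_atTop (1 : ℝ))] with n h1 h2 h3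
  unfold wt
  split_ifs with hr
  · rcases lt_or_ge (T n) 2 with h4 | h4
    · rw [V_small _ h4, one_mul]
      rw [div_le_one (by linarith)]
      exact h3
    · have h5 := hc4 Set.univ (T n) h4
      have hTn : (2 : ℝ) ≤ T n := by exact_mod_cast h4
      have h6 : 0 < Real.log (T n) := Real.log_pos (by linarith)
      have h7 : Real.log (T n) ≤ Real.log (Real.log n) := by
        refine (Real.log_le_log (by linarith) h1).trans ?_
        rw [Real.log_rpow (by linarith)]
        have : 0 ≤ Real.log (Real.log n) := Real.log_nonneg h3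
        nlinarith
      have h8 : Real.log (T n) ≤ (1 / c) * Real.log n := h7.trans h2
      have h9 : 1 ≤ V Set.univ (T n) * Real.log n := by
        have h10 : 1 / (c * Real.log (T n)) * Real.log n ≤ V Set.univ (T n) * Real.log n :=
          mul_le_mul_of_nonneg_right h5 (by linarith)
        refine le_trans ?_ h10
        rw [div_mul_eq_mul_div, one_mul, le_div_iff₀ (by positivity), one_mul]
        calc c * Real.log (T n) ≤ c * ((1 / c) * Real.log n) :=
              mul_le_mul_of_nonneg_left h8 (by linarith)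
          _ = Real.log n := by field_simp
      rw [div_le_one (by linarith)]
      exact h9
  · norm_num

/-- The fundamental lemma on a block of length `⌊log n⌋`. -/
lemma block_FL (F : FL) (η : ℝ) (hη0 : 0 < η) (hη1 : η < 1) :
    ∃ α : ℝ, 0 < α ∧ α ≤ 1 / 2 ∧ ∀ᶠ n : ℕ in Filter.atTop, ∀ t a : ℕ,
      (t : ℝ) ≤ (Real.log (2 * n)) ^ α →
      (1 - η) * (V Set.univ t * (⌊Real.log n⌋₊ : ℕ)) ≤
        (S Set.univ (fun _ => 0) t (a : ℤ) ⌊Real.log n⌋₊ : ℝ) := by
  obtain ⟨u0, z0, hu0, hz0, hFL⟩ := F 1 le_rfl
  have hlogη : 0 < Real.log (1 / η) := Real.log_pos (by rw [lt_div_iff₀ hη0]; linarith)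
  set W : ℝ := u0 + Real.log (1 / η) with hW
  have hW1 : 1 ≤ W := by linarith
  refine ⟨min (1 / (W + 1)) (1 / 2), by positivity, min_le_right _ _, ?_⟩
  have hx : Tendsto (fun n : ℕ => Real.log (2 * (n : ℝ))) atTop atTop :=
    Real.tendsto_log_atTop.comp (tendsto_natCast_atTop_atTop.const_mul_atTop (by norm_num))
  have hllx := Real.tendsto_log_atTop.comp hx
  filter_upwards [hx.eventually (eventually_ge_atTop (4 : ℝ)),
    hllx.eventually (eventually_ge_atTop (W * Real.log z0 + 1)),
    hllx.eventually (eventually_ge_atTop (W + 1)), eventually_ge_atTop 1] with n h1 h2 h3 hn1 t a ht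
  simp only [Function.comp] at h2 h3
  set x := Real.log (2 * (n : ℝ)) with hxdef
  have hn1' : (1 : ℝ) ≤ n := by exact_mod_cast hn1
  have hlog2 : Real.log 2 ≤ 1 := by
    have := Real.log_two_lt_d9
    linarith
  have hlog2' : 0 < Real.log 2 := Real.log_pos (by norm_num)
  have hxn : x = Real.log 2 + Real.log n := by
    rw [hxdef, Real.log_mul (by norm_num) (by linarith)]
  set L := ⌊Real.log n⌋₊ with hL
  have hLx : x / 2 ≤ (L : ℝ) := by
    have := Nat.lt_floor_add_one (Real.log n)
    rw [← hL] at this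
    linarith
  have hLpos : (0 : ℝ) < L := by linarith
  have hlogL : Real.log x - 1 ≤ Real.log L := by
    have : Real.log (x / 2) ≤ Real.log L := Real.log_le_log (by linarith) hLx
    rw [Real.log_div (by linarith) (by norm_num)] at this
    linarith
  set Z := max t z0 with hZ
  have hZz0 : z0 ≤ Z := le_max_right _ _
  have htZ : t ≤ Z := le_max_left _ _
  have hZ3 : (3 : ℝ) ≤ Z := by exact_mod_cast hz0.trans hZz0
  have hlogZ : 0 < Real.log Z := Real.log_pos (by linarith)
  have hkey : W * Real.log Z ≤ Real.log L := by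
    rcases le_total t z0 with h | h
    · have : Z = z0 := max_eq_right h
      rw [this]
      linarith
    · have hZt : Z = t := max_eq_left h
      rw [hZt]
      have ht3 : (3 : ℝ) ≤ t := by
        rw [hZt] at hZ3
        exact hZ3
      have h5 : Real.log t ≤ (1 / (W + 1)) * Real.log x := by
        refine (Real.log_le_log (by linarith) ht).trans ?_
        rw [Real.log_rpow (by linarith)]
        apply mul_le_mul_of_nonneg_right (min_le_left _ _)
        linarith
      have h6 : W * Real.log t ≤ W * ((1 / (W + 1)) * Real.log x) :=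
        mul_le_mul_of_nonneg_left h5 (by linarith)
      have h7 : W * ((1 / (W + 1)) * Real.log x) = Real.log x - Real.log x / (W + 1) := by
        field_simp
        ring
      have h8 : 1 ≤ Real.log x / (W + 1) := by
        rw [le_div_iff₀ (by linarith)]
        linarith
      linarith
  have hdiv : W ≤ Real.log L / Real.log Z := by
    rw [le_div_iff₀ hlogZ]
    exact hkey
  have happ := hFL {p | p ≤ t} (fun _ => 0) Z (a : ℤ) L hZz0 (by
    refine le_trans ?_ hkey
    exact mul_le_mul_of_nonneg_right (by linarith) hlogZ.le)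
  rw [S_restrict t Z htZ, V_restrict t Z htZ] at happ
  have hexp : Real.exp (-1 * (Real.log L / Real.log Z - u0)) ≤ η := by
    have : -1 * (Real.log L / Real.log Z - u0) ≤ Real.log η := by
      have h9 : Real.log (1 / η) = - Real.log η := by
        rw [one_div, Real.log_inv]
      linarith
    calc Real.exp (-1 * (Real.log L / Real.log Z - u0)) ≤ Real.exp (Real.log η) := Real.exp_le_exp.2 this
      _ = η := Real.exp_log hη0
  have hV := V_pos Set.univ t
  have hVL : 0 ≤ V Set.univ t * (L : ℝ) := by positivity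
  have h10 : Real.exp (-1 * (Real.log L / Real.log Z - u0)) * (V Set.univ t * (L : ℝ)) ≤
      η * (V Set.univ t * (L : ℝ)) := mul_le_mul_of_nonneg_right hexp hVL
  have h11 := (abs_le.1 happ).1
  linarith

theorem upperSide (M : Mert) (F : FL) : UpperSide := by
  classical
  intro C hC
  set η : ℝ := (C - 1) / (2 * C) with hη
  have hC0 : 0 < C := by linarith
  have hη0 : 0 < η := div_pos (by linarith) (by linarith)
  have hη1 : η < 1 := by
    rw [hη, div_lt_one (by linarith)]
    linarith
  have hηC : (1 - η) * C = (C + 1) / 2 := by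
    rw [hη]
    field_simp
    ring
  obtain ⟨α, hα0, hα1, hblock⟩ := block_FL F η hη0 hη1
  refine ⟨α, hα0, ?_⟩
  intro T hT hTα
  set q : ℝ := (C + 3) / 4 with hq
  have hq1 : 1 < q := by rw [hq]; linarith
  have hqC : q < (C + 1) / 2 := by rw [hq]; linarith
  set ε : ℝ := (C - 1) / 8 with hε
  have hε0 : 0 < ε := by rw [hε]; linarith
  -- eventual facts
  have hlog : Tendsto (fun n : ℕ => Real.log n) atTop atTop :=
    Real.tendsto_log_atTop.comp tendsto_natCast_atTop_atTop
  have hw1 := wt_le_one M T α (by linarith) hTα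
  obtain ⟨n1, hn1⟩ := eventually_atTop.1 hw1
  obtain ⟨n2, hn2⟩ := eventually_atTop.1 hTα
  have hsq : ∀ᶠ n : ℕ in atTop, C * Real.log n ^ 2 ≤ n := by
    have h1 : ∀ᶠ x : ℝ in atTop, C * Real.log x ^ 2 ≤ x := by
      have := (Real.isLittleO_pow_log_id_atTop (n := 2)).def (show (0 : ℝ) < 1 / C by positivity)
      filter_upwards [this, eventually_ge_atTop (1 : ℝ)] with x hx hx1
      simp only [id, Real.norm_eq_abs] at hx
      rw [abs_of_nonneg (by linarith : (0 : ℝ) ≤ x), abs_of_nonneg (by positivity)] at hx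
      calc C * Real.log x ^ 2 ≤ C * (1 / C * x) := mul_le_mul_of_nonneg_left hx hC0.le
        _ = x := by field_simp
    exact tendsto_natCast_atTop_atTop.eventually h1
  have hmain : ∀ᶠ n : ℕ in atTop, gapTerm T C n ≤ (n : ℝ) ^ (-q) ∧ 0 ≤ gapTerm T C n := by
    filter_upwards [hblock, hsq, eventually_ge_atTop n1, eventually_ge_atTop n2, eventually_ge_atTop 2,
      hlog.eventually (eventually_ge_atTop (1 : ℝ)),
      hlog.eventually (eventually_ge_atTop (4 / ε ^ 2)),
      hlog.eventually (eventually_ge_atTop ((2 + q) / ε))] with n hbl hsqn hnn1 hnn2 hnn3 hy1 hy2 hy3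
    set y := Real.log n with hy
    set L := ⌊y⌋₊ with hL
    set h := ⌊C * y ^ 2⌋₊ with hh
    set m := h / L with hm
    have hL1 : 1 ≤ L := by
      rw [hL]
      exact Nat.le_floor (by simpa using hy1)
    have hLy : (L : ℝ) ≤ y := Nat.floor_le (by linarith)
    have hmL : m * L ≤ h := Nat.div_mul_le_self h L
    have hmL2 : h < m * L + L := by
      have := Nat.lt_div_mul_add (a := h) (b := L) (by omega)
      rw [hm]
      exact this
    have hhn : h ≤ n := by
      have : (h : ℝ) ≤ n := (Nat.floor_le (by positivity)).trans hsqn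
      exact_mod_cast this
    have hnpos : (0 : ℝ) < n := by
      have : 0 < n := by omega
      exact_mod_cast this
    have hB : Real.log (2 * (n : ℝ)) = Real.log 2 + y := by
      rw [Real.log_mul (by norm_num) (by linarith)]
    have hlog2 : Real.log 2 ≤ 1 := by
      have := Real.log_two_lt_d9
      linarith
    have hlog2' : 0 < Real.log 2 := Real.log_pos (by norm_num)
    set B := Real.log (2 * (n : ℝ)) with hBdef
    have hB0 : 0 < B := by linarith
    have hle2n : ∀ k : ℕ, n ≤ k → k ≤ n + h → Real.log k ≤ B := by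
      intro k hk1 hk2
      apply Real.log_le_log
      · have : 0 < k := by omega
        exact_mod_cast this
      · have : k ≤ 2 * n := by omega
        exact_mod_cast this
    have hTD : (T (n + m * L) : ℝ) ≤ B ^ α := by
      refine (hn2 (n + m * L) (by omega)).trans ?_
      apply Real.rpow_le_rpow
      · exact Real.log_natCast_nonneg _
      · exact hle2n _ (by omega) (by omega)
      · exact hα0.le
    have hsum := blocks_sum T hT n L m B η (B ^ α) hB0 hη1.le hnn3
      (hle2n _ (by omega) (by omega)) hTD (fun t a ht => hbl t a ht)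
    -- size of the main term
    have hD : B ^ α ≤ ε * y := by
      have h1 : B ^ α ≤ B ^ (1 / 2 : ℝ) := by
        apply Real.rpow_le_rpow_of_exponent_le _ hα1
        linarith
      refine h1.trans ?_
      rw [← Real.sqrt_eq_rpow]
      rw [Real.sqrt_le_iff]
      constructor
      · positivity
      · have h2 : B ≤ 2 * y := by linarith
        have h3 : 4 ≤ y * ε ^ 2 := by
          rw [div_le_iff₀ (by positivity)] at hy2
          exact hy2
        have h4 : 2 * y ≤ (ε * y) ^ 2 := by
          have : (ε * y) ^ 2 = y * (y * ε ^ 2) := by ring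
          rw [this]
          nlinarith
        linarith
    have hhy : C * y ^ 2 - 1 ≤ (h : ℝ) := by
      have := Nat.lt_floor_add_one (C * y ^ 2)
      rw [← hh] at this
      linarith
    have hmLr : C * y ^ 2 - 1 - y ≤ (m : ℝ) * L := by
      have h5 : (h : ℝ) < (m : ℝ) * L + L := by exact_mod_cast hmL2
      linarith
    have hDL : B ^ α * L ≤ ε * y ^ 2 := by
      calc B ^ α * L ≤ (ε * y) * y := by
            apply mul_le_mul hD hLy (by positivity) (by positivity)
        _ = ε * y ^ 2 := by ring
    have hfin : q * y ≤ ((m : ℝ) - B ^ α) * ((1 - η) * L / B) := by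
      have h6 : ((m : ℝ) - B ^ α) * ((1 - η) * L / B) = (1 - η) * ((m : ℝ) * L - B ^ α * L) / B := by
        field_simp
      rw [h6, le_div_iff₀ hB0]
      have h7 : C * y ^ 2 - 1 - y - ε * y ^ 2 ≤ (m : ℝ) * L - B ^ α * L := by linarith
      have h8 : (1 - η) * (C * y ^ 2 - 1 - y - ε * y ^ 2) ≤ (1 - η) * ((m : ℝ) * L - B ^ α * L) :=
        mul_le_mul_of_nonneg_left h7 (by linarith)
      refine le_trans ?_ h8
      have h9 : (1 - η) * (C * y ^ 2 - 1 - y - ε * y ^ 2) =
          ((1 - η) * C) * y ^ 2 - (1 - η) * (1 + y) - (1 - η) * ε * y ^ 2 := by ring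
      rw [h9, hηC]
      have h10 : (1 - η) * (1 + y) ≤ 2 * y := by nlinarith
      have h11 : (1 - η) * ε * y ^ 2 ≤ ε * y ^ 2 := by
        have : 0 ≤ ε * y ^ 2 := by positivity
        nlinarith
      have h12 : (2 + q) * y ≤ ε * y ^ 2 := by
        have : 2 + q ≤ y * ε := by
          rw [div_le_iff₀ hε0] at hy3
          exact hy3
        nlinarith
      have h13 : q * y * B ≤ q * y ^ 2 + q * y := by
        have : B ≤ y + 1 := by linarith
        have hqy : 0 ≤ q * y := by positivity
        calc q * y * B ≤ q * y * (y + 1) := mul_le_mul_of_nonneg_left this hqy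
          _ = q * y ^ 2 + q * y := by ring
      have h14 : (C + 1) / 2 = q + 2 * ε := by rw [hq, hε]; ring
      rw [h14]
      nlinarith
    have hsumtot : q * y ≤ ∑ j ∈ Finset.Icc 1 h, wt T (n + j) := by
      refine (hfin.trans hsum).trans ?_
      have h15 : ∑ j ∈ Finset.Icc 1 h, wt T (n + j) = ∑ k ∈ Finset.Ioc n (n + h), wt T k := by
        apply Finset.sum_bij (fun j _ => n + j)
        · intro j hj
          simp only [mem_Icc, mem_Ioc] at hj ⊢
          omega
        · intro i _ j _ hij
          omega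
        · intro k hk
          simp only [mem_Ioc] at hk
          exact ⟨k - n, by simp only [mem_Icc]; omega, by omega⟩
        · intro j _
          rfl
      rw [h15]
      apply Finset.sum_le_sum_of_subset_of_nonneg
      · intro k hk
        simp only [mem_Ioc] at hk ⊢
        omega
      · intro k _ _
        exact wt_nonneg T k
    have hprod0 : 0 ≤ ∏ j ∈ Finset.Icc 1 h, (1 - wt T (n + j)) := by
      apply Finset.prod_nonneg
      intro j _
      have := hn1 (n + j) (by omega)
      linarith
    have hprod1 : ∏ j ∈ Finset.Icc 1 h, (1 - wt T (n + j)) ≤ Real.exp (-(q * y)) := by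
      have h16 : ∏ j ∈ Finset.Icc 1 h, (1 - wt T (n + j)) ≤ ∏ j ∈ Finset.Icc 1 h, Real.exp (-(wt T (n + j))) := by
        apply Finset.prod_le_prod
        · intro j _
          have := hn1 (n + j) (by omega)
          linarith
        · intro j _
          exact Real.one_sub_le_exp_neg _
      refine h16.trans ?_
      rw [← Real.exp_sum, Finset.sum_neg_distrib]
      apply Real.exp_le_exp.2
      linarith
    constructor
    · unfold gapTerm
      have h17 : (n : ℝ) ^ (-q) = Real.exp (-(q * y)) := by
        rw [Real.rpow_def_of_pos hnpos]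
        congr 1
        rw [hy]
        ring
      rw [h17]
      calc wt T n * ∏ j ∈ Finset.Icc 1 ⌊C * Real.log n ^ 2⌋₊, (1 - wt T (n + j))
          ≤ 1 * ∏ j ∈ Finset.Icc 1 ⌊C * Real.log n ^ 2⌋₊, (1 - wt T (n + j)) :=
            mul_le_mul_of_nonneg_right (hn1 n hnn1) hprod0
        _ ≤ Real.exp (-(q * y)) := by rw [one_mul]; exact hprod1
    · exact mul_nonneg (wt_nonneg T n) hprod0
  apply Summable.of_norm_bounded_eventually_nat (g := fun n : ℕ => (n : ℝ) ^ (-q))
  · rw [Real.summable_nat_rpow]
    linarith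
  · filter_upwards [hmain] with n hn
    rw [Real.norm_eq_abs, abs_of_nonneg hn.2]
    exact hn.1

end Pool.Agent.H67.GT.UP
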